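import Pool.Agent.Lib_MP_a77ffe_gt.Removal

namespace Pool.Agent.RP5

open Finset

/-- `altL l = 1` iff the parities of the entries of the nonempty list `l` alternate -/
def altL : List ℕ → ZMod 2
  | [] => 0
  | [_] => 1
  | x :: y :: l => ((x : ZMod 2) + y) * altL (y :: l)

/-- alternating and starting with an odd entry -/
def gL : List ℕ → ZMod 2
  | [] => 0
  | x :: l => (x : ZMod 2) * altL (x :: l)

/-- the coboundary on lists -/
def dL (F : List ℕ → ZMod 2) : List ℕ → ZMod 2
  | [] => 0
  | x :: l => F l + dL (fun m => F (x :: m)) l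

lemma dL_mul (c : ZMod 2) (F : List ℕ → ZMod 2) (l : List ℕ) :
    dL (fun m => c * F m) l = c * dL F l := by
  induction l generalizing F with
  | nil => simp [dL]
  | cons x l ih =>
    simp only [dL]
    rw [ih (fun m => F (x :: m))]
    ring

lemma dL_altL_cons (x : ℕ) (l : List ℕ) : dL (fun m => altL (x :: m)) l = altL l := by
  induction l generalizing x with
  | nil => simp [dL, altL]
  | cons y l ih =>
    cases l with
    | nil => simp [dL, altL]
    | cons z m =>
      rw [dL]
      have h1 : (fun m => altL (x :: y :: m)) = fun m => ((x : ZMod 2) + y) * altL (y :: m) := by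
        funext m; simp [altL]
      rw [h1, dL_mul, ih y]
      simp only [altL]
      have h2 : (y : ZMod 2) + y = 0 := CharTwo.add_self_eq_zero _
      have h3 : ((x : ZMod 2) + z) * altL (z :: m) + ((x : ZMod 2) + y) * altL (z :: m)
        = (x + x + (y + z)) * altL (z :: m) := by ring
      rw [h3, CharTwo.add_self_eq_zero, zero_add]

lemma dL_gL (x y : ℕ) (l : List ℕ) : dL gL (x :: y :: l) = altL (x :: y :: l) := by
  rw [dL]
  have h1 : (fun m => gL (x :: m)) = fun m => (x : ZMod 2) * altL (x :: m) := by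
    funext m; simp [gL]
  rw [h1, dL_mul, dL_altL_cons]
  simp only [gL, altL]
  ring

/-- sum over the faces of a finite set of a function of the sorted list -/
lemma sum_erase_sort (F : List ℕ → ZMod 2) (S : Finset ℕ) :
    ∑ x ∈ S, F (S.erase x).sort = dL F S.sort := by
  induction S using Finset.induction_on_min generalizing F with
  | empty => simp [dL]
  | insert a S ha ih =>
    have haS : a ∉ S := fun h => lt_irrefl _ (ha a h)
    rw [Finset.sum_insert haS, Finset.erase_insert haS,
      Finset.sort_insert (· ≤ ·) (fun b hb => (ha b hb).le) haS, dL, ← ih]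
    congr 1
    refine Finset.sum_congr rfl fun x hx => ?_
    have hxa : a ≠ x := fun h => haS (h ▸ hx)
    rw [Finset.erase_insert_of_ne hxa,
      Finset.sort_insert (· ≤ ·) (fun b hb => (ha b (Finset.mem_of_mem_erase hb)).le)
        (fun h => haS (Finset.mem_of_mem_erase h))]

/-- alternating simplices -/
def alt (S : Finset ℕ) : ZMod 2 := altL S.sort

/-- alternating simplices starting with an odd vertex -/
def altg (S : Finset ℕ) : ZMod 2 := gL S.sort

lemma sum_altg (S : Finset ℕ) (hS : 2 ≤ S.card) : ∑ x ∈ S, altg (S.erase x) = alt S := by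
  unfold altg alt
  rw [sum_erase_sort]
  have h : S.sort.length = S.card := Finset.length_sort _
  generalize S.sort = L at h ⊢
  match L, h with
  | [], h => simp at h; omega
  | [_], h => simp at h; omega
  | x :: y :: l, _ => exact dL_gL x y l

lemma cast_nu (x : ℕ) : ((nu x : ℕ) : ZMod 2) = x + 1 := by
  have h := nu_mod x
  have h1 : ((nu x : ℕ) : ZMod 2) = ((nu x % 2 : ℕ) : ZMod 2) := by simp
  have h2 : (x : ZMod 2) = ((x % 2 : ℕ) : ZMod 2) := by simp
  rw [h1, h2, h]
  rcases Nat.mod_two_eq_zero_or_one x with h0 | h0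
  · rw [h0]; norm_num
  · rw [h0]; decide

lemma altL_map_nu (l : List ℕ) : altL (l.map nu) = altL l := by
  induction l with
  | nil => rfl
  | cons x l ih =>
    cases l with
    | nil => rfl
    | cons y m =>
      simp only [List.map_cons, altL] at ih ⊢
      rw [ih, cast_nu, cast_nu]
      have : (x : ZMod 2) + 1 + (y + 1) = x + y + (1 + 1) := by ring
      rw [this, CharTwo.add_self_eq_zero, add_zero]

lemma gL_map_nu (l : List ℕ) (hl : l ≠ []) : gL (l.map nu) = gL l + altL l := by
  cases l with
  | nil => exact absurd rfl hl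
  | cons x l =>
    have := altL_map_nu (x :: l)
    rw [List.map_cons] at this ⊢
    simp only [gL]
    rw [this, cast_nu]; ring

lemma sort_nus {S : Finset ℕ} (hS : ∀ x ∈ S, ∀ y ∈ S, x ≠ y → x / 2 ≠ y / 2) :
    (nus S).sort = S.sort.map nu := by
  have h1 : StrictMonoOn nu (S : Set ℕ) := by
    intro x hx y hy hxy
    have h2 := hS x hx y hy (ne_of_lt hxy)
    have h3 := nu_div x
    have h4 := nu_div y
    omega
  have h2 := StrictMonoOn.map_finsetSort (f := ⟨nu, nu_injective⟩) (s := S) h1
  have h3 : nus S = S.map ⟨nu, nu_injective⟩ := by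
    rw [Finset.map_eq_image]; rfl
  rw [h3]
  exact h2.symm

lemma alt_nus {S : Finset ℕ} (hS : ∀ x ∈ S, ∀ y ∈ S, x ≠ y → x / 2 ≠ y / 2) :
    alt (nus S) = alt S := by
  unfold alt; rw [sort_nus hS, altL_map_nu]

lemma altg_nus {S : Finset ℕ} (hS : ∀ x ∈ S, ∀ y ∈ S, x ≠ y → x / 2 ≠ y / 2)
    (hne : S.Nonempty) : altg (nus S) = altg S + alt S := by
  unfold altg alt
  rw [sort_nus hS, gL_map_nu]
  intro h
  have : S.sort.length = S.card := Finset.length_sort _
  rw [h] at this
  have := Finset.card_pos.mpr hne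
  simp_all

/-- interchange of faces and cofaces -/
lemma sum_faces (V : Finset ℕ) (f : Finset ℕ → Finset ℕ → ZMod 2) :
    ∑ S ∈ V.powerset, ∑ x ∈ S, f (S.erase x) S
      = ∑ R ∈ V.powerset, ∑ x ∈ V \ R, f R (insert x R) := by
  classical
  rw [Finset.sum_sigma', Finset.sum_sigma']
  refine Finset.sum_bij' (fun p _ => ⟨p.1.erase p.2, p.2⟩) (fun p _ => ⟨insert p.2 p.1, p.2⟩)
    ?_ ?_ ?_ ?_ ?_
  · rintro ⟨S, x⟩ h
    simp only [Finset.mem_sigma, Finset.mem_powerset, Finset.mem_sdiff] at h ⊢
    exact ⟨(Finset.erase_subset _ _).trans h.1, h.1 h.2, by simp⟩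
  · rintro ⟨R, x⟩ h
    simp only [Finset.mem_sigma, Finset.mem_powerset, Finset.mem_sdiff] at h ⊢
    exact ⟨Finset.insert_subset h.2.1 h.1, by simp⟩
  · rintro ⟨S, x⟩ h
    simp only [Finset.mem_sigma, Finset.mem_powerset] at h
    simp [Finset.insert_erase h.2]
  · rintro ⟨R, x⟩ h
    simp only [Finset.mem_sigma, Finset.mem_powerset, Finset.mem_sdiff] at h
    simp [Finset.erase_insert h.2.2]
  · rintro ⟨S, x⟩ h
    simp only [Finset.mem_sigma, Finset.mem_powerset] at h
    simp [Finset.insert_erase h.2]

lemma nus_mem_powerset {V : Finset ℕ} (hV : nus V = V) {S : Finset ℕ} :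
    nus S ∈ V.powerset ↔ S ∈ V.powerset := by
  rw [Finset.mem_powerset, Finset.mem_powerset]
  constructor
  · intro h x hx
    have := h (x := nu x) (by rw [mem_nus, nu_nu]; exact hx)
    rw [← hV, mem_nus]; exact this
  · intro h x hx
    rw [mem_nus] at hx
    rw [← hV, mem_nus]; exact h hx

lemma sum_powerset_nus {V : Finset ℕ} (hV : nus V = V) (f : Finset ℕ → ZMod 2) :
    ∑ S ∈ V.powerset, f (nus S) = ∑ S ∈ V.powerset, f S := by
  refine Finset.sum_bij' (fun S _ => nus S) (fun S _ => nus S) ?_ ?_ ?_ ?_ ?_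
  · intro S hS; exact (nus_mem_powerset hV).mpr hS
  · intro S hS; exact (nus_mem_powerset hV).mpr hS
  · intro S _; exact nus_nus S
  · intro S _; exact nus_nus S
  · intro S _; rfl

/-- **Evaluation**: the last chain of an index sequence contains an odd number of alternating
simplices. -/
theorem IndSeq.alt_eval {V : Finset ℕ} {e : ℕ → ℕ → Bool} {k : ℕ}
    {w : ℕ → Finset ℕ → ZMod 2} (hV : nus V = V) (h : IndSeq V (Clq e) k w) :
    ∀ j ≤ k, ∑ S ∈ V.powerset, alt S * w j S = 1 := by
  intro j
  induction j with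
  | zero =>
    intro _
    have h1 : ∑ S ∈ V.powerset, alt S * w 0 S = ∑ S ∈ V.image (fun x => ({x} : Finset ℕ)), alt S * w 0 S := by
      symm
      apply Finset.sum_subset
      · intro S hS
        rw [Finset.mem_image] at hS
        obtain ⟨x, hx, rfl⟩ := hS
        simpa using hx
      · intro S hS hS2
        by_contra hne
        obtain ⟨h1, -, h3⟩ := h.supp 0 (by omega) S (right_ne_zero_of_mul hne)
        rw [zero_add, Finset.card_eq_one] at h3
        obtain ⟨x, rfl⟩ := h3
        apply hS2
        rw [Finset.mem_image]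
        exact ⟨x, h1 (by simp), rfl⟩
    rw [h1, Finset.sum_image]
    · rw [← h.zero]
      refine Finset.sum_congr rfl fun x _ => ?_
      simp [alt, altL]
    · intro x _ y _ hxy
      simpa using hxy
  | succ j ih =>
    intro hj
    have ih' := ih (by omega)
    have h1 : ∑ S ∈ V.powerset, alt S * w (j + 1) S
        = ∑ S ∈ V.powerset, ∑ x ∈ S, altg (S.erase x) * w (j + 1) S := by
      refine Finset.sum_congr rfl fun S _ => ?_
      by_cases h0 : w (j + 1) S = 0
      · simp [h0]
      · obtain ⟨-, -, h3⟩ := h.supp (j + 1) hj S h0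
        rw [← sum_altg S (by omega), Finset.sum_mul]
    rw [h1, sum_faces V (fun R S => altg R * w (j + 1) S)]
    have h2 : ∀ R ∈ V.powerset, ∑ x ∈ V \ R, altg R * w (j + 1) (insert x R)
        = altg R * w j R + altg R * w j (nus R) := by
      intro R hR
      rw [Finset.mem_powerset] at hR
      rw [← Finset.mul_sum]
      by_cases hne : R.Nonempty
      · rw [h.step j (by omega) R hR hne]; ring
      · rw [Finset.not_nonempty_iff_eq_empty] at hne
        subst hne
        simp [altg, gL]
    rw [Finset.sum_congr rfl h2, Finset.sum_add_distrib]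
    have h3 : ∑ R ∈ V.powerset, altg R * w j (nus R)
        = ∑ R ∈ V.powerset, altg (nus R) * w j R := by
      rw [← sum_powerset_nus hV]
      refine Finset.sum_congr rfl fun R _ => ?_
      rw [nus_nus]
    rw [h3, ← Finset.sum_add_distrib, ← ih']
    refine Finset.sum_congr rfl fun R _ => ?_
    by_cases h0 : w j R = 0
    · simp [h0]
    · obtain ⟨-, h4, h5⟩ := h.supp j (by omega) R h0
      rw [altg_nus (fun x hx y hy hxy => (h4 x hx y hy hxy).1)
        (Finset.card_pos.mp (by omega))]
      have h6 := zmod2_add_self (altg R)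
      linear_combination (w j R) * h6

lemma nus_range (n : ℕ) : nus (range (2 * n)) = range (2 * n) := by
  ext x
  rw [mem_nus, Finset.mem_range, Finset.mem_range]
  constructor
  · intro h
    have := nu_lt h
    rwa [nu_nu] at this
  · exact nu_lt

/-- an index sequence of length `k` produces a clique with `k+1` elements -/
theorem Ind.exists_clique {n : ℕ} {e : ℕ → ℕ → Bool} {k : ℕ} (h : Ind n e k) :
    ∃ S, S ⊆ range (2 * n) ∧ Clq e S ∧ S.card = k + 1 := by
  obtain ⟨w, hw⟩ := h
  have h1 := hw.alt_eval (nus_range n) k le_rfl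
  obtain ⟨S, -, hS⟩ := Finset.exists_ne_zero_of_sum_ne_zero (by rw [h1]; exact one_ne_zero)
  exact ⟨S, hw.supp k le_rfl S (right_ne_zero_of_mul hS)⟩

end Pool.Agent.RP5
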