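import Pool.Agent.Lib_MP_a77ffe_gt.Alt

/-!
The certificate checker.  Everything here is meant to be evaluated by the kernel, so only
recursors and functions on natural numbers with fast evaluation are used.
-/

namespace Pool.Agent.RP5

/-- Tables attached to a signed complete graph on `n0` vertices.
`LB`: the elements of the cliques with `k` elements (fields of width 6);
`BA`, `BB`: incidences between cliques of sizes `k-1, k` and `k, k+1`;
`HA`, `HB`: which cliques contain a given lift. -/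
structure Base where
  n0 : ℕ
  k : ℕ
  adj : ℕ
  lA : ℕ
  lB : ℕ
  lC : ℕ
  mA : ℕ
  mB : ℕ
  mC : ℕ
  LB : ℕ
  BA : ℕ
  BB : ℕ
  HA : ℕ
  HB : ℕ
  EVB : ℕ
  AL : ℕ
  REP : ℕ
  EVF : ℕ

/-- search trees -/
inductive Tr
  | ref (c0 c1 : ℕ)
  | sol (t p w : ℕ)
  | bit (a v : ℕ) (t0 t1 : Tr)
  | dec (a q : ℕ) (t0 t1 : Tr)

/-- the bit of a number -/
def tb (m i : ℕ) : Bool := Nat.beq (Nat.land (Nat.shiftRight m i) 1) 1

/-- loop over the entries of `c` (fields of 13 bits, shifted by one), adding up the columns -/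
noncomputable def xorLoop (col : ℕ → ℕ) (kont : ℕ → ℕ → Bool) (fuel : ℕ) : ℕ → ℕ → ℕ → Bool :=
  Nat.rec (motive := fun _ => ℕ → ℕ → ℕ → Bool)
    (fun c g acc => cond (Nat.beq c 0) (kont g acc) false)
    (fun _ ih c g acc => cond (Nat.beq c 0) (kont g acc)
      ((fun p => ih (Nat.shiftRight c 13) (Nat.xor g (Nat.pow 2 p)) (Nat.xor acc (col p)))
        (Nat.pred (Nat.land c 8191)))) fuel

noncomputable def colA (B : Base) (p : ℕ) : ℕ :=
  Nat.shiftLeft (Nat.land (Nat.shiftRight B.BA (Nat.mul (Nat.mod p B.lA) B.lB)) B.mB)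
    (Nat.mul (Nat.div p B.lA) B.lB)

noncomputable def colB (B : Base) (p : ℕ) : ℕ :=
  Nat.land (Nat.shiftRight B.BB (Nat.mul p B.lC)) B.mC

/-- comparison of the sections at distance `d` -/
noncomputable def chkPair (B : Base) (E G d : ℕ) : Bool :=
  (fun sh => (fun EE => Nat.beq (Nat.lor (Nat.land (Nat.xor G (Nat.shiftRight G sh))
      (Nat.sub (Nat.pow 2 (Nat.mul (Nat.sub (Nat.succ B.k) d) B.lA)) 1)) EE) EE)
    (Nat.lor E (Nat.shiftRight E sh))) (Nat.mul d B.lA)

noncomputable def chkPairs (B : Base) (E G : ℕ) (m : ℕ) : Bool :=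
  Nat.rec (motive := fun _ => Bool) true
    (fun d ih => cond (chkPair B E G (Nat.succ d)) ih false) m

/-- the refutation certificate -/
noncomputable def refute (B : Base) (E D c0 c1 : ℕ) : Bool :=
  xorLoop (colB B) (fun g0 z =>
    cond (Nat.beq z 0)
      (cond (Nat.beq (Nat.land (Nat.xor g0 (Nat.shiftRight g0 1)) B.EVB) B.AL)
        (cond (Nat.beq (Nat.shiftRight g0 B.lB) 0)
          (xorLoop (colA B) (fun G y =>
            cond (Nat.beq (Nat.lor (Nat.xor y (Nat.mul g0 B.REP)) D) D)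
              (chkPairs B E G B.k) false) 128 c1 0 0)
          false) false) false) 128 c0 0 0

/-- forbid the lifts of the mask `M` in the section `a` -/
noncomputable def killX (B : Base) (a : ℕ) (kont : ℕ → ℕ → ℕ → Bool) (F E D x : ℕ) : Bool :=
  kont (Nat.lor F (Nat.pow 2 (Nat.add (Nat.mul a (Nat.mul 2 B.n0)) x)))
    (Nat.lor E (Nat.shiftLeft (Nat.land (Nat.shiftRight B.HA (Nat.mul x B.lA)) B.mA)
      (Nat.mul a B.lA)))
    (Nat.lor D (Nat.shiftLeft (Nat.land (Nat.shiftRight B.HB (Nat.mul x B.lB)) B.mB)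
      (Nat.mul a B.lB)))

noncomputable def killL (B : Base) (a : ℕ) (kont : ℕ → ℕ → ℕ → Bool) (m : ℕ) :
    ℕ → ℕ → ℕ → ℕ → Bool :=
  Nat.rec (motive := fun _ => ℕ → ℕ → ℕ → ℕ → Bool)
    (fun _ F E D => kont F E D)
    (fun _ ih c F E D => killX B a (fun F' E' D' => ih (Nat.shiftRight c 6) F' E' D') F E D
      (Nat.xor (Nat.land c 63) 1)) m

/-- the elements of the clique with index `q` -/
noncomputable def ent (B : Base) (q : ℕ) : ℕ := Nat.shiftRight B.LB (Nat.mul q (Nat.mul 6 B.k))

/-- sign of the pair `i, j` in the signed graph extending `B` by the sections with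
forbidden lifts `F` -/
noncomputable def sgnE (B : Base) (F i j : ℕ) : Bool :=
  cond (Nat.ble B.n0 i)
    (cond (Nat.ble B.n0 j) false
      (tb F (Nat.add (Nat.mul (Nat.sub i B.n0) (Nat.mul 2 B.n0)) (Nat.mul 2 j))))
    (cond (Nat.ble B.n0 j)
      (tb F (Nat.add (Nat.mul (Nat.sub j B.n0) (Nat.mul 2 B.n0)) (Nat.mul 2 i)))
      (tb B.adj (Nat.add (Nat.mul i B.n0) j)))

noncomputable def isoRow (B : Base) (F tg p w n j pj : ℕ) (m : ℕ) : Bool :=
  Nat.rec (motive := fun _ => Bool) true
    (fun i ih => (fun pi => cond (Nat.beq pi pj) false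
      (cond (Bool.xor (Bool.xor (tb tg (Nat.add (Nat.mul i n) j)) (sgnE B F pi pj))
        (Bool.xor (tb w i) (tb w j))) false ih))
        (Nat.land (Nat.shiftRight p (Nat.mul 4 i)) 15)) m

noncomputable def isoAll (B : Base) (F tg p w n : ℕ) (m : ℕ) : Bool :=
  Nat.rec (motive := fun _ => Bool) true
    (fun j ih => (fun pj => cond (Nat.ble n pj) false
      (cond (isoRow B F tg p w n j pj j) ih false))
        (Nat.land (Nat.shiftRight p (Nat.mul 4 j)) 15)) m

noncomputable def solOK (B : Base) (tg : List ℕ) (F t p w : ℕ) : Bool :=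
  cond (Nat.beq (Nat.land (Nat.lor F (Nat.shiftRight F 1)) B.EVF) B.EVF)
    ((fun n => isoAll B F (tg.getD t 0) p w n n) (Nat.add B.n0 (Nat.succ B.k))) false

/-- running a search tree; `l` is the number of touched sections -/
noncomputable def run (B : Base) (tg : List ℕ) (t : Tr) : ℕ → ℕ → ℕ → ℕ → Bool :=
  Tr.rec (motive := fun _ => ℕ → ℕ → ℕ → ℕ → Bool)
    (fun c0 c1 _ _ E D => refute B E D c0 c1)
    (fun t p w _ F _ _ => cond (Nat.ble tg.length t) false (solOK B tg F t p w))
    (fun a v _ _ r0 r1 l F E D => cond (Nat.ble a B.k) (cond (Nat.ble a l)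
      (cond (Nat.ble B.n0 v) false
        ((fun l' => cond
          (killX B a (fun F' E' D' => r0 l' F' E' D') F E D (Nat.succ (Nat.mul 2 v)))
          (killX B a (fun F' E' D' => r1 l' F' E' D') F E D (Nat.mul 2 v)) false)
          (cond (Nat.beq a l) (Nat.succ l) l))) false) false)
    (fun a q _ _ r0 r1 l F E D => cond (Nat.ble B.lB q) false (cond (Nat.beq a l)
      (cond (Nat.ble a B.k)
        (cond (Nat.beq (Nat.shiftRight F (Nat.mul l (Nat.mul 2 B.n0))) 0)
        (cond (Nat.beq (Nat.shiftRight E (Nat.mul l B.lA)) 0)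
        (cond (Nat.beq (Nat.shiftRight D (Nat.mul l B.lB)) 0)
          (cond (killL B a (fun F' E' D' => r0 (Nat.succ l) F' E' D') B.k (ent B q) F E D)
            (r1 l F E (Nat.lor D (Nat.shiftLeft (Nat.shiftLeft
              (Nat.shiftRight B.REP (Nat.mul l B.lB)) (Nat.mul l B.lB)) q)))
            false) false) false) false) false)
      (cond (Nat.ble a l)
        (cond (killL B a (fun F' E' D' => r0 l F' E' D') B.k (ent B q) F E D)
          (r1 l F E (Nat.lor D (Nat.pow 2 (Nat.add (Nat.mul a B.lB) q)))) false) false))) t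

end Pool.Agent.RP5
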