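import Mathlib

/-!
Z/2 chains on a signed complete graph (two-graph) and the removal lemma.

The vertices of the double cover are natural numbers `x`; `x / 2` is the vertex below and
`x % 2` the sheet.  `nu` is the deck transformation.
-/

namespace Pool.Agent.RP5

open Finset

/-- the deck transformation -/
def nu (x : ℕ) : ℕ := if x % 2 = 0 then x + 1 else x - 1

lemma nu_div (x : ℕ) : nu x / 2 = x / 2 := by
  unfold nu; split_ifs <;> omega

lemma nu_mod (x : ℕ) : nu x % 2 = 1 - x % 2 := by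
  unfold nu; split_ifs <;> omega

lemma nu_nu (x : ℕ) : nu (nu x) = x := by
  unfold nu; split_ifs <;> omega

lemma nu_ne (x : ℕ) : nu x ≠ x := by
  unfold nu; split_ifs <;> omega

lemma nu_injective : Function.Injective nu := fun x y h => by
  rw [← nu_nu x, h, nu_nu]

lemma nu_lt {n x : ℕ} (h : x < 2 * n) : nu x < 2 * n := by
  unfold nu; split_ifs <;> omega

/-- `nu` on finite sets -/
def nus (S : Finset ℕ) : Finset ℕ := S.image nu

lemma mem_nus {S : Finset ℕ} {x : ℕ} : x ∈ nus S ↔ nu x ∈ S := by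
  unfold nus
  rw [Finset.mem_image]
  constructor
  · rintro ⟨y, hy, rfl⟩; rwa [nu_nu]
  · intro h; exact ⟨nu x, h, nu_nu x⟩

lemma nus_nus (S : Finset ℕ) : nus (nus S) = S := by
  ext x; rw [mem_nus, mem_nus, nu_nu]

lemma nus_insert (x : ℕ) (S : Finset ℕ) : nus (insert x S) = insert (nu x) (nus S) := by
  unfold nus; rw [Finset.image_insert]

lemma nus_card (S : Finset ℕ) : (nus S).card = S.card :=
  Finset.card_image_of_injective _ nu_injective

lemma nus_empty : nus ∅ = ∅ := rfl

lemma nus_singleton (x : ℕ) : nus {x} = {nu x} := by simp [nus]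

lemma nus_nonempty {S : Finset ℕ} (h : S.Nonempty) : (nus S).Nonempty := h.image _

/-- cliques of the double cover graph of the signed complete graph `e` -/
def Clq (e : ℕ → ℕ → Bool) (S : Finset ℕ) : Prop :=
  ∀ x ∈ S, ∀ y ∈ S, x ≠ y → x / 2 ≠ y / 2 ∧ e (x / 2) (y / 2) = decide ((x + y) % 2 = 1)

lemma Clq.subset {e : ℕ → ℕ → Bool} {S T : Finset ℕ} (h : Clq e S) (hT : T ⊆ S) : Clq e T :=
  fun x hx y hy hxy => h x (hT hx) y (hT hy) hxy

lemma Clq.nus {e : ℕ → ℕ → Bool} {S : Finset ℕ} (h : Clq e S) : Clq e (nus S) := by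
  intro x hx y hy hxy
  rw [mem_nus] at hx hy
  have hne : nu x ≠ nu y := fun hh => hxy (nu_injective hh)
  have := h _ hx _ hy hne
  rw [nu_div, nu_div] at this
  refine ⟨this.1, this.2.trans ?_⟩
  have h1 := nu_mod x
  have h2 := nu_mod y
  congr 1
  simp only [eq_iff_iff]
  omega

/-- An index sequence: chains `w 0, …, w k` on a free Z/2-complex with
`∂ w (j+1) = w j + ν w j` and `w 0` of odd augmentation. -/
structure IndSeq (V : Finset ℕ) (K : Finset ℕ → Prop) (k : ℕ) (w : ℕ → Finset ℕ → ZMod 2) :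
    Prop where
  supp : ∀ j ≤ k, ∀ S, w j S ≠ 0 → S ⊆ V ∧ K S ∧ S.card = j + 1
  zero : ∑ x ∈ V, w 0 {x} = 1
  step : ∀ j < k, ∀ R ⊆ V, R.Nonempty →
    ∑ x ∈ V \ R, w (j + 1) (insert x R) = w j R + w j (nus R)

/-- the signed complete graph `e` on the vertices `0, …, n-1` has index at least `k` -/
def Ind (n : ℕ) (e : ℕ → ℕ → Bool) (k : ℕ) : Prop :=
  ∃ w, IndSeq (range (2 * n)) (Clq e) k w

lemma zmod2_add_self (a : ZMod 2) : a + a = 0 := CharTwo.add_self_eq_zero a

/-- symmetric double sums over distinct pairs vanish mod 2 -/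
lemma sum_sum_symm_zero (P : Finset ℕ) (f : ℕ → ℕ → ZMod 2) (hf : ∀ x y, f x y = f y x) :
    ∑ x ∈ P, ∑ y ∈ P.erase x, f x y = 0 := by
  induction P using Finset.induction_on with
  | empty => simp
  | insert a P ha ih =>
    rw [Finset.sum_insert ha, Finset.erase_insert ha]
    have h1 : ∀ x ∈ P, ∑ y ∈ (insert a P).erase x, f x y = f x a + ∑ y ∈ P.erase x, f x y := by
      intro x hx
      have hxa : x ≠ a := fun h => ha (h ▸ hx)
      rw [Finset.erase_insert_of_ne (Ne.symm hxa), Finset.sum_insert]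
      intro h; exact ha (Finset.mem_of_mem_erase h)
    rw [Finset.sum_congr rfl h1, Finset.sum_add_distrib, ih, add_zero]
    rw [← Finset.sum_add_distrib]
    apply Finset.sum_eq_zero
    intro x _
    rw [hf a x]; exact zmod2_add_self _

end Pool.Agent.RP5
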