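import Pool.Agent.Lib_MP_a77ffe_gt.TableSound

/-!
The classification step.
-/

namespace Pool.Agent.RP5

open Finset

/-- every signed complete graph on `n` vertices of index at least `k` is isomorphic to one of
the list -/
def Cls (n k : ℕ) (L : List ℕ) : Prop :=
  ∀ e : ℕ → ℕ → Bool, (∀ i j, e i j = e j i) → Ind n e k →
    ∃ i < L.length, Iso n e (symE n (L.getD i 0))

/-- the extension problem for the signed complete graph with code `m` has been solved -/
def Good (n0 k m : ℕ) (L : List ℕ) : Prop :=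
  ∃ (B : Base) (TA TC : ℕ → Finset ℕ) (T : Tr), B.n0 = n0 ∧ B.k = k ∧ B.adj = m ∧ Tab B TA TC ∧
    run B L T 0 0 0 0 = true

/-- a positive clique at the last positions -/
lemma exists_normal {n0 k : ℕ} {e : ℕ → ℕ → Bool} (hsym : ∀ i j, e i j = e j i)
    (h : Ind (n0 + (k + 1)) e k) :
    ∃ e', (∀ i j, e' i j = e' j i) ∧ Iso (n0 + (k + 1)) e e' ∧
      ∀ a ≤ k, ∀ b ≤ k, a ≠ b → e' (n0 + a) (n0 + b) = false := by
  classical
  obtain ⟨S, hS, hc, hcard⟩ := h.exists_clique
  set n := n0 + (k + 1) with hn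
  let f := (S.equivFinOfCardEq hcard).symm
  obtain ⟨x, hx⟩ : ∃ x : ℕ → ℕ, ∀ a (ha : a < k + 1), x a = (f ⟨a, ha⟩ : ℕ) :=
    ⟨fun a => if ha : a < k + 1 then (f ⟨a, ha⟩ : ℕ) else 0, fun a ha => by simp [ha]⟩
  have hxS : ∀ a < k + 1, x a ∈ S := fun a ha => by rw [hx a ha]; exact (f ⟨a, ha⟩).2
  have hxinj : ∀ a < k + 1, ∀ b < k + 1, a ≠ b → x a ≠ x b := by
    intro a ha b hb hab h
    rw [hx a ha, hx b hb] at h
    have := f.injective (Subtype.ext h)
    exact hab (by simpa using this)
  have hv : ∀ a < k + 1, ∀ b < k + 1, a ≠ b → x a / 2 ≠ x b / 2 := fun a ha b hb hab =>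
    (hc _ (hxS a ha) _ (hxS b hb) (hxinj a ha b hb hab)).1
  have hvn : ∀ a < k + 1, x a / 2 < n := fun a ha => by
    have := Finset.mem_range.mp (hS (hxS a ha)); omega
  have key : ∀ m ≤ k + 1, ∃ σ : Equiv.Perm ℕ, (∀ i, σ i < n ↔ i < n) ∧
      ∀ a < m, σ (n0 + a) = x a / 2 := by
    intro m
    induction m with
    | zero => intro _; exact ⟨Equiv.refl _, fun i => Iff.rfl, fun a ha => by omega⟩
    | succ m ih =>
      intro hm
      obtain ⟨σ, h1, h2⟩ := ih (by omega)
      set y := σ.symm (x m / 2) with hy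
      have hσy : σ y = x m / 2 := by rw [hy, Equiv.apply_symm_apply]
      have hyn : y < n := by rw [← h1, hσy]; exact hvn m (by omega)
      refine ⟨(Equiv.swap (n0 + m) y).trans σ, ?_, ?_⟩
      · intro i
        rw [Equiv.trans_apply, h1, Equiv.swap_apply_def]
        split_ifs with h3 h4
        · subst h3; constructor
          · intro _; omega
          · intro _; exact hyn
        · subst h4; constructor
          · intro _; exact hyn
          · intro _; omega
        · exact Iff.rfl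
      · intro a ha
        rw [Equiv.trans_apply]
        rcases Nat.lt_or_ge a m with h5 | h5
        · have h6 : n0 + a ≠ y := by
            intro h7
            have := h2 a h5
            rw [h7, hσy] at this
            exact hv m (by omega) a (by omega) (by omega) this
          rw [Equiv.swap_apply_of_ne_of_ne (by omega) h6]
          exact h2 a h5
        · have : a = m := by omega
          rw [this, Equiv.swap_apply_left, hσy]
  obtain ⟨σ, h1, h2⟩ := key (k + 1) le_rfl
  set t : ℕ → Bool := fun i => decide (n0 ≤ i) && decide (x (i - n0) % 2 = 1) with ht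
  refine ⟨fun i j => xor (e (σ i) (σ j)) (xor (t i) (t j)), ?_, ?_, ?_⟩
  · intro i j
    show (e (σ i) (σ j) ^^ (t i ^^ t j)) = (e (σ j) (σ i) ^^ (t j ^^ t i))
    rw [hsym (σ i) (σ j), Bool.xor_comm (t i) (t j)]
  · exact ⟨σ, t, fun i hi => (h1 i).mpr hi, fun i _ j _ h => σ.injective h,
      fun i _ j _ _ => rfl⟩
  · intro a ha b hb hab
    have h3 := hc _ (hxS a (by omega)) _ (hxS b (by omega)) (hxinj a (by omega) b (by omega) hab)
    show (e (σ (n0 + a)) (σ (n0 + b)) ^^ (t (n0 + a) ^^ t (n0 + b))) = false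
    rw [h2 a (by omega), h2 b (by omega), h3.2, ht]
    simp only [Nat.add_sub_cancel_left, Nat.le_add_right, decide_true, Bool.true_and]
    rcases Nat.mod_two_eq_zero_or_one (x a) with h4 | h4 <;>
      rcases Nat.mod_two_eq_zero_or_one (x b) with h5 | h5 <;>
      simp [Nat.add_mod, h4, h5]

/-- the index of the link part -/
lemma ind_base {n0 k : ℕ} {e : ℕ → ℕ → Bool}
    (new : ∀ a ≤ k + 1, ∀ b ≤ k + 1, a ≠ b → e (n0 + a) (n0 + b) = false)
    (ind : Ind (n0 + (k + 2)) e (k + 1)) : Ind n0 e k := by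
  obtain ⟨w, hw⟩ := ind
  rw [show n0 + (k + 2) = n0 + ((k + 1) + 1) from rfl, range_split] at hw
  set V0 := range (2 * n0) with hV0def
  set P := newP n0 (k + 1) with hP
  have hV0 : nus V0 = V0 := nus_range n0
  have hd1 : Disjoint V0 P := by
    rw [Finset.disjoint_left]
    intro x hx hx2
    obtain ⟨a, _, rfl⟩ := mem_newP.mp hx2
    have := Finset.mem_range.mp hx
    omega
  have hd2 : Disjoint V0 (nus P) := by
    rw [Finset.disjoint_left]
    intro x hx hx2
    obtain ⟨a, _, rfl⟩ := mem_nus_newP.mp hx2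
    have := Finset.mem_range.mp hx
    omega
  have hd3 : Disjoint P (nus P) := by
    rw [Finset.disjoint_left]
    intro x hx hx2
    obtain ⟨a, _, rfl⟩ := mem_nus_newP.mp hx2
    obtain ⟨b, _, h⟩ := mem_newP.mp hx
    omega
  have hK : ∀ S, Clq e S → ∀ x ∈ P, ∀ y ∈ P, x ∈ S → nu y ∈ S → False := by
    intro S hS x hx y hy hxS hyS
    obtain ⟨a, ha', rfl⟩ := mem_newP.mp hx
    obtain ⟨b, hb', rfl⟩ := mem_newP.mp hy
    rw [nu_even (by omega)] at hyS
    have h1 := hS _ hxS _ hyS (by omega)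
    have e1 : 2 * (n0 + a) / 2 = n0 + a := by omega
    have e2 : (2 * (n0 + b) + 1) / 2 = n0 + b := by omega
    rw [e1, e2] at h1
    have hab : a ≠ b := fun h => h1.1 (by rw [h])
    rw [new a ha' b hb' hab] at h1
    have h2 := h1.2
    have h3 : (2 * (n0 + a) + (2 * (n0 + b) + 1)) % 2 = 1 := by omega
    rw [h3] at h2
    simp at h2
  obtain ⟨w', u, hw', -⟩ := removal hV0 hd1 hd2 hd3 hK (fun S h => h.nus)
    (fun S T h hT => h.subset hT) hw
  exact ⟨w', hw'⟩

/-- **The classification step.** -/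
theorem Cls.step {n0 k : ℕ} {L L' : List ℕ} (h : Cls n0 k L)
    (hgood : ∀ m ∈ L, Good n0 (k + 1) m L') : Cls (n0 + (k + 2)) (k + 1) L' := by
  intro e hsym hind
  obtain ⟨e1, hsym1, iso1, new1⟩ := exists_normal (n0 := n0) (k := k + 1) hsym hind
  have ind1 : Ind (n0 + (k + 2)) e1 (k + 1) := iso1.ind hind
  have ind0 := ind_base new1 ind1
  obtain ⟨i, hi, π0, t0, p1, p2, p3⟩ := h e1 hsym1 ind0
  obtain ⟨B, TA, TC, T, b1, b2, b3, hT, hrun⟩ := hgood _ (getD_mem hi)
  set π : ℕ → ℕ := fun x => if x < n0 then π0 x else x with hπ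
  set t : ℕ → Bool := fun x => if x < n0 then t0 x else false with ht
  set e2 : ℕ → ℕ → Bool := fun i j => xor (e1 (π i) (π j)) (xor (t i) (t j)) with he2
  have iso2 : Iso (n0 + (k + 2)) e1 e2 := by
    refine ⟨π, t, ?_, ?_, fun i _ j _ _ => rfl⟩
    · intro i hi
      rw [hπ]; dsimp only
      split_ifs with h1
      · have := p1 i h1; omega
      · exact hi
    · intro i hi j hj hij
      rw [hπ] at hij; dsimp only at hij
      split_ifs at hij with h1 h2 h2
      · exact p2 i h1 j h2 hij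
      · have := p1 i h1; omega
      · have := p1 j h2; omega
      · exact hij
  have X : Ext B e2 := by
    refine ⟨?_, ?_, ?_, ?_⟩
    · intro i j
      rw [he2]; dsimp only
      rw [hsym1 (π i) (π j), Bool.xor_comm (t i) (t j)]
    · intro i hi j hj hij
      rw [b1] at hi hj
      rw [b1, b3, p3 i hi j hj hij, he2, hπ, ht]
      simp only [hi, hj, if_true]
    · intro a ha b hb hab
      rw [b2] at ha hb
      rw [b1, he2, hπ, ht]
      have h1 : ¬ (n0 + a < n0) := by omega
      have h2 : ¬ (n0 + b < n0) := by omega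
      simp only [h1, h2, if_false, Bool.xor_false]
      exact new1 a ha b hb hab
    · rw [b1, b2]; exact iso2.ind ind1
  have S : Sem B TA e2 0 0 0 := ⟨fun a _ x _ h => by simp at h, fun a _ x _ h => by simp at h,
    fun a _ x _ h => by simp at h⟩
  obtain ⟨j, hj, iso3⟩ := run_sound hT T 0 0 0 0 hrun (by omega) e2 X S
  rw [b1, b2] at iso3
  exact ⟨j, hj, (iso1.trans iso2).trans iso3⟩

theorem cls_two : Cls 2 0 [0] := by
  intro e hsym _
  refine ⟨0, by simp, id, fun i => if i = 1 then e 0 1 else false, fun i hi => hi,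
    fun i _ j _ h => h, ?_⟩
  intro i hi j hj hij
  have h0 : symE 2 (([0] : List ℕ).getD 0 0) i j = false := by
    unfold symE; simp
  rw [h0]
  have : (i = 0 ∧ j = 1) ∨ (i = 1 ∧ j = 0) := by omega
  rcases this with ⟨rfl, rfl⟩ | ⟨rfl, rfl⟩
  · simp
  · rw [id, id, hsym 1 0]; simp

end Pool.Agent.RP5
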