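import Pool.Agent.Lib_MP_a77ffe_gt.Lists

/-!
Tables and search tree for the extension problem of one signed complete graph.
-/

namespace Pool.Agent.RP5

def B4_1 : Base where
  n0 := 4
  k := 2
  adj := 0x12
  lA := 8
  lB := 0xc
  lC := 4
  mA := 0xff
  mB := 0xfff
  mC := 0xf
  LB := 0x1c51841c31821431021c11801411000810c0
  BA := 0xa2051088844428114202a015
  BB := 0xa58484212100
  HA := 0x8040201008040201
  HB := 0xa2051088844428114202a015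
  EVB := 0x555
  AL := 1
  REP := 0x1001001
  EVF := 0x555555

def T4_1 : Tr := (.dec 0 0 (.dec 1 1 (.bit 0 2 (.bit 0 3 (.bit 1 2 (.bit 1 3 (.bit 2 0 (.ref 2 0xa) (.bit 2 1 (.ref 1 4) (.bit 2 2 (.dec 2 5 (.sol 3 39073296 0) (.ref 0x60028010006001 1)) (.bit 2 3 (.sol 3 55846416 0) (.sol 4 52516416 4))))) (.bit 2 0 (.bit 2 1 (.ref 1 4) (.bit 2 2 (.dec 2 9 (.sol 3 69600561 126) (.ref 0xa004802000e002 0xb)) (.bit 2 3 (.ref 0x3001600a0048010006002 0x34016005) (.sol 2 101917701 56)))) (.bit 2 1 (.ref 1 4) (.bit 2 2 (.dec 2 9 (.sol 2 106177281 120) (.ref 0xa004802000e002 0xb)) (.bit 2 3 (.sol 1 70387281 126) (.sol 3 50734401 20)))))) (.bit 1 3 (.bit 2 0 (.bit 2 1 (.ref 1 4) (.bit 2 2 (.ref 2 0x1c00a) (.bit 2 3 (.sol 3 70649121 126) (.sol 2 101856261 56)))) (.bit 2 1 (.ref 1 4) (.bit 2 2 (.dec 2 5 (.sol 1 69404241 126) (.ref 0x60028010006001 0x1c001)) (.bit 2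 3 (.sol 2 106181121 120) (.sol 3 33961281 20))))) (.bit 2 0 (.bit 2 1 (.ref 1 4) (.ref 2 0xb)) (.bit 2 1 (.ref 1 4) (.ref 2 0xb))))) (.bit 1 2 (.bit 1 3 (.bit 2 0 (.ref 2 0xa) (.bit 2 1 (.bit 2 2 (.dec 2 5 (.sol 3 86381616 126) (.ref 0x60028010006001 1)) (.bit 2 3 (.ref 1 0x10004) (.sol 2 85079556 2))) (.bit 2 2 (.dec 2 5 (.sol 2 105194256 120) (.ref 0x60028010006001 1)) (.bit 2 3 (.sol 1 87168576 126) (.sol 3 51537216 10))))) (.bit 2 0 (.bit 2 1 (.bit 2 2 (.bit 2 3 (.sol 4 103093296 0) (.sol 3 106177296 4)) (.bit 2 3 (.sol 0 88482576 122) (.sol 1 56906256 56))) (.bit 2 2 (.bit 2 3 (.sol 3 103023921 126) (.sol 4 105198096 10)) (.bit 2 3 (.sol 1 73467186 18) (.sol 3 104076576 42)))) (.bit 2 1 (.bit 2 2 (.bit 2 3 (.sol 3 103093296 126) (.sol 4 106177296 122)) (.bit 2 3 (.sol 1 90182706 18) (.sol 3 104137761 42))) (.bit 2 2 (.bit 2 3 (.sol 1 40190736 0) (.sol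 3 105198096 116)) (.bit 2 3 (.sol 0 72757776 10) (.sol 4 104076576 84)))))) (.bit 1 3 (.bit 2 0 (.bit 2 1 (.dec 2 11 (.ref 0x60028010006002 0x14005) (.ref 0x300160080038010006002 0x54014005)) (.bit 2 2 (.ref 2 0x1c00a) (.dec 2 4 (.sol 1 104863026 118) (.ref 0x60028010006002 0x14005)))) (.bit 2 1 (.bit 2 2 (.dec 2 5 (.sol 1 105911346 18) (.ref 0x60028010006001 0x1c001)) (.ref 1 0xa001)) (.dec 2 10 (.ref 0xa004802000e002 0x16008) (.ref 1 0x5400a001)))) (.bit 2 0 (.bit 2 1 (.bit 2 2 (.bit 2 3 (.sol 3 33776961 4) (.sol 2 105198081 8)) (.dec 2 4 (.sol 1 86181441 56) (.ref 0x60028010006002 0x14005))) (.ref 2 0xb)) (.bit 2 1 (.bit 2 2 (.bit 2 3 (.sol 2 101856516 2) (.sol 3 87426081 42)) (.ref 1 0xa001)) (.ref 2 0xb)))))) (.bit 0 3 (.bit 1 2 (.bit 1 3 (.bit 2 0 (.ref 2 0xa) (.bit 2 1 (.bit 2 2 (.ref 1 0xc004) (.bit 2 3 (.sol 3 87430176 126) (.sol 2 85140996 2)))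 (.bit 2 2 (.dec 2 5 (.sol 1 86185536 126) (.ref 0x60028010006001 1)) (.bit 2 3 (.sol 2 105198096 120) (.sol 3 34825536 10))))) (.bit 2 0 (.bit 2 1 (.dec 2 11 (.ref 0x60028010006002 0x14007) (.ref 0x300160080038010006001 0x5401a004)) (.bit 2 2 (.dec 2 9 (.sol 1 104924466 18) (.ref 0xa004802000e002 0x16006)) (.ref 2 0x1a00b))) (.bit 2 1 (.bit 2 2 (.ref 1 0xc004) (.dec 2 8 (.sol 1 105972786 118) (.ref 0xa004802000e001 0x1a004))) (.dec 2 10 (.ref 0xa004802000e002 0x16006) (.ref 2 0x5401a00b))))) (.bit 1 3 (.bit 2 0 (.bit 2 1 (.bit 2 2 (.bit 2 3 (.sol 4 104141856 0) (.sol 0 88486416 122)) (.bit 2 3 (.sol 3 106181136 4) (.sol 1 40129296 56))) (.bit 2 2 (.bit 2 3 (.sol 3 104072481 126) (.sol 1 73405746 118)) (.bit 2 3 (.sol 4 105194256 10) (.sol 3 103028016 42)))) (.bit 2 1 (.bit 2 2 (.bit 2 3 (.sol 3 104141856 126) (.sol 1 90244146 118)) (.bit 2 3 (.sol 4 106181136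 122) (.sol 3 103089201 42))) (.bit 2 2 (.bit 2 3 (.sol 1 56967696 0) (.sol 0 72753936 10)) (.bit 2 3 (.sol 3 105194256 116) (.sol 4 103028016 84))))) (.bit 2 0 (.bit 2 1 (.bit 2 2 (.bit 2 3 (.sol 3 50488641 4) (.sol 1 87164481 56)) (.dec 2 8 (.sol 2 105194241 8) (.ref 0xa004802000e001 4))) (.ref 2 0xb)) (.bit 2 1 (.bit 2 2 (.bit 2 3 (.sol 2 101917956 2) (.ref 1 0xe001)) (.dec 2 8 (.sol 3 86377521 42) (.ref 0xa004802000e001 4))) (.ref 2 0xb))))) (.bit 1 2 (.bit 1 3 (.bit 2 0 (.ref 2 0xa) (.ref 1 1)) (.bit 2 0 (.bit 2 1 (.bit 2 2 (.bit 2 3 (.sol 3 35009856 2) (.sol 2 106181136 8)) (.dec 2 4 (.sol 1 69408336 56) (.ref 0x60028010006002 0xa))) (.bit 2 2 (.bit 2 3 (.sol 2 68363781 56) (.sol 3 70653216 42)) (.ref 2 0x1a00b))) (.ref 1 1))) (.bit 1 3 (.bit 2 0 (.bit 2 1 (.bit 2 2 (.bit 2 3 (.sol 3 51782976 2) (.sol 1 70391376 56)) (.dec 2 4 (.sol 2 106177296 8)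 (.ref 0x60028010006002 0xa))) (.bit 2 2 (.bit 2 3 (.sol 2 68302341 56) (.ref 0x30016008003801800a002 0x38014006)) (.dec 2 4 (.sol 3 69604656 42) (.ref 0x60028010006002 0xa)))) (.ref 1 1)) (.bit 2 0 (.bit 2 1 (.bit 2 2 (.bit 2 3 (.sol 4 52512336 10) (.sol 3 54863376 52)) (.dec 2 4 (.sol 3 38090256 52) (.ref 0x60028010006002 0xa))) (.ref 2 0xb)) (.ref 1 1)))))) (.ref 2 0)) (.ref 1 0))

set_option maxRecDepth 100000 in
theorem tab4_1 : (okTab B4_1 (levL B4_1.n0 B4_1.adj (B4_1.k - 1)) (levL B4_1.n0 B4_1.adj B4_1.k)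
    (levL B4_1.n0 B4_1.adj (B4_1.k + 1))).all id = true := by decide +kernel

set_option maxRecDepth 100000 in
theorem run4_1 : run B4_1 L7 T4_1 0 0 0 0 = true := by decide +kernel

theorem good4_1 : Good 4 2 0x12 L7 :=
  ⟨B4_1, _, _, T4_1, rfl, rfl, rfl, okTab_sound B4_1 tab4_1, run4_1⟩

end Pool.Agent.RP5
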