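import Pool.Agent.Lib_MP_a77ffe_gt.Lists

/-!
Tables and search tree for the extension problem of one signed complete graph.
-/

namespace Pool.Agent.RP5

def B7_1 : Base where
  n0 := 7
  k := 3
  adj := 0x1850c614b2
  lA := 0x2a
  lB := 0x20
  lC := 2
  mA := 0x3ffffffffff
  mB := 0xffffffff
  mC := 3
  LB := 0x34b24c28834b1cc2863491cc2062c91ca20634b14c2842061491c43490cc2022860cb1c23450cc1021850c710228804b24034704c18034504c1002050491002020490c01c20460c0
  BA := 0xa08000005040000088080000440400008200040041000800280002001400010022010000110200000a10000005200000008080800040404000800000004000000020002000100010002020000010100000088000000440000002000000010000000800040004000800022001000110020000a000000050000000028000000140000008000000040000000828000004140000020200000101000000a0000000500000000a00000005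
  BB := 0x9999000000000000
  HA := 0xa2080802001441010040088820100401110408020028204080100504201008002a010100800540808010000aa008020001540100400000aa8004000015500200000002aa80000000555
  HB := 0xa888828054444140a2810400514208008a180414452408282a1112021522210100a0a0a000505050000aa0050005500a00000aaa00000555
  EVB := 0x55555555
  AL := 1
  REP := 0x1000000010000000100000001
  EVF := 0x55555555555555

def T7_1 : Tr := (.dec 0 21 (.dec 1 1 (.dec 2 2 (.dec 2 6 (.dec 3 19 (.dec 1 14 (.dec 3 9 (.dec 0 5 (.dec 2 8 (.dec 0 13 (.dec 1 18 (.dec 3 20 (.dec 0 7 (.dec 0 24 (.dec 2 28 (.dec 1 30 (.bit 3 5 (.sol 1 4512224257795 1538) (.sol 3 7809954030595 1282)) (.ref 2 0x13c06402c012807c034008)) (.ref 0x12008803801a002 0x7501c808403e018)) (.ref 0x3801a002 0x1e80e403e018)) (.ref 0x3801a002 0x3d01c8068030004)) (.ref 0x1600a803801a002 0xf4072018)) (.ref 2 0x7602c)) (.ref 0x3801a002 0xf4072013)) (.ref 1 0x59)) (.ref 0x3801a002 0x3d01c8068030013)) (.ref 0x28012001 0x20c0b2005)) (.ref 2 0x1e80e406e013))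 (.ref 0x140098010006001 0x11e07f02a80ec022001)) (.dec 3 6 (.dec 1 9 (.dec 2 19 (.dec 3 14 (.dec 0 0 (.dec 1 5 (.dec 3 18 (.dec 2 20 (.dec 3 12 (.dec 0 8 (.ref 2 0x110068032016006803000e) (.ref 1 5)) (.ref 0x3801a002 0x8803401900b0034018)) (.ref 0x5802a002 0x4401a00c805801a)) (.ref 0x140098010006002 0xcc02c)) (.ref 2 0xd006402c)) (.dec 2 0 (.dec 1 20 (.dec 0 3 (.dec 0 7 (.dec 3 8 (.dec 2 13 (.dec 3 4 (.ref 2 0xb0022002) (.ref 0x1800a002 0x340160028010002)) (.ref 0x1600a803801a002 0x10406802c00d0028010002)) (.ref 0x28012002 0x30)) (.ref 2 0x6802c0050020008002)) (.ref 2 0x58002)) (.dec 3 20 (.dec 0 8 (.dec 1 5 (.dec 2 15 (.dec 0 18 (.dec 3 25 (.dec 1 29 (.dec 2 31 (.bit 0 5 (.sol 3 11095604995075 50) (.sol 1 4499071969795 1958)) (.ref 0x8003e01c00d8028012002 0xc0052023)) (.ref 0x7803a01c00d8028012002 0x60023)) (.ref 0x1c00d8068032002 0x8803401900b003e01a)) (.ref 2 0xec058011)) (.ref 1 0xd0064031005002000e)) (.ref 2 0xd006402c)) (.ref 0x28012002 0x30)) (.ref 0x5802a002 0x2200d006402c00d0028010002)))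 (.ref 1 0))) (.ref 0x4001e002 0x36018808803401900b00340180070028010002)) (.ref 2 0xd806a031011006803201600680300160070028010002)) (.ref 2 0x30)) (.ref 1 0x10e08504081fc0ba05b02b8154012001))) (.ref 1 0x1fc0aa001)) (.ref 2 0)) (.ref 0x5802a002 0x4a824411a06b033818c08203d01c805c02600f))

set_option maxRecDepth 100000 in
theorem tab7_1 : (okTab B7_1 (levL B7_1.n0 B7_1.adj (B7_1.k - 1)) (levL B7_1.n0 B7_1.adj B7_1.k)
    (levL B7_1.n0 B7_1.adj (B7_1.k + 1))).all id = true := by decide +kernel

set_option maxRecDepth 100000 in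
theorem run7_1 : run B7_1 L11 T7_1 0 0 0 0 = true := by decide +kernel

theorem good7_1 : Good 7 3 0x1850c614b2 L11 :=
  ⟨B7_1, _, _, T7_1, rfl, rfl, rfl, okTab_sound B7_1 tab7_1, run7_1⟩

end Pool.Agent.RP5
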