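import Pool.Agent.Lib_MP_a77ffe_gt.D2_0
import Pool.Agent.Lib_MP_a77ffe_gt.D4_0
import Pool.Agent.Lib_MP_a77ffe_gt.D4_1
import Pool.Agent.Lib_MP_a77ffe_gt.D7_0
import Pool.Agent.Lib_MP_a77ffe_gt.D7_1
import Pool.Agent.Lib_MP_a77ffe_gt.D7_2
import Pool.Agent.Lib_MP_a77ffe_gt.D7_3
import Pool.Agent.Lib_MP_a77ffe_gt.D7_4
import Pool.Agent.Lib_MP_a77ffe_gt.D11_0
import Pool.Agent.Lib_MP_a77ffe_gt.D11_1
import Pool.Agent.Lib_MP_a77ffe_gt.D11_2
import Pool.Agent.Lib_MP_a77ffe_gt.D11_3
import Pool.Agent.Lib_MP_a77ffe_gt.D16_0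

/-!
The classification up to 22 vertices.
-/

namespace Pool.Agent.RP5

theorem cls4 : Cls 4 1 L4 :=
  Cls.step (n0 := 2) (k := 0) cls_two (by
    intro m hm
    simp only [List.mem_cons, List.not_mem_nil, or_false] at hm
    rw [hm]; exact good2_0)

theorem cls7 : Cls 7 2 L7 :=
  Cls.step (n0 := 4) (k := 1) cls4 (by
    intro m hm
    simp only [L4, List.mem_cons, List.not_mem_nil, or_false] at hm
    rcases hm with rfl | rfl
    · exact good4_0
    · exact good4_1
    )

theorem cls11 : Cls 11 3 L11 :=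
  Cls.step (n0 := 7) (k := 2) cls7 (by
    intro m hm
    simp only [L7, List.mem_cons, List.not_mem_nil, or_false] at hm
    rcases hm with rfl | rfl | rfl | rfl | rfl
    · exact good7_0
    · exact good7_1
    · exact good7_2
    · exact good7_3
    · exact good7_4
    )

theorem cls16 : Cls 16 4 L16 :=
  Cls.step (n0 := 11) (k := 3) cls11 (by
    intro m hm
    simp only [L11, List.mem_cons, List.not_mem_nil, or_false] at hm
    rcases hm with rfl | rfl | rfl | rfl
    · exact good11_0
    · exact good11_1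
    · exact good11_2
    · exact good11_3
    )

theorem cls22 : Cls 22 5 [] :=
  Cls.step (n0 := 16) (k := 4) cls16 (by
    intro m hm
    simp only [L16, List.mem_cons, List.not_mem_nil, or_false] at hm
    rw [hm]; exact good16_0)

/-- There is no signed complete graph on 22 vertices of index at least 5. -/
theorem not_ind_22 (e : ℕ → ℕ → Bool) (hsym : ∀ i j, e i j = e j i) : ¬ Ind 22 e 5 := by
  intro h
  obtain ⟨i, hi, -⟩ := cls22 e hsym h
  simp at hi

end Pool.Agent.RP5
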