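import Pool.Agent.Lib_MP_a77ffe_gt.Lists

/-!
Tables and search tree for the extension problem of one signed complete graph.
-/

namespace Pool.Agent.RP5

def B2_0 : Base where
  n0 := 2
  k := 1
  adj := 0
  lA := 1
  lB := 4
  lC := 2
  mA := 1
  mB := 0xf
  mC := 3
  LB := 0xc2040
  BA := 0xf
  BB := 0x99
  HA := 0
  HB := 0x8421
  EVB := 5
  AL := 5
  REP := 0x11
  EVF := 0x55

def T2_0 : Tr := (.bit 0 0 (.bit 0 1 (.bit 1 0 (.dec 1 3 (.sol 1 8241 0) (.ref 0x8002 0)) (.bit 1 1 (.sol 1 8496 0) (.sol 1 4146 2))) (.bit 1 0 (.bit 1 1 (.sol 1 12321 0) (.sol 1 12816 2)) (.bit 1 1 (.sol 0 12816 14) (.sol 1 12576 10)))) (.bit 0 1 (.bit 1 0 (.bit 1 1 (.sol 1 12576 0) (.sol 0 12816 2)) (.bit 1 1 (.sol 1 12816 14) (.sol 1 12321 10))) (.bit 1 0 (.bit 1 1 (.sol 1 4146 14) (.sol 1 8496 10)) (.dec 1 2 (.sol 1 8241 10) (.ref 0x6001 0)))))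

set_option maxRecDepth 100000 in
theorem tab2_0 : (okTab B2_0 (levL B2_0.n0 B2_0.adj (B2_0.k - 1)) (levL B2_0.n0 B2_0.adj B2_0.k)
    (levL B2_0.n0 B2_0.adj (B2_0.k + 1))).all id = true := by decide +kernel

set_option maxRecDepth 100000 in
theorem run2_0 : run B2_0 L4 T2_0 0 0 0 0 = true := by decide +kernel

theorem good2_0 : Good 2 1 0 L4 :=
  ⟨B2_0, _, _, T2_0, rfl, rfl, rfl, okTab_sound B2_0 tab2_0, run2_0⟩

end Pool.Agent.RP5
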