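import Pool.Agent.Lib_MP_a77ffe_gt.Alt

/-!
Isomorphisms (relabelling and switching) of signed complete graphs.
-/

namespace Pool.Agent.RP5

open Finset

/-- `e'` is obtained from `e` by relabelling and switching -/
def Iso (n : ℕ) (e e' : ℕ → ℕ → Bool) : Prop :=
  ∃ (π : ℕ → ℕ) (t : ℕ → Bool), (∀ i < n, π i < n) ∧ (∀ i < n, ∀ j < n, π i = π j → i = j) ∧
    ∀ i < n, ∀ j < n, i ≠ j → e' i j = xor (e (π i) (π j)) (xor (t i) (t j))

lemma Iso.refl (n : ℕ) (e : ℕ → ℕ → Bool) : Iso n e e :=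
  ⟨id, fun _ => false, fun _ h => h, fun _ _ _ _ h => h, fun i _ j _ _ => by simp⟩

lemma Iso.trans {n : ℕ} {e e' e'' : ℕ → ℕ → Bool} (h : Iso n e e') (h' : Iso n e' e'') :
    Iso n e e'' := by
  obtain ⟨π, t, h1, h2, h3⟩ := h
  obtain ⟨π', t', h1', h2', h3'⟩ := h'
  refine ⟨fun i => π (π' i), fun i => xor (t (π' i)) (t' i), fun i hi => h1 _ (h1' i hi), ?_, ?_⟩
  · intro i hi j hj hij
    exact h2' i hi j hj (h2 _ (h1' i hi) _ (h1' j hj) hij)
  · intro i hi j hj hij
    have hne : π' i ≠ π' j := fun h => hij (h2' i hi j hj h)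
    rw [h3' i hi j hj hij, h3 _ (h1' i hi) _ (h1' j hj) hne]
    dsimp only
    generalize e (π (π' i)) (π (π' j)) = a
    generalize t (π' i) = b
    generalize t (π' j) = c
    generalize t' i = d
    generalize t' j = f
    show (a ^^ (b ^^ c) ^^ (d ^^ f)) = (a ^^ ((b ^^ d) ^^ (c ^^ f)))
    clear h3 h3' hne
    cases a <;> cases b <;> cases c <;> cases d <;> cases f <;> rfl

/-- the induced map on lifts -/
def phi (π : ℕ → ℕ) (t : ℕ → Bool) (x : ℕ) : ℕ :=
  2 * π (x / 2) + (if t (x / 2) then 1 - x % 2 else x % 2)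

lemma phi_div (π : ℕ → ℕ) (t : ℕ → Bool) (x : ℕ) : phi π t x / 2 = π (x / 2) := by
  unfold phi; split_ifs <;> omega

lemma phi_mod (π : ℕ → ℕ) (t : ℕ → Bool) (x : ℕ) :
    phi π t x % 2 = if t (x / 2) then 1 - x % 2 else x % 2 := by
  unfold phi; split_ifs <;> omega

lemma phi_nu (π : ℕ → ℕ) (t : ℕ → Bool) (x : ℕ) : phi π t (nu x) = nu (phi π t x) := by
  have h1 := phi_div π t (nu x)
  have h2 := phi_mod π t (nu x)
  have h3 := phi_div π t x
  have h4 := phi_mod π t x
  have h5 := nu_div (phi π t x)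
  have h6 := nu_mod (phi π t x)
  rw [nu_div] at h1 h2
  rw [nu_mod] at h2
  split_ifs at h2 h4 <;> omega

lemma phi_inj {n : ℕ} {π : ℕ → ℕ} {t : ℕ → Bool} (h2 : ∀ i < n, ∀ j < n, π i = π j → i = j)
    {x y : ℕ} (hx : x < 2 * n) (hy : y < 2 * n) (h : phi π t x = phi π t y) : x = y := by
  have e1 := phi_div π t x
  have e2 := phi_div π t y
  rw [h, e2] at e1
  have e3 := h2 (x / 2) (by omega) (y / 2) (by omega) e1.symm
  have e4 := phi_mod π t x
  have e5 := phi_mod π t y
  rw [h, e5, e3] at e4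
  split_ifs at e4 <;> omega

lemma phi_lt {n : ℕ} {π : ℕ → ℕ} {t : ℕ → Bool} (h1 : ∀ i < n, π i < n)
    {x : ℕ} (hx : x < 2 * n) : phi π t x < 2 * n := by
  have e1 := phi_div π t x
  have := h1 (x / 2) (by omega)
  omega

lemma dec_par {a b c d : ℕ} {s t : Bool} (h1 : a % 2 = if s then 1 - c % 2 else c % 2)
    (h2 : b % 2 = if t then 1 - d % 2 else d % 2) :
    (decide ((a + b) % 2 = 1) ^^ (s ^^ t)) = decide ((c + d) % 2 = 1) := by
  cases s <;> cases t <;> rw [Bool.eq_iff_iff] <;> simp at h1 h2 ⊢ <;> omega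

/-- the index is invariant -/
theorem Iso.ind {n : ℕ} {e e' : ℕ → ℕ → Bool} {k : ℕ} (h : Iso n e e') (hi : Ind n e k) :
    Ind n e' k := by
  classical
  obtain ⟨π, t, h1, h2, h3⟩ := h
  obtain ⟨w, hw⟩ := hi
  set V := range (2 * n) with hV
  set φ := phi π t with hφ
  have hmem : ∀ x, x ∈ V ↔ x < 2 * n := fun x => Finset.mem_range
  have hmaps : ∀ x ∈ V, φ x ∈ V := fun x hx => by
    rw [hmem] at hx ⊢; exact phi_lt h1 hx
  have hinj : ∀ x ∈ V, ∀ y ∈ V, φ x = φ y → x = y := fun x hx y hy hxy => by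
    rw [hmem] at hx hy; exact phi_inj h2 hx hy hxy
  have hinjOn : Set.InjOn φ (V : Set ℕ) := fun x hx y hy hxy => hinj x hx y hy hxy
  have hsurj : Set.SurjOn φ (V : Set ℕ) (V : Set ℕ) :=
    Finset.surjOn_of_injOn_of_card_le φ (fun x hx => hmaps x hx) hinjOn le_rfl
  have hsub : ∀ R ⊆ V, R.image φ ⊆ V := by
    intro R hR y hy
    obtain ⟨x, hx, rfl⟩ := Finset.mem_image.mp hy
    exact hmaps x (hR hx)
  have hnus : ∀ R : Finset ℕ, (nus R).image φ = nus (R.image φ) := by
    intro R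
    unfold nus
    rw [Finset.image_image, Finset.image_image]
    congr 1
    funext x
    exact phi_nu π t x
  have hnV : ∀ R ⊆ V, nus R ⊆ V := by
    intro R hR x hx
    rw [mem_nus] at hx
    have := (hmem _).mp (hR hx)
    rw [hmem]
    have := nu_lt this
    rwa [nu_nu] at this
  refine ⟨fun j S => if S ⊆ V then w j (S.image φ) else 0, ?_, ?_, ?_⟩
  · intro j hj S hS
    by_cases hSV : S ⊆ V
    · rw [if_pos hSV] at hS
      obtain ⟨-, hc, hcard⟩ := hw.supp j hj _ hS
      refine ⟨hSV, ?_, ?_⟩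
      · intro x hx y hy hxy
        have hx' := hSV hx
        have hy' := hSV hy
        have hne : φ x ≠ φ y := fun h => hxy (hinj x hx' y hy' h)
        have := hc (φ x) (Finset.mem_image_of_mem _ hx) (φ y) (Finset.mem_image_of_mem _ hy) hne
        rw [hφ, phi_div, phi_div] at this
        obtain ⟨g1, g2⟩ := this
        have hne2 : x / 2 ≠ y / 2 := fun h => g1 (by rw [h])
        refine ⟨hne2, ?_⟩
        rw [hmem] at hx' hy'
        rw [h3 (x / 2) (by omega) (y / 2) (by omega) hne2, g2]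
        have e4 := phi_mod π t x
        have e5 := phi_mod π t y
        exact dec_par e4 e5
      · rw [← hcard, Finset.card_image_of_injOn]
        exact fun x hx y hy hxy => hinj x (hSV hx) y (hSV hy) hxy
    · rw [if_neg hSV] at hS; exact absurd rfl hS
  · have e1 : ∀ x ∈ V, (if ({x} : Finset ℕ) ⊆ V then w 0 (({x} : Finset ℕ).image φ) else 0)
        = w 0 {φ x} := by
      intro x hx
      rw [if_pos (by simpa using hx), Finset.image_singleton]
    rw [Finset.sum_congr rfl e1, ← hw.zero]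
    exact Finset.sum_nbij φ hmaps hinjOn hsurj (fun _ _ => rfl)
  · intro j hj R hR hne
    have e1 : ∀ x ∈ V \ R, (if insert x R ⊆ V then w (j + 1) ((insert x R).image φ) else 0)
        = w (j + 1) (insert (φ x) (R.image φ)) := by
      intro x hx
      rw [if_pos, Finset.image_insert]
      exact Finset.insert_subset (Finset.mem_sdiff.mp hx).1 hR
    rw [Finset.sum_congr rfl e1, if_pos hR, if_pos (hnV R hR), hnus,
      ← hw.step j hj _ (hsub R hR) (hne.image φ)]
    refine Finset.sum_nbij φ ?_ ?_ ?_ (fun _ _ => rfl)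
    · intro x hx
      rw [Finset.mem_sdiff] at hx ⊢
      refine ⟨hmaps x hx.1, fun h => hx.2 ?_⟩
      obtain ⟨y, hy, hxy⟩ := Finset.mem_image.mp h
      rw [← hinj y (hR hy) x hx.1 hxy]; exact hy
    · intro x hx y hy hxy
      exact hinj x (Finset.mem_sdiff.mp hx).1 y (Finset.mem_sdiff.mp hy).1 hxy
    · intro y hy
      rw [Finset.mem_coe, Finset.mem_sdiff] at hy
      obtain ⟨x, hx, rfl⟩ := hsurj hy.1
      refine ⟨x, ?_, rfl⟩
      rw [Finset.mem_coe, Finset.mem_sdiff]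
      exact ⟨hx, fun h => hy.2 (Finset.mem_image_of_mem _ h)⟩

end Pool.Agent.RP5
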