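import Pool.Agent.Lib_MP_a77ffe_gt.Classify

/-!
The lists of classified signed complete graphs (adjacency matrices as numbers).
-/

namespace Pool.Agent.RP5

def L2 : List ℕ := [0]

def L4 : List ℕ := [0x356, 0x12]

def L7 : List ℕ := [0x18d2a69238, 0x1850c614b2, 0x860e60caa, 0x82082caa6, 0x30a28a18]

def L11 : List ℕ := [0xf01501900800300d02e0922d0a926, 0x1dc1d01100500300f0640f0634cd2a, 0x1dc1d01100d00300f0640f2634cd2a, 0x1dc2883a00580280f0620f062cce2a]

def L16 : List ℕ := [0xf5068507ae002604b86877603a2011e8028400be018f062a07f4183699c52a]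

end Pool.Agent.RP5
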