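import Pool.Agent.Lib_MP_a77ffe_gt.Alt

/-!
The abstract refutation argument.
-/

namespace Pool.Agent.RP5

open Finset

/-- one more facet lemma -/
lemma sum_facet_ind {F S : Finset ℕ} (h : F.card + 1 = S.card) :
    ∑ x ∈ S, (if F = S.erase x then (1 : ZMod 2) else 0) = if F ⊆ S then 1 else 0 := by
  classical
  by_cases hF : F ⊆ S
  · rw [if_pos hF]
    have h1 : (S \ F).card = 1 := by rw [Finset.card_sdiff_of_subset hF]; omega
    obtain ⟨y, hy⟩ := Finset.card_eq_one.mp h1
    have hyS : y ∈ S ∧ y ∉ F := by
      have : y ∈ S \ F := by rw [hy]; simp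
      exact Finset.mem_sdiff.mp this
    have h2 : ∀ x ∈ S, (if F = S.erase x then (1 : ZMod 2) else 0) = if y = x then 1 else 0 := by
      intro x hx
      have : F = S.erase x ↔ y = x := by
        constructor
        · intro he
          by_contra hne
          apply hyS.2
          rw [he]
          exact Finset.mem_erase.mpr ⟨hne, hyS.1⟩
        · rintro rfl
          apply Finset.eq_of_subset_of_card_le
          · intro z hz
            exact Finset.mem_erase.mpr ⟨fun hzy => hyS.2 (hzy ▸ hz), hF hz⟩
          · rw [Finset.card_erase_of_mem hyS.1]; omega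
      simp [this]
    rw [Finset.sum_congr rfl h2, Finset.sum_ite_eq, if_pos hyS.1]
  · rw [if_neg hF]
    apply Finset.sum_eq_zero
    intro x _
    rw [if_neg]
    intro he
    exact hF (he ▸ Finset.erase_subset _ _)

/-- the upper lifts of the new vertices -/
def newP (n0 k : ℕ) : Finset ℕ := (range (k + 1)).image (fun a => 2 * (n0 + a))

lemma mem_newP {n0 k x : ℕ} : x ∈ newP n0 k ↔ ∃ a ≤ k, x = 2 * (n0 + a) := by
  unfold newP
  rw [Finset.mem_image]
  constructor
  · rintro ⟨a, ha, rfl⟩; exact ⟨a, by have := Finset.mem_range.mp ha; omega, rfl⟩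
  · rintro ⟨a, ha, rfl⟩; exact ⟨a, Finset.mem_range.mpr (by omega), rfl⟩

lemma nu_even {x : ℕ} (h : x % 2 = 0) : nu x = x + 1 := by unfold nu; rw [if_pos h]

lemma mem_nus_newP {n0 k x : ℕ} : x ∈ nus (newP n0 k) ↔ ∃ a ≤ k, x = 2 * (n0 + a) + 1 := by
  rw [mem_nus, mem_newP]
  constructor
  · rintro ⟨a, ha, h⟩
    refine ⟨a, ha, ?_⟩
    rw [← nu_nu x, h, nu_even (by omega)]
  · rintro ⟨a, ha, rfl⟩
    refine ⟨a, ha, ?_⟩
    unfold nu
    rw [if_neg (by omega)]; omega

lemma range_split (n0 k : ℕ) :
    range (2 * (n0 + (k + 1))) = range (2 * n0) ∪ newP n0 k ∪ nus (newP n0 k) := by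
  ext x
  rw [Finset.mem_union, Finset.mem_union, mem_newP, mem_nus_newP, Finset.mem_range,
    Finset.mem_range]
  constructor
  · intro h
    by_cases h1 : x < 2 * n0
    · exact Or.inl (Or.inl h1)
    · rcases Nat.mod_two_eq_zero_or_one x with h2 | h2
      · exact Or.inl (Or.inr ⟨x / 2 - n0, by omega, by omega⟩)
      · exact Or.inr ⟨x / 2 - n0, by omega, by omega⟩
  · rintro ((h | ⟨a, ha, rfl⟩) | ⟨a, ha, rfl⟩) <;> omega

/-- the section of the new vertex `a` -/
def sec (n0 : ℕ) (e : ℕ → ℕ → Bool) (a : ℕ) : Finset ℕ :=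
  (range (2 * n0)).filter (fun x => e (n0 + a) (x / 2) = decide (x % 2 = 1))

lemma mem_sec {n0 : ℕ} {e : ℕ → ℕ → Bool} {a x : ℕ} :
    x ∈ sec n0 e a ↔ x < 2 * n0 ∧ e (n0 + a) (x / 2) = decide (x % 2 = 1) := by
  unfold sec; rw [Finset.mem_filter, Finset.mem_range]

lemma sec_nu {n0 : ℕ} {e : ℕ → ℕ → Bool} {a x : ℕ} (hx : x < 2 * n0) :
    nu x ∈ sec n0 e a ↔ x ∉ sec n0 e a := by
  rw [mem_sec, mem_sec, nu_div, nu_mod]
  have h1 := nu_lt hx
  rcases Nat.mod_two_eq_zero_or_one x with h | h <;> cases e (n0 + a) (x / 2) <;>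
    simp [h, hx, h1]

lemma clq_sec {n0 : ℕ} {e : ℕ → ℕ → Bool} {S : Finset ℕ} (hS : Clq e S) {a : ℕ}
    (ha : 2 * (n0 + a) ∈ S) {T : Finset ℕ} (hT : T ⊆ S) (hT0 : T ⊆ range (2 * n0)) :
    T ⊆ sec n0 e a := by
  intro x hx
  have h1 := Finset.mem_range.mp (hT0 hx)
  rw [mem_sec]
  refine ⟨h1, ?_⟩
  have h2 := hS _ ha _ (hT hx) (by omega)
  have h3 : 2 * (n0 + a) / 2 = n0 + a := by omega
  rw [h3] at h2
  rw [h2.2]
  congr 1
  simp only [eq_iff_iff]
  omega

theorem refutation {n0 k : ℕ} {e : ℕ → ℕ → Bool} (hk : 0 < k)
    (new : ∀ a ≤ k, ∀ b ≤ k, a ≠ b → e (n0 + a) (n0 + b) = false)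
    (ind : Ind (n0 + (k + 1)) e k)
    {lA lB : ℕ} {TA TB : ℕ → Finset ℕ} (subA : ∀ j < lA, TA j ⊆ range (2 * n0))
    (cardA : ∀ j < lA, (TA j).card + 1 = k)
    (subB : ∀ q < lB, TB q ⊆ range (2 * n0)) (cardB : ∀ q < lB, (TB q).card = k)
    (complB : ∀ T ⊆ range (2 * n0), Clq e T → T.card = k → ∃ q < lB, TB q = T)
    (injB : ∀ q < lB, ∀ q' < lB, TB q = TB q' → q = q')
    (c0 : ℕ → ZMod 2) (c1 : ℕ → ℕ → ZMod 2)
    (ha : ∀ q < lB, ∀ q' < lB, Clq e (TB q) → TB q' = nus (TB q) → c0 q + c0 q' = alt (TB q))
    (hb : ∀ S ⊆ range (2 * n0), Clq e S → S.card = k + 1 →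
      ∑ i ∈ range lB, c0 i * (if TB i ⊆ S then 1 else 0) = 0)
    (hc : ∀ a ≤ k, ∀ q < lB, TB q ⊆ sec n0 e a →
      c0 q + ∑ j ∈ range lA, c1 a j * (if TA j ⊆ TB q then 1 else 0) = 0)
    (hd : ∀ a ≤ k, ∀ b ≤ k, a ≠ b → ∀ j < lA, TA j ⊆ sec n0 e a → TA j ⊆ sec n0 e b →
      c1 a j = c1 b j) : False := by
  classical
  obtain ⟨w, hw⟩ := ind
  obtain ⟨k', rfl⟩ : ∃ k', k = k' + 1 := ⟨k - 1, by omega⟩
  rw [range_split] at hw
  set V0 := range (2 * n0) with hV0def
  set P := newP n0 (k' + 1) with hP
  have hV0 : nus V0 = V0 := nus_range n0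
  have hd1 : Disjoint V0 P := by
    rw [Finset.disjoint_left]
    intro x hx hx2
    obtain ⟨a, _, rfl⟩ := mem_newP.mp hx2
    have := Finset.mem_range.mp hx
    omega
  have hd2 : Disjoint V0 (nus P) := by
    rw [Finset.disjoint_left]
    intro x hx hx2
    obtain ⟨a, _, rfl⟩ := mem_nus_newP.mp hx2
    have := Finset.mem_range.mp hx
    omega
  have hd3 : Disjoint P (nus P) := by
    rw [Finset.disjoint_left]
    intro x hx hx2
    obtain ⟨a, _, rfl⟩ := mem_nus_newP.mp hx2
    obtain ⟨b, _, h⟩ := mem_newP.mp hx
    omega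
  have hK : ∀ S, Clq e S → ∀ x ∈ P, ∀ y ∈ P, x ∈ S → nu y ∈ S → False := by
    intro S hS x hx y hy hxS hyS
    obtain ⟨a, ha', rfl⟩ := mem_newP.mp hx
    obtain ⟨b, hb', rfl⟩ := mem_newP.mp hy
    rw [nu_even (by omega)] at hyS
    have h1 := hS _ hxS _ hyS (by omega)
    have e1 : 2 * (n0 + a) / 2 = n0 + a := by omega
    have e2 : (2 * (n0 + b) + 1) / 2 = n0 + b := by omega
    rw [e1, e2] at h1
    have hab : a ≠ b := fun h => h1.1 (by rw [h])
    rw [new a ha' b hb' hab] at h1
    have h2 := h1.2
    have h3 : (2 * (n0 + a) + (2 * (n0 + b) + 1)) % 2 = 1 := by omega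
    rw [h3] at h2
    simp at h2
  obtain ⟨w', u, hw', hu1, hu2, hu3⟩ := removal hV0 hd1 hd2 hd3 hK (fun S h => h.nus)
    (fun S T h hT => h.subset hT) hw
  -- the cochain
  set γ : Finset ℕ → ZMod 2 := fun R =>
    ∑ i ∈ range lB, c0 i * (if TB i = R then 1 else 0)
    + ∑ a ∈ range (k' + 2), ∑ j ∈ range lA, c1 a j * (if insert (2 * (n0 + a)) (TA j) = R then 1 else 0)
    with hγ
  have hpa : ∀ a ≤ k' + 1, ∀ R ⊆ V0, 2 * (n0 + a) ∉ R := by
    intro a _ R hR h
    have := Finset.mem_range.mp (hR h)
    omega
  have hγV0 : ∀ R ⊆ V0, γ R = ∑ i ∈ range lB, c0 i * (if TB i = R then 1 else 0) := by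
    intro R hR
    rw [hγ]
    dsimp only
    rw [Finset.sum_eq_zero (s := range (k' + 2)), add_zero]
    intro a ha'
    apply Finset.sum_eq_zero
    intro j _
    rw [if_neg, mul_zero]
    intro h
    exact hpa a (by have := Finset.mem_range.mp ha'; omega) R hR (h ▸ Finset.mem_insert_self _ _)
  have hγTB : ∀ q < lB, γ (TB q) = c0 q := by
    intro q hq
    rw [hγV0 _ (subB q hq)]
    rw [Finset.sum_eq_single q]
    · simp
    · intro i hi hiq
      rw [if_neg, mul_zero]
      intro h
      exact hiq (injB i (Finset.mem_range.mp hi) q hq h)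
    · intro h
      exact absurd (Finset.mem_range.mpr hq) h
  -- left hand side
  have hL : ∑ R ∈ (V0 ∪ P).powerset, ∑ x ∈ (V0 ∪ P) \ R, γ R * u (insert x R) = 1 := by
    have h1 : ∀ R ∈ (V0 ∪ P).powerset, ∑ x ∈ (V0 ∪ P) \ R, γ R * u (insert x R)
        = if R ⊆ V0 then γ R * (w' k' R + w' k' (nus R)) else 0 := by
      intro R hR
      rw [Finset.mem_powerset] at hR
      rw [← Finset.mul_sum]
      by_cases hRV : R ⊆ V0
      · rw [if_pos hRV]
        by_cases hne : R.Nonempty
        · rw [hu3 R hRV hne]
        · rw [Finset.not_nonempty_iff_eq_empty] at hne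
          subst hne
          have : γ ∅ = 0 := by
            rw [hγV0 ∅ hRV]
            apply Finset.sum_eq_zero
            intro i hi
            rw [if_neg, mul_zero]
            intro h
            have := cardB i (Finset.mem_range.mp hi)
            rw [h] at this
            simp at this
          rw [this, zero_mul, zero_mul]
      · rw [if_neg hRV, hu2 R hR, mul_zero]
        by_contra hno
        apply hRV
        intro x hx
        rcases Finset.mem_union.mp (hR hx) with h | h
        · exact h
        · exact absurd ⟨x, hx, h⟩ hno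
    rw [Finset.sum_congr rfl h1, ← Finset.sum_filter]
    have h2 : (V0 ∪ P).powerset.filter (fun R => R ⊆ V0) = V0.powerset := by
      ext R
      rw [Finset.mem_filter, Finset.mem_powerset, Finset.mem_powerset]
      exact ⟨fun h => h.2, fun h => ⟨h.trans Finset.subset_union_left, h⟩⟩
    rw [h2]
    have h3 : ∑ R ∈ V0.powerset, γ R * (w' k' R + w' k' (nus R))
        = ∑ R ∈ V0.powerset, (γ R * w' k' R + γ (nus R) * w' k' R) := by
      rw [Finset.sum_add_distrib]
      have : ∑ R ∈ V0.powerset, γ (nus R) * w' k' R
          = ∑ R ∈ V0.powerset, γ R * w' k' (nus R) := by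
        rw [← sum_powerset_nus hV0]
        refine Finset.sum_congr rfl fun R _ => ?_
        rw [nus_nus]
      rw [this, ← Finset.sum_add_distrib]
      refine Finset.sum_congr rfl fun R _ => ?_
      ring
    rw [h3, ← hw'.alt_eval hV0 k' le_rfl]
    refine Finset.sum_congr rfl fun R hR => ?_
    by_cases h0 : w' k' R = 0
    · simp [h0]
    · obtain ⟨g1, g2, g3⟩ := hw'.supp k' le_rfl R h0
      obtain ⟨q, hq, rfl⟩ := complB R g1 g2 g3
      have g4 : nus (TB q) ⊆ V0 := by
        have := (nus_mem_powerset hV0 (S := TB q)).mpr (Finset.mem_powerset.mpr g1)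
        exact Finset.mem_powerset.mp this
      obtain ⟨q', hq', hqq⟩ := complB (nus (TB q)) g4 g2.nus (by rw [nus_card, g3])
      rw [← hqq, hγTB q hq, hγTB q' hq', ← add_mul, ha q hq q' hq' g2 hqq]
  -- right hand side
  have hR : ∑ S ∈ (V0 ∪ P).powerset, ∑ x ∈ S, γ (S.erase x) * u S = 0 := by
    apply Finset.sum_eq_zero
    intro S _
    rw [← Finset.sum_mul]
    by_cases h0 : u S = 0
    · rw [h0, mul_zero]
    · obtain ⟨g1, g2, g3⟩ := hu1 S h0
      have key : ∑ x ∈ S, γ (S.erase x) =
          ∑ i ∈ range lB, c0 i * (if TB i ⊆ S then 1 else 0)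
          + ∑ a ∈ range (k' + 2), ∑ j ∈ range lA,
            c1 a j * (if insert (2 * (n0 + a)) (TA j) ⊆ S then 1 else 0) := by
        rw [hγ]
        dsimp only
        rw [Finset.sum_add_distrib]
        congr 1
        · rw [Finset.sum_comm]
          refine Finset.sum_congr rfl fun i hi => ?_
          rw [← Finset.mul_sum, sum_facet_ind]
          rw [cardB i (Finset.mem_range.mp hi), g3]
        · rw [Finset.sum_comm]
          refine Finset.sum_congr rfl fun a ha' => ?_
          rw [Finset.sum_comm]
          refine Finset.sum_congr rfl fun j hj => ?_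
          rw [← Finset.mul_sum, sum_facet_ind]
          rw [Finset.card_insert_of_notMem, cardA j (Finset.mem_range.mp hj), g3]
          exact hpa a (by have := Finset.mem_range.mp ha'; omega) _
            (subA j (Finset.mem_range.mp hj))
      have hzero : ∑ x ∈ S, γ (S.erase x) = 0 := by
        rw [key]
        -- decompose S
        set T := S.filter (fun x => x < 2 * n0) with hT
        set Q := (range (k' + 2)).filter (fun a => 2 * (n0 + a) ∈ S) with hQ
        have hTV : T ⊆ V0 := by
          intro x hx
          rw [hT, Finset.mem_filter] at hx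
          exact Finset.mem_range.mpr hx.2
        have hTS : T ⊆ S := Finset.filter_subset _ _
        have hSeq : S = T ∪ Q.image (fun a => 2 * (n0 + a)) := by
          ext x
          rw [Finset.mem_union, Finset.mem_image]
          constructor
          · intro hx
            rcases Finset.mem_union.mp (g1 hx) with h | h
            · left; rw [hT, Finset.mem_filter]; exact ⟨hx, Finset.mem_range.mp h⟩
            · right
              obtain ⟨a, ha', rfl⟩ := mem_newP.mp h
              exact ⟨a, by rw [hQ, Finset.mem_filter]; exact ⟨Finset.mem_range.mpr (by omega), hx⟩, rfl⟩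
          · rintro (h | ⟨a, ha', rfl⟩)
            · exact hTS h
            · rw [hQ, Finset.mem_filter] at ha'; exact ha'.2
        have hcard : T.card + Q.card = k' + 2 := by
          rw [← g3]
          conv_rhs => rw [hSeq]
          rw [Finset.card_union_of_disjoint, Finset.card_image_of_injective]
          · intro a b hab
            simp only at hab
            omega
          · rw [Finset.disjoint_left]
            intro x hx hx2
            obtain ⟨a, _, rfl⟩ := Finset.mem_image.mp hx2
            have := Finset.mem_range.mp (hTV hx)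
            omega
        have hTBS : ∀ i < lB, TB i ⊆ S ↔ TB i ⊆ T := by
          intro i hi
          constructor
          · intro h x hx
            rw [hT, Finset.mem_filter]
            exact ⟨h hx, Finset.mem_range.mp (subB i hi hx)⟩
          · intro h; exact h.trans hTS
        have hTAS : ∀ j < lA, TA j ⊆ S ↔ TA j ⊆ T := by
          intro i hi
          constructor
          · intro h x hx
            rw [hT, Finset.mem_filter]
            exact ⟨h hx, Finset.mem_range.mp (subA i hi hx)⟩
          · intro h; exact h.trans hTS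
        have hsecT : ∀ a ∈ Q, T ⊆ sec n0 e a := by
          intro a ha'
          rw [hQ, Finset.mem_filter] at ha'
          exact clq_sec g2 ha'.2 hTS hTV
        have hQle : ∀ a ∈ Q, a ≤ k' + 1 := by
          intro a ha'
          rw [hQ, Finset.mem_filter, Finset.mem_range] at ha'; omega
        -- second sum
        have h2 : ∑ a ∈ range (k' + 2), ∑ j ∈ range lA,
            c1 a j * (if insert (2 * (n0 + a)) (TA j) ⊆ S then (1 : ZMod 2) else 0)
            = ∑ a ∈ Q, ∑ j ∈ range lA, c1 a j * (if TA j ⊆ T then 1 else 0) := by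
          rw [hQ, Finset.sum_filter]
          refine Finset.sum_congr rfl fun a _ => ?_
          by_cases haS : 2 * (n0 + a) ∈ S
          · rw [if_pos haS]
            refine Finset.sum_congr rfl fun j hj => ?_
            congr 1
            have := hTAS j (Finset.mem_range.mp hj)
            simp [Finset.insert_subset_iff, haS, this]
          · rw [if_neg haS]
            apply Finset.sum_eq_zero
            intro j _
            rw [if_neg, mul_zero]
            intro h
            exact haS (h (Finset.mem_insert_self _ _))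
        have h1 : ∑ i ∈ range lB, c0 i * (if TB i ⊆ S then (1 : ZMod 2) else 0)
            = ∑ i ∈ range lB, c0 i * (if TB i ⊆ T then (1 : ZMod 2) else 0) := by
          refine Finset.sum_congr rfl fun i hi => ?_
          simp [hTBS i (Finset.mem_range.mp hi)]
        rw [h2, h1]
        have hcases : Q.card = 0 ∨ Q.card = 1 ∨ Q.card = 2 ∨ 3 ≤ Q.card := by omega
        rcases hcases with hc0 | hc1 | hc2 | hc3
        · rw [Finset.card_eq_zero] at hc0
          rw [hc0, Finset.sum_empty, add_zero]
          have hST : S = T := by rw [hc0] at hSeq; simpa using hSeq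
          have := hb T hTV (g2.subset hTS) (by rw [hc0] at hcard; simpa using hcard)
          exact this
        · obtain ⟨a, hQa⟩ := Finset.card_eq_one.mp hc1
          rw [hQa, Finset.sum_singleton]
          have hTc : T.card = k' + 1 := by omega
          obtain ⟨q, hq, hqT⟩ := complB T hTV (g2.subset hTS) hTc
          have haQ : a ∈ Q := by rw [hQa]; simp
          have h3 := hc a (hQle a haQ) q hq (by rw [hqT]; exact hsecT a haQ)
          rw [hqT] at h3
          have h5 : ∑ i ∈ range lB, c0 i * (if TB i ⊆ T then (1 : ZMod 2) else 0) = c0 q := by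
            rw [Finset.sum_eq_single q]
            · rw [if_pos (by rw [hqT]), mul_one]
            · intro i hi hiq
              rw [if_neg, mul_zero]
              intro h
              apply hiq
              apply injB i (Finset.mem_range.mp hi) q hq
              rw [hqT]
              apply Finset.eq_of_subset_of_card_le h
              rw [hTc, cardB i (Finset.mem_range.mp hi)]
            · intro h
              exact absurd (Finset.mem_range.mpr hq) h
          rw [h5]
          exact h3
        · obtain ⟨a, b, hab, hQab⟩ := Finset.card_eq_two.mp hc2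
          rw [hQab, Finset.sum_pair hab]
          have hTc : T.card = k' := by omega
          have haQ : a ∈ Q := by rw [hQab]; simp
          have hbQ : b ∈ Q := by rw [hQab]; simp
          rw [Finset.sum_eq_zero, zero_add, ← Finset.sum_add_distrib]
          · apply Finset.sum_eq_zero
            intro j hj
            by_cases hjT : TA j ⊆ T
            · rw [if_pos hjT, mul_one, mul_one,
                hd a (hQle a haQ) b (hQle b hbQ) hab j (Finset.mem_range.mp hj)
                  (hjT.trans (hsecT a haQ)) (hjT.trans (hsecT b hbQ))]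
              exact zmod2_add_self _
            · rw [if_neg hjT]; simp
          · intro i hi
            rw [if_neg, mul_zero]
            intro h
            have := Finset.card_le_card h
            rw [cardB i (Finset.mem_range.mp hi), hTc] at this
            omega
        · rw [Finset.sum_eq_zero, zero_add]
          · apply Finset.sum_eq_zero
            intro a _
            apply Finset.sum_eq_zero
            intro j hj
            rw [if_neg, mul_zero]
            intro h
            have h4 := Finset.card_le_card h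
            have h5 := cardA j (Finset.mem_range.mp hj)
            omega
          · intro i hi
            rw [if_neg, mul_zero]
            intro h
            have := Finset.card_le_card h
            rw [cardB i (Finset.mem_range.mp hi)] at this
            omega
      rw [hzero, zero_mul]
  rw [sum_faces (V0 ∪ P) (fun R S => γ R * u S)] at hR
  rw [hL] at hR
  exact one_ne_zero hR

end Pool.Agent.RP5
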