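import Pool.Agent.Lib_MP_a77ffe_gt.Chain

namespace Pool.Agent.RP5

open Finset

section
variable {V0 P : Finset ℕ} {K : Finset ℕ → Prop}

lemma sum_nus (P : Finset ℕ) (f : ℕ → ZMod 2) : ∑ x ∈ nus P, f x = ∑ x ∈ P, f (nu x) := by
  unfold nus
  rw [Finset.sum_image]
  intro x _ y _ h
  exact nu_injective h

lemma split_sum (hd1 : Disjoint V0 P) (hd2 : Disjoint V0 (nus P)) (hd3 : Disjoint P (nus P))
    {R : Finset ℕ} (hR : R ⊆ V0) (f : ℕ → ZMod 2) :
    ∑ x ∈ (V0 ∪ P ∪ nus P) \ R, f x
      = ∑ x ∈ V0 \ R, f x + ∑ x ∈ P, f x + ∑ x ∈ P, f (nu x) := by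
  have h1 : (V0 ∪ P ∪ nus P) \ R = ((V0 \ R) ∪ P) ∪ nus P := by
    rw [Finset.union_sdiff_distrib, Finset.union_sdiff_distrib]
    congr 1
    · congr 1
      exact Finset.sdiff_eq_self_of_disjoint (Finset.disjoint_of_subset_right hR hd1.symm)
    · exact Finset.sdiff_eq_self_of_disjoint (Finset.disjoint_of_subset_right hR hd2.symm)
  rw [h1, Finset.sum_union, Finset.sum_union, sum_nus]
  · exact Finset.disjoint_of_subset_left Finset.sdiff_subset hd1
  · rw [Finset.disjoint_union_left]
    exact ⟨Finset.disjoint_of_subset_left Finset.sdiff_subset hd2, hd3⟩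

lemma split_sum' (hd1 : Disjoint V0 P) {R : Finset ℕ} (hR : R ⊆ V0) (f : ℕ → ZMod 2) :
    ∑ x ∈ (V0 ∪ P) \ R, f x = ∑ x ∈ V0 \ R, f x + ∑ x ∈ P, f x := by
  have h1 : (V0 ∪ P) \ R = (V0 \ R) ∪ P := by
    rw [Finset.union_sdiff_distrib]
    congr 1
    exact Finset.sdiff_eq_self_of_disjoint (Finset.disjoint_of_subset_right hR hd1.symm)
  rw [h1, Finset.sum_union]
  exact Finset.disjoint_of_subset_left Finset.sdiff_subset hd1

/-- the removal lemma together with the chain on the upper part -/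
theorem removal (hV0 : nus V0 = V0) (hd1 : Disjoint V0 P) (hd2 : Disjoint V0 (nus P))
    (hd3 : Disjoint P (nus P))
    (hK : ∀ S, K S → ∀ x ∈ P, ∀ y ∈ P, x ∈ S → nu y ∈ S → False)
    (hKn : ∀ S, K S → K (nus S)) (hKs : ∀ S T, K S → T ⊆ S → K T)
    {k : ℕ} {w : ℕ → Finset ℕ → ZMod 2} (h : IndSeq (V0 ∪ P ∪ nus P) K (k + 1) w) :
    ∃ (w' : ℕ → Finset ℕ → ZMod 2) (u : Finset ℕ → ZMod 2), IndSeq V0 K k w' ∧
      (∀ S, u S ≠ 0 → S ⊆ V0 ∪ P ∧ K S ∧ S.card = k + 2) ∧
      (∀ R ⊆ V0 ∪ P, (∃ x ∈ R, x ∈ P) → ∑ x ∈ (V0 ∪ P) \ R, u (insert x R) = 0) ∧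
      (∀ R ⊆ V0, R.Nonempty →
        ∑ x ∈ (V0 ∪ P) \ R, u (insert x R) = w' k R + w' k (nus R)) := by
  classical
  -- notation
  have hnP : ∀ x ∈ P, nu x ∈ nus P := fun x hx => by rw [mem_nus, nu_nu]; exact hx
  have hnV0 : ∀ R ⊆ V0, nus R ⊆ V0 := by
    intro R hR x hx
    rw [mem_nus] at hx
    rw [← hV0, mem_nus]
    exact hR hx
  have hPV : ∀ x ∈ P, x ∉ V0 := fun x hx hx0 => (Finset.disjoint_left.mp hd1) hx0 hx
  have hnPV : ∀ x ∈ P, nu x ∉ V0 := fun x hx hx0 =>
    (Finset.disjoint_left.mp hd2) hx0 (hnP x hx)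
  have hV0V : V0 ⊆ V0 ∪ P ∪ nus P := fun x hx => by simp [hx]
  have hUV : V0 ∪ P ⊆ V0 ∪ P ∪ nus P := Finset.subset_union_left
  -- sums over V0 after nu
  have hsumnu : ∀ R ⊆ V0, ∀ f : Finset ℕ → ZMod 2,
      ∑ y ∈ V0 \ R, f (nus (insert y R)) = ∑ y ∈ V0 \ nus R, f (insert y (nus R)) := by
    intro R hR f
    have : V0 \ nus R = nus (V0 \ R) := by
      ext x
      rw [mem_nus, Finset.mem_sdiff, Finset.mem_sdiff, mem_nus]
      constructor
      · rintro ⟨h1, h2⟩; exact ⟨by rw [← hV0, mem_nus, nu_nu]; exact h1, h2⟩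
      · rintro ⟨h1, h2⟩; exact ⟨by rw [← hV0, mem_nus]; exact h1, h2⟩
    rw [this, sum_nus]
    refine Finset.sum_congr rfl fun y _ => ?_
    rw [nus_insert]
  -- the boundary of `w j` at a set contained in V0
  have hbd : ∀ j < k + 1, ∀ R ⊆ V0, R.Nonempty →
      ∑ y ∈ V0 \ R, w (j + 1) (insert y R) = w j R + w j (nus R)
        + ∑ x ∈ P, w (j + 1) (insert x R) + ∑ x ∈ P, w (j + 1) (insert (nu x) R) := by
    intro j hj R hR hne
    have h1 := h.step j hj R (hR.trans hV0V) hne
    rw [split_sum hd1 hd2 hd3 hR (fun x => w (j + 1) (insert x R))] at h1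
    rw [← h1]
    generalize ∑ x ∈ V0 \ R, w (j + 1) (insert x R) = a
    generalize ∑ x ∈ P, w (j + 1) (insert x R) = b
    generalize ∑ x ∈ P, w (j + 1) (insert (nu x) R) = c
    have : a + b + c + b + c = a + (b + b) + (c + c) := by ring
    rw [this, zmod2_add_self, zmod2_add_self]; simp
  -- sum over P of boundaries
  have hPP : ∀ j ≤ k + 1, ∀ R ⊆ V0,
      ∑ x ∈ P, ∑ y ∈ V0 \ R, w j (insert y (insert x R))
        = ∑ x ∈ P, ∑ y ∈ (V0 ∪ P ∪ nus P) \ insert x R, w j (insert y (insert x R)) := by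
    intro j hj R hR
    have h1 : ∀ x ∈ P, ∑ y ∈ (V0 ∪ P ∪ nus P) \ insert x R, w j (insert y (insert x R))
        = ∑ y ∈ V0 \ R, w j (insert y (insert x R))
          + ∑ y ∈ P.erase x, w j (insert y (insert x R)) := by
      intro x hx
      have hxR : x ∉ R := fun hh => hPV x hx (hR hh)
      have h2 : (V0 ∪ P ∪ nus P) \ insert x R = ((V0 \ R) ∪ P.erase x) ∪ nus P := by
        ext y
        simp only [Finset.mem_sdiff, Finset.mem_union, Finset.mem_insert, Finset.mem_erase,
          not_or]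
        constructor
        · rintro ⟨(h1 | h1) | h1, h2, h3⟩
          · exact Or.inl (Or.inl ⟨h1, h3⟩)
          · exact Or.inl (Or.inr ⟨h2, h1⟩)
          · exact Or.inr h1
        · rintro ((⟨h1, h2⟩ | ⟨h1, h2⟩) | h1)
          · exact ⟨Or.inl (Or.inl h1), fun hh => hPV x hx (hh ▸ h1), h2⟩
          · exact ⟨Or.inl (Or.inr h2), h1, fun hh => hPV y h2 (hR hh)⟩
          · refine ⟨Or.inr h1, fun hh => ?_, fun hh => ?_⟩
            · exact (Finset.disjoint_left.mp hd3) hx (hh ▸ h1)
            · exact (Finset.disjoint_left.mp hd2) (hR hh) h1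
      rw [h2, Finset.sum_union, Finset.sum_union]
      · have h3 : ∑ y ∈ nus P, w j (insert y (insert x R)) = 0 := by
          rw [sum_nus]
          apply Finset.sum_eq_zero
          intro y hy
          by_contra hne
          obtain ⟨-, hKS, -⟩ := h.supp j hj _ hne
          exact hK _ hKS x hx y hy (by simp) (by simp)
        rw [h3, add_zero]
      · exact (Finset.disjoint_of_subset_left Finset.sdiff_subset hd1).mono_right
          (Finset.erase_subset _ _)
      · rw [Finset.disjoint_union_left]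
        exact ⟨Finset.disjoint_of_subset_left Finset.sdiff_subset hd2,
          Finset.disjoint_of_subset_left (Finset.erase_subset _ _) hd3⟩
    rw [Finset.sum_congr rfl h1, Finset.sum_add_distrib]
    have h4 : ∑ x ∈ P, ∑ y ∈ P.erase x, w j (insert y (insert x R)) = 0 :=
      sum_sum_symm_zero P (fun x y => w j (insert y (insert x R)))
        (fun x y => by rw [Finset.insert_comm])
    rw [h4, add_zero]
  let w' : ℕ → Finset ℕ → ZMod 2 := fun j R =>
    if R ⊆ V0 then ∑ x ∈ P, w (j + 1) (insert x R) + w j (nus R) else 0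
  have hw' : ∀ j, ∀ R ⊆ V0, w' j R = ∑ x ∈ P, w (j + 1) (insert x R) + w j (nus R) := by
    intro j R hR; simp only [w']; rw [if_pos hR]
  let u : Finset ℕ → ZMod 2 := fun S =>
    if S ⊆ V0 ∪ P then (if ∃ x ∈ S, x ∈ P then w (k + 1) S + w (k + 1) (nus S)
      else w (k + 1) (nus S)) else 0
  refine ⟨w', u, ⟨?_, ?_, ?_⟩, ?_, ?_, ?_⟩
  · -- support of w'
    intro j hj S hS
    by_cases hSV : S ⊆ V0
    · rw [hw' j S hSV] at hS
      refine ⟨hSV, ?_⟩
      by_cases h0 : w j (nus S) = 0
      · rw [h0, add_zero] at hS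
        obtain ⟨x, hx, hx0⟩ := Finset.exists_ne_zero_of_sum_ne_zero hS
        obtain ⟨-, h2, h3⟩ := h.supp (j + 1) (by omega) _ hx0
        have hxS : x ∉ S := fun hh => hPV x hx (hSV hh)
        rw [Finset.card_insert_of_notMem hxS] at h3
        exact ⟨hKs _ _ h2 (Finset.subset_insert _ _), by omega⟩
      · obtain ⟨-, h2, h3⟩ := h.supp j (by omega) _ h0
        rw [nus_card] at h3
        refine ⟨?_, h3⟩
        have := hKn _ h2
        rwa [nus_nus] at this
    · simp only [w'] at hS
      rw [if_neg hSV] at hS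
      exact absurd rfl hS
  · -- augmentation
    have h1 : ∀ y ∈ V0, w' 0 {y} = ∑ x ∈ P, w 1 (insert x {y}) + w 0 {nu y} := by
      intro y hy
      rw [hw' 0 {y} (by simpa using hy), nus_singleton]
    rw [Finset.sum_congr rfl h1, Finset.sum_add_distrib, Finset.sum_comm]
    have h2 := hPP 1 (by omega) ∅ (Finset.empty_subset _)
    rw [Finset.sdiff_empty] at h2
    have h3 : ∑ x ∈ P, ∑ y ∈ V0, w 1 (insert x {y}) = ∑ x ∈ P, ∑ y ∈ V0, w 1 (insert y (insert x ∅)) := by
      refine Finset.sum_congr rfl fun x _ => Finset.sum_congr rfl fun y _ => ?_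
      rw [Finset.insert_comm]; simp [Finset.pair_comm]
    rw [h3, h2]
    have h4 : ∀ x ∈ P, ∑ y ∈ (V0 ∪ P ∪ nus P) \ insert x ∅, w 1 (insert y (insert x ∅))
        = w 0 {x} + w 0 {nu x} := by
      intro x hx
      have := h.step 0 (by omega) {x} (by
        intro y hy; rw [Finset.mem_singleton] at hy; subst hy; simp [hx]) ⟨x, by simp⟩
      rw [nus_singleton] at this
      exact this
    rw [Finset.sum_congr rfl h4, Finset.sum_add_distrib]
    have h5 : ∑ y ∈ V0, w 0 {nu y} = ∑ y ∈ V0, w 0 {y} := by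
      rw [← sum_nus V0 (fun y => w 0 {y}), hV0]
    rw [h5]
    have h6 := h.zero
    rw [Finset.sum_union, Finset.sum_union hd1, sum_nus] at h6
    · rw [← h6]; ring
    · rw [Finset.disjoint_union_left]; exact ⟨hd2, hd3⟩
  · -- step
    intro j hj R hR hne
    have hnR := hnV0 R hR
    have h1 : ∀ y ∈ V0 \ R, w' (j + 1) (insert y R)
        = ∑ x ∈ P, w (j + 2) (insert x (insert y R)) + w (j + 1) (nus (insert y R)) := by
      intro y hy
      rw [Finset.mem_sdiff] at hy
      exact hw' (j + 1) _ (Finset.insert_subset hy.1 hR)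
    rw [Finset.sum_congr rfl h1, Finset.sum_add_distrib, Finset.sum_comm,
      hsumnu R hR (w (j + 1)), hbd j (by omega) (nus R) hnR (nus_nonempty hne), nus_nus]
    have h2 := hPP (j + 2) (by omega) R hR
    have h3 : ∑ x ∈ P, ∑ y ∈ V0 \ R, w (j + 2) (insert x (insert y R))
        = ∑ x ∈ P, ∑ y ∈ V0 \ R, w (j + 2) (insert y (insert x R)) := by
      refine Finset.sum_congr rfl fun x _ => Finset.sum_congr rfl fun y _ => ?_
      rw [Finset.insert_comm]
    have h4 : ∀ x ∈ P, ∑ y ∈ (V0 ∪ P ∪ nus P) \ insert x R, w (j + 2) (insert y (insert x R))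
        = w (j + 1) (insert x R) + w (j + 1) (insert (nu x) (nus R)) := by
      intro x hx
      have := h.step (j + 1) (by omega) (insert x R) (by
        apply Finset.insert_subset
        · simp [hx]
        · exact hR.trans hV0V) (Finset.insert_nonempty _ _)
      rw [nus_insert] at this
      exact this
    rw [h3, h2, Finset.sum_congr rfl h4, Finset.sum_add_distrib, hw' j R hR, hw' j _ hnR, nus_nus]
    generalize ∑ x ∈ P, w (j + 1) (insert x R) = a
    generalize ∑ x ∈ P, w (j + 1) (insert (nu x) (nus R)) = b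
    generalize ∑ x ∈ P, w (j + 1) (insert x (nus R)) = c
    have : a + b + (w j (nus R) + w j R + c + b) = a + w j (nus R) + (c + w j R) + (b + b) := by ring
    rw [this, zmod2_add_self, add_zero]
  · -- support of u
    intro S hS
    by_cases hSU : S ⊆ V0 ∪ P
    · refine ⟨hSU, ?_⟩
      have h0 : w (k + 1) S ≠ 0 ∨ w (k + 1) (nus S) ≠ 0 := by
        by_contra hcon
        push Not at hcon
        simp only [u] at hS
        rw [if_pos hSU] at hS
        split_ifs at hS
        · rw [hcon.1, hcon.2] at hS; exact hS (by simp)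
        · rw [hcon.2] at hS; exact hS rfl
      rcases h0 with h0 | h0
      · obtain ⟨-, h2, h3⟩ := h.supp (k + 1) le_rfl _ h0
        exact ⟨h2, h3⟩
      · obtain ⟨-, h2, h3⟩ := h.supp (k + 1) le_rfl _ h0
        rw [nus_card] at h3
        refine ⟨?_, h3⟩
        have := hKn _ h2
        rwa [nus_nus] at this
    · simp only [u] at hS
      rw [if_neg hSU] at hS
      exact absurd rfl hS
  · -- boundary of u at sets meeting P
    rintro R hR ⟨p, hpR, hpP⟩
    have h1 : ∀ y ∈ (V0 ∪ P) \ R, u (insert y R)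
        = w (k + 1) (insert y R) + w (k + 1) (nus (insert y R)) := by
      intro y hy
      rw [Finset.mem_sdiff] at hy
      simp only [u]
      rw [if_pos (Finset.insert_subset hy.1 hR),
        if_pos ⟨p, Finset.mem_insert_of_mem hpR, hpP⟩]
    rw [Finset.sum_congr rfl h1, Finset.sum_add_distrib]
    have hUd : Disjoint (V0 ∪ P) (nus P) := by
      rw [Finset.disjoint_union_left]; exact ⟨hd2, hd3⟩
    have hRd : Disjoint R (nus P) := Finset.disjoint_of_subset_left hR hUd
    -- first sum is the full boundary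
    have h2 : ∑ y ∈ (V0 ∪ P) \ R, w (k + 1) (insert y R) = w k R + w k (nus R) := by
      rw [← h.step k (by omega) R (hR.trans hUV) ⟨p, hpR⟩]
      rw [Finset.union_sdiff_distrib (V0 ∪ P), Finset.sdiff_eq_self_of_disjoint hRd.symm,
        Finset.sum_union (Finset.disjoint_of_subset_left Finset.sdiff_subset hUd), sum_nus]
      have : ∑ y ∈ P, w (k + 1) (insert (nu y) R) = 0 := by
        apply Finset.sum_eq_zero
        intro y hy
        by_contra hne
        obtain ⟨-, hKS, -⟩ := h.supp (k + 1) le_rfl _ hne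
        exact hK _ hKS p hpP y hy (Finset.mem_insert_of_mem hpR) (by simp)
      rw [this, add_zero]
    have h3 : ∑ y ∈ (V0 ∪ P) \ R, w (k + 1) (nus (insert y R)) = w k R + w k (nus R) := by
      have h4 := h.step k (by omega) (nus R) (by
        intro x hx
        rw [mem_nus] at hx
        have := hR hx
        rw [Finset.mem_union] at this
        rcases this with h5 | h5
        · have : x ∈ V0 := by rw [← hV0, mem_nus]; exact h5
          simp [this]
        · have : x ∈ nus P := by rw [mem_nus]; exact h5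
          simp [this]) (nus_nonempty ⟨p, hpR⟩)
      rw [nus_nus] at h4
      rw [add_comm (w k R), ← h4]
      have h5 : (V0 ∪ P ∪ nus P) \ nus R = nus ((V0 ∪ P) \ R) ∪ (P \ nus R) := by
        ext x
        simp only [Finset.mem_sdiff, Finset.mem_union, mem_nus]
        have e1 : nu x ∈ V0 ↔ x ∈ V0 := by rw [← mem_nus, hV0]
        rw [e1]
        tauto
      rw [h5, Finset.sum_union, sum_nus]
      · have : ∑ y ∈ P \ nus R, w (k + 1) (insert y (nus R)) = 0 := by
          apply Finset.sum_eq_zero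
          intro y hy
          rw [Finset.mem_sdiff] at hy
          by_contra hne
          obtain ⟨-, hKS, -⟩ := h.supp (k + 1) le_rfl _ hne
          refine hK _ hKS y hy.1 p hpP (by simp) ?_
          apply Finset.mem_insert_of_mem
          rw [mem_nus, nu_nu]; exact hpR
        rw [this, add_zero]
        refine Finset.sum_congr rfl fun y _ => ?_
        rw [nus_insert]
      · rw [Finset.disjoint_left]
        intro x hx hx2
        rw [mem_nus, Finset.mem_sdiff, Finset.mem_union] at hx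
        rw [Finset.mem_sdiff] at hx2
        rcases hx.1 with h6 | h6
        · exact hnPV x hx2.1 h6
        · exact (Finset.disjoint_left.mp hd3) h6 (hnP x hx2.1)
    rw [h2, h3]
    exact zmod2_add_self _
  · -- boundary of u at subsets of V0
    intro R hR hne
    have hnR := hnV0 R hR
    rw [split_sum' hd1 hR]
    have h1 : ∀ y ∈ V0 \ R, u (insert y R) = w (k + 1) (nus (insert y R)) := by
      intro y hy
      rw [Finset.mem_sdiff] at hy
      simp only [u]
      have hs : insert y R ⊆ V0 := Finset.insert_subset hy.1 hR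
      rw [if_pos (hs.trans Finset.subset_union_left), if_neg]
      rintro ⟨x, hx, hxP⟩
      exact hPV x hxP (hs hx)
    have h2 : ∀ x ∈ P, u (insert x R) = w (k + 1) (insert x R) + w (k + 1) (insert (nu x) (nus R)) := by
      intro x hx
      simp only [u]
      rw [if_pos, if_pos ⟨x, by simp, hx⟩, nus_insert]
      apply Finset.insert_subset
      · simp [hx]
      · exact hR.trans Finset.subset_union_left
    rw [Finset.sum_congr rfl h1, Finset.sum_congr rfl h2, hsumnu R hR (w (k + 1)),
      hbd k (by omega) (nus R) hnR (nus_nonempty hne), nus_nus, Finset.sum_add_distrib,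
      hw' k R hR, hw' k _ hnR, nus_nus]
    generalize ∑ x ∈ P, w (k + 1) (insert x R) = a
    generalize ∑ x ∈ P, w (k + 1) (insert (nu x) (nus R)) = b
    generalize ∑ x ∈ P, w (k + 1) (insert x (nus R)) = c
    have : w k (nus R) + w k R + c + b + (a + b) = a + w k (nus R) + (c + w k R) + (b + b) := by ring
    rw [this, zmod2_add_self, add_zero]

end

end Pool.Agent.RP5
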