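import Pool.Agent.Lib_MP_a77ffe_gt.Cert
import Pool.Agent.Lib_MP_a77ffe_gt.Iso

/-!
Soundness of the certificate checker: bits and loops.
-/

namespace Pool.Agent.RP5

open Finset

lemma tb_eq (m i : ℕ) : tb m i = m.testBit i := by
  unfold tb
  rw [Nat.testBit]
  show Nat.beq (m >>> i &&& 1) 1 = _
  rw [Nat.land_comm, Nat.one_and_eq_mod_two]
  rcases Nat.mod_two_eq_zero_or_one (m >>> i) with h | h <;> rw [h] <;> rfl

/-- Booleans as elements of the field with two elements -/
def bz (b : Bool) : ZMod 2 := if b then 1 else 0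

lemma bz_xor (a b : Bool) : bz (a ^^ b) = bz a + bz b := by
  cases a <;> cases b <;> decide

@[simp] lemma bz_true : bz true = 1 := rfl
@[simp] lemma bz_false : bz false = 0 := rfl

lemma cond_true_iff {a b : Bool} : cond a b false = true ↔ a = true ∧ b = true := by
  cases a <;> cases b <;> simp

lemma cond_false_iff {a b : Bool} : cond a false b = true ↔ a = false ∧ b = true := by
  cases a <;> cases b <;> simp

lemma beq_true {a b : ℕ} (h : Nat.beq a b = true) : a = b := Nat.eq_of_beq_eq_true h

theorem xorLoop_spec (col : ℕ → ℕ) (kont : ℕ → ℕ → Bool) (I : ℕ → ℕ → Prop)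
    (hstep : ∀ g acc p, p < 8192 → I g acc → I (g ^^^ 2 ^ p) (acc ^^^ col p)) (fuel : ℕ) :
    ∀ c g acc, xorLoop col kont fuel c g acc = true → I g acc →
    ∃ g' acc', I g' acc' ∧ kont g' acc' = true := by
  induction fuel with
  | zero =>
    intro c g acc h hI
    have h' : cond (Nat.beq c 0) (kont g acc) false = true := h
    rw [cond_true_iff] at h'
    exact ⟨g, acc, hI, h'.2⟩
  | succ n ih =>
    intro c g acc h hI
    have h' : cond (Nat.beq c 0) (kont g acc)
      (xorLoop col kont n (Nat.shiftRight c 13)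
        (Nat.xor g (Nat.pow 2 (Nat.pred (Nat.land c 8191))))
        (Nat.xor acc (col (Nat.pred (Nat.land c 8191))))) = true := h
    cases hc : Nat.beq c 0 with
    | true => rw [hc] at h'; exact ⟨g, acc, hI, h'⟩
    | false =>
      rw [hc] at h'
      refine ih _ _ _ h' (hstep _ _ _ ?_ hI)
      have : Nat.land c 8191 ≤ 8191 := Nat.and_le_right
      have h2 : Nat.pred (Nat.land c 8191) ≤ Nat.land c 8191 := Nat.pred_le _
      omega

/-- the linear invariant of the loop -/
def LinInv (N : ℕ) (col : ℕ → ℕ) (g y : ℕ) : Prop :=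
  ∀ r, bz (y.testBit r) = ∑ p ∈ range N, bz (g.testBit p) * bz ((col p).testBit r)

lemma LinInv.zero (N : ℕ) (col : ℕ → ℕ) : LinInv N col 0 0 := by
  intro r
  simp

lemma LinInv.step {N : ℕ} {col : ℕ → ℕ} {g y p : ℕ} (hp : p < N) (h : LinInv N col g y) :
    LinInv N col (g ^^^ 2 ^ p) (y ^^^ col p) := by
  intro r
  rw [Nat.testBit_xor, bz_xor, h r]
  have : ∀ q ∈ range N, bz ((g ^^^ 2 ^ p).testBit q) * bz ((col q).testBit r)
      = bz (g.testBit q) * bz ((col q).testBit r)
        + if p = q then bz ((col q).testBit r) else 0 := by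
    intro q _
    rw [Nat.testBit_xor, bz_xor, Nat.testBit_two_pow, add_mul]
    congr 1
    by_cases hpq : p = q
    · rw [if_pos hpq]; simp [hpq]
    · rw [if_neg hpq]; simp [hpq]
  rw [Finset.sum_congr rfl this, Finset.sum_add_distrib, Finset.sum_ite_eq,
    if_pos (Finset.mem_range.mpr hp)]

theorem xorLoop_lin {col : ℕ → ℕ} {kont : ℕ → ℕ → Bool} {fuel c : ℕ} {N : ℕ} (hN : 8192 ≤ N)
    (h : xorLoop col kont fuel c 0 0 = true) :
    ∃ g y, LinInv N col g y ∧ kont g y = true :=
  xorLoop_spec col kont (LinInv N col)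
    (fun _ _ _ hp hI => hI.step (lt_of_lt_of_le hp hN)) fuel c 0 0 h (LinInv.zero N col)

/-- repeated ones at distance `w` -/
def rep (w : ℕ) : ℕ → ℕ
  | 0 => 0
  | s + 1 => 2 ^ w * rep w s + 1

lemma testBit_mul_rep {w g : ℕ} (hg : g < 2 ^ w) (s : ℕ) : ∀ a q, q < w →
    (g * rep w s).testBit (a * w + q) = (decide (a < s) && g.testBit q) := by
  induction s with
  | zero => intro a q _; simp [rep]
  | succ s ih =>
    intro a q hq
    have e : g * rep w (s + 1) = 2 ^ w * (g * rep w s) + g := by simp only [rep]; ring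
    rw [e, Nat.testBit_two_pow_mul_add _ hg]
    cases a with
    | zero => simp [hq]
    | succ a =>
      have h1 : ¬ ((a + 1) * w + q < w) := by
        have : (a + 1) * w = a * w + w := by ring
        omega
      rw [if_neg h1]
      have h2 : (a + 1) * w + q - w = a * w + q := by
        have : (a + 1) * w = a * w + w := by ring
        omega
      rw [h2, ih a q hq]
      congr 1
      simp

lemma testBit_rep {w : ℕ} (hw : 0 < w) (s a q : ℕ) (hq : q < w) :
    (rep w s).testBit (a * w + q) = (decide (a < s) && decide (q = 0)) := by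
  have h1 : (1 : ℕ) < 2 ^ w := Nat.one_lt_two_pow (by omega)
  have := testBit_mul_rep h1 s a q hq
  rw [one_mul] at this
  rw [this]
  congr 1
  cases q with
  | zero => rfl
  | succ q => simp [Nat.testBit_succ]

/-- bits of a block -/
lemma testBit_block {M w : ℕ} (i q : ℕ) (hq : q < w) :
    ((M >>> (i * w)) &&& (2 ^ w - 1)).testBit q = M.testBit (i * w + q) := by
  rw [Nat.testBit_land, Nat.testBit_shiftRight, Nat.testBit_two_pow_sub_one]
  simp [hq]

/-- bits of a shifted block -/
lemma testBit_shift_block {M w : ℕ} (i c a q : ℕ) (hq : q < w) :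
    (((M >>> (i * w)) &&& (2 ^ w - 1)) <<< (c * w)).testBit (a * w + q)
      = (decide (c = a) && M.testBit (i * w + q)) := by
  rw [Nat.testBit_shiftLeft]
  rcases lt_trichotomy c a with h | h | h
  · obtain ⟨d, rfl⟩ := Nat.exists_eq_add_of_lt h
    have h1 : (c + d + 1) * w + q - c * w = w + (d * w + q) := by
      have : (c + d + 1) * w = c * w + w + d * w := by ring
      omega
    have h2 : ¬ (c = c + d + 1) := by omega
    rw [h1, Nat.testBit_land, Nat.testBit_two_pow_sub_one]
    simp [h2]
  · subst h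
    have h1 : c * w + q - c * w = q := by omega
    rw [h1, testBit_block i q hq]
    simp
  · have h1 : ¬ (a * w + q ≥ c * w) := by
      have : (a + 1) * w ≤ c * w := Nat.mul_le_mul_right w h
      have h3 : (a + 1) * w = a * w + w := by ring
      omega
    have h2 : ¬ (c = a) := by omega
    simp [h1, h2]

end Pool.Agent.RP5
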