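import Pool.Agent.Lib_MP_a77ffe_gt.Sound1
import Pool.Agent.Lib_MP_a77ffe_gt.Refute

/-!
Soundness of the certificate checker: the meaning of the tables and of the states.
-/

namespace Pool.Agent.RP5

open Finset

/-- the signed complete graph coded by `m` -/
def symE (n m : ℕ) (i j : ℕ) : Bool := m.testBit (min i j * n + max i j)

lemma symE_comm (n m i j : ℕ) : symE n m i j = symE n m j i := by
  unfold symE; rw [min_comm, max_comm]

/-- entry `i` of the clique with index `q` -/
def lbE (B : Base) (q i : ℕ) : ℕ := (B.LB >>> (q * (6 * B.k) + 6 * i)) &&& 63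

/-- the clique with index `q` -/
def cl (B : Base) (q : ℕ) : Finset ℕ := (range B.k).image (lbE B q)

/-- the tables are correct -/
structure Tab (B : Base) (TA TC : ℕ → Finset ℕ) : Prop where
  hk : 0 < B.k
  lApos : 0 < B.lA
  mA : B.mA = 2 ^ B.lA - 1
  mB : B.mB = 2 ^ B.lB - 1
  mC : B.mC = 2 ^ B.lC - 1
  adjsym : ∀ i < B.n0, ∀ j < B.n0, i ≠ j → B.adj.testBit (i * B.n0 + j) = symE B.n0 B.adj i j
  subA : ∀ j < B.lA, TA j ⊆ range (2 * B.n0)
  cardA : ∀ j < B.lA, (TA j).card + 1 = B.k
  subB : ∀ q < B.lB, cl B q ⊆ range (2 * B.n0)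
  cardB : ∀ q < B.lB, (cl B q).card = B.k
  complB : ∀ T ⊆ range (2 * B.n0), Clq (symE B.n0 B.adj) T → T.card = B.k →
    ∃ q < B.lB, cl B q = T
  injB : ∀ q < B.lB, ∀ q' < B.lB, cl B q = cl B q' → q = q'
  complC : ∀ T ⊆ range (2 * B.n0), Clq (symE B.n0 B.adj) T → T.card = B.k + 1 →
    ∃ q < B.lC, TC q = T
  incA : ∀ j < B.lA, ∀ q < B.lB, B.BA.testBit (j * B.lB + q) = decide (TA j ⊆ cl B q)
  incB : ∀ i < B.lB, ∀ r < B.lC, B.BB.testBit (i * B.lC + r) = decide (cl B i ⊆ TC r)
  hasA : ∀ x < 2 * B.n0, ∀ j < B.lA, B.HA.testBit (x * B.lA + j) = decide (x ∈ TA j)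
  hasB : ∀ x < 2 * B.n0, ∀ q < B.lB, B.HB.testBit (x * B.lB + q) = decide (x ∈ cl B q)
  opp : ∀ q < B.lB, q % 2 = 0 → q + 1 < B.lB ∧ cl B (q + 1) = nus (cl B q)
  ev : ∀ q < B.lB, q % 2 = 0 → B.EVB.testBit q = true
  al : ∀ q < B.lB, q % 2 = 0 → bz (B.AL.testBit q) = alt (cl B q)
  rep : B.REP = rep B.lB (B.k + 1)
  evf : ∀ a ≤ B.k, ∀ v < B.n0, B.EVF.testBit (a * (2 * B.n0) + 2 * v) = true

/-- `e` is an extension of the base -/
structure Ext (B : Base) (e : ℕ → ℕ → Bool) : Prop where
  sym : ∀ i j, e i j = e j i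
  base : ∀ i < B.n0, ∀ j < B.n0, i ≠ j → e i j = symE B.n0 B.adj i j
  new : ∀ a ≤ B.k, ∀ b ≤ B.k, a ≠ b → e (B.n0 + a) (B.n0 + b) = false
  ind : Ind (B.n0 + (B.k + 1)) e B.k

/-- meaning of the state -/
structure Sem (B : Base) (TA : ℕ → Finset ℕ) (e : ℕ → ℕ → Bool) (F E D : ℕ) : Prop where
  hF : ∀ a ≤ B.k, ∀ x < 2 * B.n0, F.testBit (a * (2 * B.n0) + x) = true → x ∉ sec B.n0 e a
  hE : ∀ a ≤ B.k, ∀ j < B.lA, E.testBit (a * B.lA + j) = true → ¬ TA j ⊆ sec B.n0 e a
  hD : ∀ a ≤ B.k, ∀ q < B.lB, D.testBit (a * B.lB + q) = true → ¬ cl B q ⊆ sec B.n0 e a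

lemma clq_congr {n : ℕ} {e e' : ℕ → ℕ → Bool} (h : ∀ i < n, ∀ j < n, i ≠ j → e i j = e' i j)
    {S : Finset ℕ} (hS : S ⊆ range (2 * n)) (hc : Clq e S) : Clq e' S := by
  intro x hx y hy hxy
  have h1 := hc x hx y hy hxy
  have h2 := Finset.mem_range.mp (hS hx)
  have h3 := Finset.mem_range.mp (hS hy)
  rw [← h (x / 2) (by omega) (y / 2) (by omega) h1.1]
  exact h1

lemma testBit_colA {B : Base} {TA TC : ℕ → Finset ℕ} (T : Tab B TA TC) (p a q : ℕ)
    (hq : q < B.lB) : (colA B p).testBit (a * B.lB + q)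
      = (decide (p / B.lA = a) && B.BA.testBit ((p % B.lA) * B.lB + q)) := by
  have : colA B p = ((B.BA >>> ((p % B.lA) * B.lB)) &&& (2 ^ B.lB - 1)) <<< ((p / B.lA) * B.lB) := by
    rw [← T.mB]; rfl
  rw [this, testBit_shift_block _ _ _ _ hq]

lemma testBit_colB {B : Base} {TA TC : ℕ → Finset ℕ} (T : Tab B TA TC) (p r : ℕ)
    (hr : r < B.lC) : (colB B p).testBit r = B.BB.testBit (p * B.lC + r) := by
  have : colB B p = ((B.BB >>> (p * B.lC)) &&& (2 ^ B.lC - 1)) := by
    rw [← T.mC]; rfl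
  rw [this, testBit_block _ _ hr]

lemma testBit_of_lor_eq {X D : ℕ} (h : X ||| D = D) {p : ℕ} (hp : D.testBit p = false) :
    X.testBit p = false := by
  have := congrArg (fun m => m.testBit p) h
  simp only [Nat.testBit_lor, hp, Bool.or_false] at this
  exact this

lemma chkPairs_spec {B : Base} {E G : ℕ} : ∀ m, chkPairs B E G m = true →
    ∀ d, 1 ≤ d → d ≤ m → chkPair B E G d = true := by
  intro m
  induction m with
  | zero => intro _ d h1 h2; omega
  | succ m ih =>
    intro h d h1 h2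
    have h' : cond (chkPair B E G (Nat.succ m)) (chkPairs B E G m) false = true := h
    rw [cond_true_iff] at h'
    rcases Nat.lt_or_ge m d with h3 | h3
    · have : d = m + 1 := by omega
      rw [this]; exact h'.1
    · exact ih h'.2 d h1 h3

lemma chkPair_spec {B : Base} {E G d : ℕ} (h : chkPair B E G d = true) {a j : ℕ}
    (had : a + d ≤ B.k) (hj : j < B.lA)
    (h1 : E.testBit (a * B.lA + j) = false) (h2 : E.testBit ((a + d) * B.lA + j) = false) :
    G.testBit (a * B.lA + j) = G.testBit ((a + d) * B.lA + j) := by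
  have h' : Nat.beq (((G ^^^ (G >>> (d * B.lA))) &&& (2 ^ ((B.k + 1 - d) * B.lA) - 1))
    ||| (E ||| (E >>> (d * B.lA)))) (E ||| (E >>> (d * B.lA))) = true := h
  have h3 := beq_true h'
  have e1 : d * B.lA + (a * B.lA + j) = (a + d) * B.lA + j := by ring
  have h4 := testBit_of_lor_eq (p := a * B.lA + j) h3 (by
    rw [Nat.testBit_lor, Nat.testBit_shiftRight, e1, h1, h2]; rfl)
  rw [Nat.testBit_land, Nat.testBit_xor, Nat.testBit_shiftRight, e1,
    Nat.testBit_two_pow_sub_one] at h4
  have h5 : a * B.lA + j < (B.k + 1 - d) * B.lA := by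
    have : (a + 1) * B.lA ≤ (B.k + 1 - d) * B.lA := Nat.mul_le_mul_right _ (by omega)
    have h6 : (a + 1) * B.lA = a * B.lA + B.lA := by ring
    omega
  rw [decide_eq_true h5, Bool.and_true] at h4
  cases h7 : G.testBit (a * B.lA + j) <;> cases h8 : G.testBit ((a + d) * B.lA + j) <;>
    simp_all

/-- **Soundness of the refutation certificates.** -/
theorem refute_sound {B : Base} {TA TC : ℕ → Finset ℕ} (T : Tab B TA TC)
    {e : ℕ → ℕ → Bool} (X : Ext B e) {F E D : ℕ} (S : Sem B TA e F E D) {c0 c1 : ℕ}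
    (h : refute B E D c0 c1 = true) : False := by
  obtain ⟨g0, z, I0, h0⟩ := xorLoop_lin (N := 8192 + B.lB) (by omega) h
  have h0' : cond (Nat.beq z 0)
      (cond (Nat.beq (Nat.land (Nat.xor g0 (Nat.shiftRight g0 1)) B.EVB) B.AL)
        (cond (Nat.beq (Nat.shiftRight g0 B.lB) 0)
          (xorLoop (colA B) (fun G y =>
            cond (Nat.beq (Nat.lor (Nat.xor y (Nat.mul g0 B.REP)) D) D)
              (chkPairs B E G B.k) false) 128 c1 0 0)
          false) false) false = true := h0
  rw [cond_true_iff, cond_true_iff, cond_true_iff] at h0'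
  obtain ⟨hz, hal, hsh, h1⟩ := h0'
  obtain ⟨G, y, I1, h1⟩ := xorLoop_lin (N := 8192 + (B.k + 1) * B.lA) (by omega) h1
  have h1' : cond (Nat.beq (Nat.lor (Nat.xor y (Nat.mul g0 B.REP)) D) D)
              (chkPairs B E G B.k) false = true := h1
  rw [cond_true_iff] at h1'
  obtain ⟨hy, hpairs⟩ := h1'
  have hz := beq_true hz
  have hal : (g0 ^^^ (g0 >>> 1)) &&& B.EVB = B.AL := beq_true hal
  have hsh : g0 >>> B.lB = 0 := beq_true hsh
  have hy : (y ^^^ (g0 * B.REP)) ||| D = D := beq_true hy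
  have hg0 : ∀ p, B.lB ≤ p → g0.testBit p = false := by
    intro p hp
    have : g0.testBit (B.lB + (p - B.lB)) = false := by
      rw [← Nat.testBit_shiftRight, hsh, Nat.zero_testBit]
    rwa [Nat.add_sub_cancel' hp] at this
  have hg0lt : g0 < 2 ^ B.lB := Nat.lt_pow_two_of_testBit g0 hg0
  have hbase : ∀ i < B.n0, ∀ j < B.n0, i ≠ j → symE B.n0 B.adj i j = e i j :=
    fun i hi j hj hij => (X.base i hi j hj hij).symm
  refine refutation T.hk X.new X.ind T.subA T.cardA T.subB T.cardB ?_ T.injB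
    (fun i => bz (g0.testBit i)) (fun a j => bz (G.testBit (a * B.lA + j))) ?_ ?_ ?_ ?_
  · intro T' hT hc hcard
    exact T.complB T' hT (clq_congr X.base hT hc) hcard
  · -- alternation
    have key : ∀ q < B.lB, q % 2 = 0 →
        bz (g0.testBit q) + bz (g0.testBit (q + 1)) = alt (cl B q) := by
      intro q hq hq2
      rw [← T.al q hq hq2, ← hal, Nat.testBit_land, T.ev q hq hq2, Bool.and_true,
        Nat.testBit_xor, Nat.testBit_shiftRight, bz_xor, add_comm 1 q]
    intro q hq q' hq' hcq hqq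
    by_cases hq2 : q % 2 = 0
    · have h3 := T.opp q hq hq2
      have h4 : q' = q + 1 := T.injB q' hq' (q + 1) h3.1 (by rw [hqq, h3.2])
      rw [h4]; exact key q hq hq2
    · have h3 := T.opp (q - 1) (by omega) (by omega)
      have e1 : q - 1 + 1 = q := by omega
      rw [e1] at h3
      have h4 : q' = q - 1 := T.injB q' hq' (q - 1) (by omega) (by rw [hqq, h3.2, nus_nus])
      have h5 := key (q - 1) (by omega) (by omega)
      rw [e1] at h5
      rw [h4, add_comm, h5, ← hqq.symm.trans (congrArg (cl B) h4)]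
      exact alt_nus (fun x hx y hy hxy => (hcq x hx y hy hxy).1)
  · intro S' hS hc hcard
    obtain ⟨r, hr, rfl⟩ := T.complC S' hS (clq_congr X.base hS hc) hcard
    have h2 := I0 r
    rw [hz, Nat.zero_testBit, bz_false] at h2
    refine Eq.trans ?_ h2.symm
    have hsub : range B.lB ⊆ range (8192 + B.lB) := by
      intro x hx; rw [Finset.mem_range] at hx ⊢; omega
    rw [← Finset.sum_subset hsub]
    · refine Finset.sum_congr rfl fun i hi => ?_
      congr 1
      rw [testBit_colB T i r hr, T.incB i (Finset.mem_range.mp hi) r hr]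
      unfold bz
      simp only [decide_eq_true_eq]
    · intro p _ hp2
      rw [Finset.mem_range, not_lt] at hp2
      rw [hg0 p hp2, bz_false, zero_mul]
  · intro a ha q hq hsec
    have hDq : D.testBit (a * B.lB + q) = false := by
      by_contra hcon
      exact S.hD a ha q hq (by simpa using hcon) hsec
    have h2 := testBit_of_lor_eq hy hDq
    rw [Nat.testBit_xor, T.rep, testBit_mul_rep hg0lt _ _ _ hq, decide_eq_true (by omega : a < B.k + 1),
      Bool.true_and] at h2
    have h3 : bz (y.testBit (a * B.lB + q)) + bz (g0.testBit q) = 0 := by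
      rw [← bz_xor, h2, bz_false]
    rw [I1 (a * B.lB + q)] at h3
    refine Eq.trans ?_ h3
    rw [add_comm]
    congr 1
    -- restrict the sum to the block of `a`
    have hsub : (range B.lA).image (fun j => a * B.lA + j) ⊆ range (8192 + (B.k + 1) * B.lA) := by
      intro x hx
      obtain ⟨j, hj, rfl⟩ := Finset.mem_image.mp hx
      rw [Finset.mem_range] at hj ⊢
      have h4 : (a + 1) * B.lA ≤ (B.k + 1) * B.lA := Nat.mul_le_mul_right _ (by omega)
      have h5 : (a + 1) * B.lA = a * B.lA + B.lA := by ring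
      omega
    rw [← Finset.sum_subset hsub, Finset.sum_image]
    · refine Finset.sum_congr rfl fun j hj => ?_
      have hj' := Finset.mem_range.mp hj
      congr 1
      have e1 : (a * B.lA + j) / B.lA = a := by
        rw [mul_comm, Nat.mul_add_div (by omega), Nat.div_eq_of_lt hj', add_zero]
      have e2 : (a * B.lA + j) % B.lA = j := by
        rw [mul_comm, Nat.mul_add_mod, Nat.mod_eq_of_lt hj']
      rw [testBit_colA T _ _ _ hq, e1, e2, T.incA j hj' q hq, decide_eq_true rfl, Bool.true_and]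
      unfold bz
      simp only [decide_eq_true_eq]
    · intro x _ y _ hxy
      simp only at hxy
      omega
    · intro p _ hp2
      rw [testBit_colA T _ _ _ hq]
      have : ¬ (p / B.lA = a) := by
        intro hpa
        apply hp2
        rw [Finset.mem_image]
        refine ⟨p % B.lA, Finset.mem_range.mpr (Nat.mod_lt _ T.lApos), ?_⟩
        have := Nat.div_add_mod p B.lA
        rw [hpa, mul_comm] at this
        exact this
      simp [this]
  · intro a ha b hb hab j hj hsa hsb
    have hEa : E.testBit (a * B.lA + j) = false := by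
      by_contra hcon
      exact S.hE a ha j hj (by simpa using hcon) hsa
    have hEb : E.testBit (b * B.lA + j) = false := by
      by_contra hcon
      exact S.hE b hb j hj (by simpa using hcon) hsb
    congr 1
    rcases lt_or_gt_of_ne hab with hlt | hlt
    · obtain ⟨d, rfl⟩ := Nat.exists_eq_add_of_lt hlt
      exact chkPair_spec (chkPairs_spec B.k hpairs (d + 1) (by omega) (by omega)) hb hj hEa hEb
    · obtain ⟨d, rfl⟩ := Nat.exists_eq_add_of_lt hlt
      exact (chkPair_spec (chkPairs_spec B.k hpairs (d + 1) (by omega) (by omega)) ha hj hEb hEa).symm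

end Pool.Agent.RP5
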