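import Pool.Agent.Lib_MP_a77ffe_gt.Sound2

/-!
Soundness of the certificate checker: the search tree.
-/

namespace Pool.Agent.RP5

open Finset

lemma block_inj {w a a' x x' : ℕ} (hx : x < w) (hx' : x' < w) (h : a * w + x = a' * w + x') :
    a = a' ∧ x = x' := by
  have h1 : (a * w + x) / w = a := by
    rw [mul_comm, Nat.mul_add_div (by omega), Nat.div_eq_of_lt hx, add_zero]
  have h2 : (a' * w + x') / w = a' := by
    rw [mul_comm, Nat.mul_add_div (by omega), Nat.div_eq_of_lt hx', add_zero]
  have h3 : a = a' := by rw [← h1, ← h2, h]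
  subst h3
  exact ⟨rfl, by omega⟩

lemma xor_one_eq_nu (x : ℕ) : Nat.xor x 1 = nu x := by
  show x ^^^ 1 = nu x
  unfold nu
  rcases Nat.mod_two_eq_zero_or_one x with h | h
  · rw [if_pos h, Nat.xor_one_of_even (Nat.even_iff.mpr h)]
  · rw [if_neg (by omega), Nat.xor_one_of_odd (Nat.odd_iff.mpr h)]

theorem killX_spec {B : Base} {TA TC : ℕ → Finset ℕ} (T : Tab B TA TC)
    {e : ℕ → ℕ → Bool} {F E D a x : ℕ} (S : Sem B TA e F E D)
    {kont : ℕ → ℕ → ℕ → Bool} (hx : x < 2 * B.n0) (hs : x ∉ sec B.n0 e a)
    (h : killX B a kont F E D x = true) :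
    ∃ F' E' D', Sem B TA e F' E' D' ∧ kont F' E' D' = true := by
  refine ⟨_, _, _, ⟨?_, ?_, ?_⟩, h⟩
  · intro a' ha' x' hx' hb
    have hb' : (F ||| 2 ^ (a * (2 * B.n0) + x)).testBit (a' * (2 * B.n0) + x') = true := hb
    rw [Nat.testBit_lor, Nat.testBit_two_pow, Bool.or_eq_true] at hb'
    rcases hb' with hb' | hb'
    · exact S.hF a' ha' x' hx' hb'
    · obtain ⟨rfl, rfl⟩ := block_inj hx hx' (of_decide_eq_true hb')
      exact hs
  · intro a' ha' j hj hb
    have hb' : (E ||| ((B.HA >>> (x * B.lA)) &&& B.mA) <<< (a * B.lA)).testBit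
      (a' * B.lA + j) = true := hb
    rw [T.mA, Nat.testBit_lor, testBit_shift_block _ _ _ _ hj, Bool.or_eq_true, Bool.and_eq_true,
      T.hasA x hx j hj] at hb'
    rcases hb' with hb' | ⟨hb', hb''⟩
    · exact S.hE a' ha' j hj hb'
    · have h1 := of_decide_eq_true hb'
      subst h1
      intro hsub
      exact hs (hsub (of_decide_eq_true hb''))
  · intro a' ha' j hj hb
    have hb' : (D ||| ((B.HB >>> (x * B.lB)) &&& B.mB) <<< (a * B.lB)).testBit
      (a' * B.lB + j) = true := hb
    rw [T.mB, Nat.testBit_lor, testBit_shift_block _ _ _ _ hj, Bool.or_eq_true, Bool.and_eq_true,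
      T.hasB x hx j hj] at hb'
    rcases hb' with hb' | ⟨hb', hb''⟩
    · exact S.hD a' ha' j hj hb'
    · have h1 := of_decide_eq_true hb'
      subst h1
      intro hsub
      exact hs (hsub (of_decide_eq_true hb''))

theorem killL_spec {B : Base} {TA TC : ℕ → Finset ℕ} (T : Tab B TA TC)
    {e : ℕ → ℕ → Bool} {a : ℕ} {kont : ℕ → ℕ → ℕ → Bool} (m : ℕ) :
    ∀ c F E D, Sem B TA e F E D →
    (∀ i < m, nu ((c >>> (6 * i)) &&& 63) < 2 * B.n0 ∧
      nu ((c >>> (6 * i)) &&& 63) ∉ sec B.n0 e a) →
    killL B a kont m c F E D = true →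
    ∃ F' E' D', Sem B TA e F' E' D' ∧ kont F' E' D' = true := by
  induction m with
  | zero => intro c F E D S _ h; exact ⟨F, E, D, S, h⟩
  | succ m ih =>
    intro c F E D S hx h
    have h' : killX B a (fun F' E' D' => killL B a kont m (Nat.shiftRight c 6) F' E' D') F E D
      (Nat.xor (Nat.land c 63) 1) = true := h
    rw [xor_one_eq_nu] at h'
    have h0 := hx 0 (by omega)
    rw [Nat.mul_zero, Nat.shiftRight_zero] at h0
    obtain ⟨F', E', D', S', h1⟩ := killX_spec T S h0.1 h0.2 h'
    refine ih _ F' E' D' S' ?_ h1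
    intro i hi
    have h2 := hx (i + 1) (by omega)
    have e1 : (Nat.shiftRight c 6) >>> (6 * i) = c >>> (6 * (i + 1)) := by
      show (c >>> 6) >>> (6 * i) = _
      rw [← Nat.shiftRight_add]; congr 1; ring
    rw [e1]; exact h2

theorem killCl_spec {B : Base} {TA TC : ℕ → Finset ℕ} (T : Tab B TA TC)
    {e : ℕ → ℕ → Bool} {a q : ℕ} {kont : ℕ → ℕ → ℕ → Bool} {F E D : ℕ} (S : Sem B TA e F E D)
    (hq : q < B.lB) (hs : cl B q ⊆ sec B.n0 e a)
    (h : killL B a kont B.k (ent B q) F E D = true) :
    ∃ F' E' D', Sem B TA e F' E' D' ∧ kont F' E' D' = true := by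
  refine killL_spec T B.k _ F E D S ?_ h
  intro i hi
  have e1 : (ent B q >>> (6 * i)) &&& 63 = lbE B q i := by
    unfold ent lbE
    show ((B.LB >>> (q * (6 * B.k))) >>> (6 * i)) &&& 63 = _
    rw [← Nat.shiftRight_add]
  rw [e1]
  have h1 : lbE B q i ∈ cl B q := Finset.mem_image_of_mem _ (Finset.mem_range.mpr hi)
  have h2 := Finset.mem_range.mp (T.subB q hq h1)
  exact ⟨nu_lt h2, fun h3 => (sec_nu h2).mp h3 (hs h1)⟩

lemma ble_false {a b : ℕ} (h : Nat.ble a b = false) : b < a := by
  by_contra hcon
  have := Nat.ble_eq_true_of_le (not_lt.mp hcon)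
  rw [h] at this
  exact Bool.false_ne_true this

lemma ble_true {a b : ℕ} (h : Nat.ble a b = true) : a ≤ b := Nat.le_of_ble_eq_true h

lemma sgnE_eq {B : Base} {TA TC : ℕ → Finset ℕ} (T : Tab B TA TC)
    {e : ℕ → ℕ → Bool} (X : Ext B e) {F E D : ℕ} (S : Sem B TA e F E D)
    (hfull : (F ||| (F >>> 1)) &&& B.EVF = B.EVF) {i j : ℕ} (hi : i < B.n0 + (B.k + 1))
    (hj : j < B.n0 + (B.k + 1)) (hij : i ≠ j) : sgnE B F i j = e i j := by
  have key : ∀ a ≤ B.k, ∀ v < B.n0, F.testBit (a * (2 * B.n0) + 2 * v) = e (B.n0 + a) v := by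
    intro a ha v hv
    have h1 := S.hF a ha (2 * v) (by omega)
    have h2 := S.hF a ha (2 * v + 1) (by omega)
    rw [mem_sec] at h1 h2
    have e1 : 2 * v / 2 = v := by omega
    have e2 : (2 * v + 1) / 2 = v := by omega
    have e3 : 2 * v % 2 = 0 := by omega
    have e4 : (2 * v + 1) % 2 = 1 := by omega
    rw [e1, e3] at h1
    rw [e2, e4] at h2
    have h3 : ((F ||| (F >>> 1)) &&& B.EVF).testBit (a * (2 * B.n0) + 2 * v) = true := by
      rw [hfull]; exact T.evf a ha v hv
    rw [Nat.testBit_land, Nat.testBit_lor, Nat.testBit_shiftRight, T.evf a ha v hv,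
      Bool.and_true] at h3
    have e5 : 1 + (a * (2 * B.n0) + 2 * v) = a * (2 * B.n0) + (2 * v + 1) := by ring
    rw [e5] at h3
    cases h4 : F.testBit (a * (2 * B.n0) + 2 * v) with
    | true =>
      have h5 := h1 h4
      cases h6 : e (B.n0 + a) v with
      | true => rfl
      | false => exact absurd ⟨by omega, by rw [h6]; rfl⟩ h5
    | false =>
      rw [h4, Bool.false_or] at h3
      have h5 := h2 h3
      cases h6 : e (B.n0 + a) v with
      | false => rfl
      | true => exact absurd ⟨by omega, by rw [h6]; rfl⟩ h5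
  unfold sgnE
  cases h1 : Nat.ble B.n0 i with
  | true =>
    have h1' := ble_true h1
    cases h2 : Nat.ble B.n0 j with
    | true =>
      have h2' := ble_true h2
      have := X.new (i - B.n0) (by omega) (j - B.n0) (by omega) (by omega)
      rw [Nat.add_sub_cancel' h1', Nat.add_sub_cancel' h2'] at this
      exact this.symm
    | false =>
      have h2' := ble_false h2
      have := key (i - B.n0) (by omega) j h2'
      rw [Nat.add_sub_cancel' h1'] at this
      rw [← this]
      exact tb_eq _ _
  | false =>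
    have h1' := ble_false h1
    cases h2 : Nat.ble B.n0 j with
    | true =>
      have h2' := ble_true h2
      have := key (j - B.n0) (by omega) i h1'
      rw [Nat.add_sub_cancel' h2', X.sym] at this
      rw [← this]
      exact tb_eq _ _
    | false =>
      have h2' := ble_false h2
      rw [X.base i h1' j h2' hij, ← T.adjsym i h1' j h2' hij]
      exact tb_eq _ _

lemma isoRow_spec {B : Base} {F tg p w n j pj : ℕ} : ∀ m, isoRow B F tg p w n j pj m = true →
    ∀ i < m, ((p >>> (4 * i)) &&& 15) ≠ pj ∧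
      ((tg.testBit (i * n + j) ^^ sgnE B F ((p >>> (4 * i)) &&& 15) pj) ^^
        (w.testBit i ^^ w.testBit j)) = false := by
  intro m
  induction m with
  | zero => intro _ i hi; omega
  | succ m ih =>
    intro h i hi
    have h' : cond (Nat.beq ((p >>> (4 * m)) &&& 15) pj) false
      (cond (Bool.xor (Bool.xor (tb tg (m * n + j)) (sgnE B F ((p >>> (4 * m)) &&& 15) pj))
        (Bool.xor (tb w m) (tb w j))) false (isoRow B F tg p w n j pj m)) = true := h
    rw [cond_false_iff, cond_false_iff, tb_eq, tb_eq, tb_eq] at h'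
    obtain ⟨g1, g2, g3⟩ := h'
    rcases Nat.lt_or_ge i m with h4 | h4
    · exact ih g3 i h4
    · have : i = m := by omega
      subst this
      refine ⟨fun hcon => ?_, g2⟩
      rw [hcon, Nat.beq_refl] at g1
      exact Bool.false_ne_true g1.symm

lemma isoAll_spec {B : Base} {F tg p w n : ℕ} : ∀ m, isoAll B F tg p w n m = true →
    ∀ j < m, ((p >>> (4 * j)) &&& 15) < n ∧
      isoRow B F tg p w n j ((p >>> (4 * j)) &&& 15) j = true := by
  intro m
  induction m with
  | zero => intro _ i hi; omega
  | succ m ih =>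
    intro h j hj
    have h' : cond (Nat.ble n ((p >>> (4 * m)) &&& 15)) false
      (cond (isoRow B F tg p w n m ((p >>> (4 * m)) &&& 15) m) (isoAll B F tg p w n m) false)
        = true := h
    rw [cond_false_iff, cond_true_iff] at h'
    obtain ⟨g1, g2, g3⟩ := h'
    rcases Nat.lt_or_ge j m with h4 | h4
    · exact ih g3 j h4
    · have : j = m := by omega
      subst this
      exact ⟨ble_false g1, g2⟩

theorem sol_sound {B : Base} {TA TC : ℕ → Finset ℕ} (T : Tab B TA TC)
    {e : ℕ → ℕ → Bool} (X : Ext B e) {F E D : ℕ} (S : Sem B TA e F E D)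
    {tg : List ℕ} {t p w : ℕ} (h : solOK B tg F t p w = true) :
    Iso (B.n0 + (B.k + 1)) e (symE (B.n0 + (B.k + 1)) (tg.getD t 0)) := by
  have h' : cond (Nat.beq ((F ||| (F >>> 1)) &&& B.EVF) B.EVF)
    (isoAll B F (tg.getD t 0) p w (B.n0 + (B.k + 1)) (B.n0 + (B.k + 1))) false = true := h
  rw [cond_true_iff] at h'
  obtain ⟨hf, hi⟩ := h'
  have hf := beq_true hf
  set n := B.n0 + (B.k + 1) with hn
  set m := tg.getD t 0 with hm
  have hall := isoAll_spec n hi
  have half : ∀ i j, i < j → j < n → ((p >>> (4 * i)) &&& 15) ≠ ((p >>> (4 * j)) &&& 15) ∧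
      symE n m i j = (e ((p >>> (4 * i)) &&& 15) ((p >>> (4 * j)) &&& 15) ^^
        (w.testBit i ^^ w.testBit j)) := by
    intro i j hij hj
    obtain ⟨g1, g2⟩ := isoRow_spec j (hall j hj).2 i hij
    refine ⟨g1, ?_⟩
    rw [sgnE_eq T X S hf (hall i (by omega)).1 (hall j hj).1 g1] at g2
    unfold symE
    rw [min_eq_left hij.le, max_eq_right hij.le]
    generalize m.testBit (i * n + j) = a1 at g2 ⊢
    generalize e ((p >>> (4 * i)) &&& 15) ((p >>> (4 * j)) &&& 15) = a2 at g2 ⊢
    generalize w.testBit i = a3 at g2 ⊢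
    generalize w.testBit j = a4 at g2 ⊢
    revert g2
    cases a1 <;> cases a2 <;> cases a3 <;> cases a4 <;> decide
  refine ⟨fun i => (p >>> (4 * i)) &&& 15, fun i => w.testBit i, fun i hi => (hall i hi).1, ?_, ?_⟩
  · intro i hi j hj hij
    rcases lt_trichotomy i j with h1 | h1 | h1
    · exact absurd hij (half i j h1 hj).1
    · exact h1
    · exact absurd hij.symm (half j i h1 hi).1
  · intro i hi j hj hij
    rcases lt_or_gt_of_ne hij with h1 | h1
    · exact (half i j h1 hj).2
    · rw [symE_comm, (half j i h1 hi).2, X.sym]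
      congr 1
      exact Bool.xor_comm _ _

/-- swapping two new vertices -/
lemma swap_ext {B : Base} {e : ℕ → ℕ → Bool} (X : Ext B e) {l c : ℕ} (hl : l ≤ B.k)
    (hc : c ≤ B.k) :
    Ext B (fun i j => e (Equiv.swap (B.n0 + l) (B.n0 + c) i) (Equiv.swap (B.n0 + l) (B.n0 + c) j)) ∧
    Iso (B.n0 + (B.k + 1)) e
      (fun i j => e (Equiv.swap (B.n0 + l) (B.n0 + c) i) (Equiv.swap (B.n0 + l) (B.n0 + c) j)) := by
  set σ := Equiv.swap (B.n0 + l) (B.n0 + c) with hσ
  have hfix : ∀ i < B.n0, σ i = i := by
    intro i hi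
    rw [hσ]
    exact Equiv.swap_apply_of_ne_of_ne (by omega) (by omega)
  have hlt : ∀ i < B.n0 + (B.k + 1), σ i < B.n0 + (B.k + 1) := by
    intro i hi
    rw [hσ, Equiv.swap_apply_def]
    split_ifs <;> omega
  have hge : ∀ a ≤ B.k, ∃ a' ≤ B.k, σ (B.n0 + a) = B.n0 + a' := by
    intro a ha
    rw [hσ, Equiv.swap_apply_def]
    split_ifs
    · exact ⟨c, hc, rfl⟩
    · exact ⟨l, hl, rfl⟩
    · exact ⟨a, ha, rfl⟩
  have hiso : Iso (B.n0 + (B.k + 1)) e (fun i j => e (σ i) (σ j)) :=
    ⟨σ, fun _ => false, hlt, fun i _ j _ h => σ.injective h, fun i _ j _ _ => by simp⟩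
  refine ⟨⟨fun i j => X.sym _ _, ?_, ?_, hiso.ind X.ind⟩, hiso⟩
  · intro i hi j hj hij
    rw [hfix i hi, hfix j hj]
    exact X.base i hi j hj hij
  · intro a ha b hb hab
    obtain ⟨a', ha', h1⟩ := hge a ha
    obtain ⟨b', hb', h2⟩ := hge b hb
    rw [h1, h2]
    apply X.new a' ha' b' hb'
    rintro rfl
    have := σ.injective (h1.trans h2.symm)
    omega

lemma testBit_of_shiftRight_zero {F s : ℕ} (h : F >>> s = 0) {p : ℕ} (hp : s ≤ p) :
    F.testBit p = false := by
  have : F.testBit (s + (p - s)) = false := by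
    rw [← Nat.testBit_shiftRight, h, Nat.zero_testBit]
  rwa [Nat.add_sub_cancel' hp] at this

/-- **Soundness of the search trees.** -/
theorem run_sound {B : Base} {TA TC : ℕ → Finset ℕ} (T : Tab B TA TC) {tg : List ℕ} (t : Tr) :
    ∀ l F E D, run B tg t l F E D = true → l ≤ B.k + 1 → ∀ e, Ext B e → Sem B TA e F E D →
      ∃ i < tg.length, Iso (B.n0 + (B.k + 1)) e (symE (B.n0 + (B.k + 1)) (tg.getD i 0)) := by
  induction t with
  | ref c0 c1 =>
    intro l F E D h _ e X S
    exact (refute_sound T X S h).elim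
  | sol t p w =>
    intro l F E D h _ e X S
    have h' : cond (Nat.ble tg.length t) false (solOK B tg F t p w) = true := h
    rw [cond_false_iff] at h'
    exact ⟨t, ble_false h'.1, sol_sound T X S h'.2⟩
  | bit a v t0 t1 ih0 ih1 =>
    intro l F E D h hl e X S
    have h' : cond (Nat.ble a B.k) (cond (Nat.ble a l)
      (cond (Nat.ble B.n0 v) false
        (cond
          (killX B a (fun F' E' D' => run B tg t0 (cond (Nat.beq a l) (Nat.succ l) l) F' E' D')
            F E D (2 * v + 1))
          (killX B a (fun F' E' D' => run B tg t1 (cond (Nat.beq a l) (Nat.succ l) l) F' E' D')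
            F E D (2 * v)) false)) false) false = true := h
    rw [cond_true_iff, cond_true_iff, cond_false_iff, cond_true_iff] at h'
    obtain ⟨g1, g2, g3, g4, g5⟩ := h'
    have g1 := ble_true g1
    have g2 := ble_true g2
    have g3 := ble_false g3
    have hl' : cond (Nat.beq a l) (Nat.succ l) l ≤ B.k + 1 := by
      cases h3 : Nat.beq a l with
      | true => have := beq_true h3; simp only [cond_true]; omega
      | false => simp only [cond_false]; exact hl
    by_cases hv : 2 * v ∈ sec B.n0 e a
    · have hv' : 2 * v + 1 ∉ sec B.n0 e a := by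
        have h6 := sec_nu (n0 := B.n0) (e := e) (a := a) (x := 2 * v) (by omega)
        rw [nu_even (by omega)] at h6
        exact fun h7 => h6.mp h7 hv
      obtain ⟨F', E', D', S', h6⟩ := killX_spec T S (by omega) hv' g4
      exact ih0 _ F' E' D' h6 hl' e X S'
    · obtain ⟨F', E', D', S', h6⟩ := killX_spec T S (by omega) hv g5
      exact ih1 _ F' E' D' h6 hl' e X S'
  | dec a q t0 t1 ih0 ih1 =>
    intro l F E D h hl e X S
    have h' : cond (Nat.ble B.lB q) false (cond (Nat.beq a l)
      (cond (Nat.ble a B.k)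
        (cond (Nat.beq (Nat.shiftRight F (Nat.mul l (Nat.mul 2 B.n0))) 0)
        (cond (Nat.beq (Nat.shiftRight E (Nat.mul l B.lA)) 0)
        (cond (Nat.beq (Nat.shiftRight D (Nat.mul l B.lB)) 0)
          (cond (killL B a (fun F' E' D' => run B tg t0 (Nat.succ l) F' E' D') B.k (ent B q) F E D)
            (run B tg t1 l F E (Nat.lor D (Nat.shiftLeft (Nat.shiftLeft
              (Nat.shiftRight B.REP (Nat.mul l B.lB)) (Nat.mul l B.lB)) q)))
            false) false) false) false) false)
      (cond (Nat.ble a l)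
        (cond (killL B a (fun F' E' D' => run B tg t0 l F' E' D') B.k (ent B q) F E D)
          (run B tg t1 l F E (Nat.lor D (Nat.pow 2 (Nat.add (Nat.mul a B.lB) q)))) false)
            false)) = true := h
    rw [cond_false_iff] at h'
    obtain ⟨hq, h'⟩ := h'
    have hq := ble_false hq
    cases hal : Nat.beq a l with
    | true =>
      have hal' := beq_true hal
      subst hal'
      rw [hal, cond_true, cond_true_iff, cond_true_iff, cond_true_iff, cond_true_iff,
        cond_true_iff] at h'
      obtain ⟨g1, g2, g3, g4, g5, g6⟩ := h'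
      have g1 := ble_true g1
      have g2 : F >>> (a * (2 * B.n0)) = 0 := beq_true g2
      have g3 : E >>> (a * B.lA) = 0 := beq_true g3
      have g4 : D >>> (a * B.lB) = 0 := beq_true g4
      by_cases hex : ∃ c, a ≤ c ∧ c ≤ B.k ∧ cl B q ⊆ sec B.n0 e c
      · obtain ⟨c, hc1, hc2, hc3⟩ := hex
        obtain ⟨X', I'⟩ := swap_ext X g1 hc2
        set e' : ℕ → ℕ → Bool := fun i j =>
          e (Equiv.swap (B.n0 + a) (B.n0 + c) i) (Equiv.swap (B.n0 + a) (B.n0 + c) j) with he'
        have hfix : ∀ i < B.n0, Equiv.swap (B.n0 + a) (B.n0 + c) i = i := fun i hi =>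
          Equiv.swap_apply_of_ne_of_ne (by omega) (by omega)
        have hsec : ∀ b < a, sec B.n0 e' b = sec B.n0 e b := by
          intro b hb
          ext x
          rw [mem_sec, mem_sec, he']
          dsimp only
          have e1 : Equiv.swap (B.n0 + a) (B.n0 + c) (B.n0 + b) = B.n0 + b :=
            Equiv.swap_apply_of_ne_of_ne (by omega) (by omega)
          rw [e1]
          constructor
          · rintro ⟨h1, h2⟩
            rw [hfix (x / 2) (by omega)] at h2
            exact ⟨h1, h2⟩
          · rintro ⟨h1, h2⟩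
            rw [hfix (x / 2) (by omega)]
            exact ⟨h1, h2⟩
        have hsec' : sec B.n0 e' a = sec B.n0 e c := by
          ext x
          rw [mem_sec, mem_sec, he']
          dsimp only
          rw [Equiv.swap_apply_left]
          constructor
          · rintro ⟨h1, h2⟩
            rw [hfix (x / 2) (by omega)] at h2
            exact ⟨h1, h2⟩
          · rintro ⟨h1, h2⟩
            rw [hfix (x / 2) (by omega)]
            exact ⟨h1, h2⟩
        have S' : Sem B TA e' F E D := by
          refine ⟨?_, ?_, ?_⟩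
          · intro b hb x hx h5
            rcases Nat.lt_or_ge b a with h6 | h6
            · rw [hsec b h6]; exact S.hF b hb x hx h5
            · rw [testBit_of_shiftRight_zero g2 (le_add_right (Nat.mul_le_mul_right _ h6))] at h5
              exact absurd h5 Bool.false_ne_true
          · intro b hb x hx h5
            rcases Nat.lt_or_ge b a with h6 | h6
            · rw [hsec b h6]; exact S.hE b hb x hx h5
            · rw [testBit_of_shiftRight_zero g3 (le_add_right (Nat.mul_le_mul_right _ h6))] at h5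
              exact absurd h5 Bool.false_ne_true
          · intro b hb x hx h5
            rcases Nat.lt_or_ge b a with h6 | h6
            · rw [hsec b h6]; exact S.hD b hb x hx h5
            · rw [testBit_of_shiftRight_zero g4 (le_add_right (Nat.mul_le_mul_right _ h6))] at h5
              exact absurd h5 Bool.false_ne_true
        obtain ⟨F', E', D', S'', h6⟩ := killCl_spec T S' hq (by rw [hsec']; exact hc3) g5
        obtain ⟨i, hi, J⟩ := ih0 _ F' E' D' h6 (by omega) e' X' S''
        exact ⟨i, hi, I'.trans J⟩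
      · refine ih1 a F E _ g6 hl e X ⟨S.hF, S.hE, ?_⟩
        intro b hb j hj h5
        have h5' : (D ||| (((B.REP >>> (a * B.lB)) <<< (a * B.lB)) <<< q)).testBit
          (b * B.lB + j) = true := h5
        rw [Nat.testBit_lor, Bool.or_eq_true] at h5'
        rcases h5' with h5' | h5'
        · exact S.hD b hb j hj h5'
        · rw [Nat.testBit_shiftLeft, Nat.testBit_shiftLeft, Nat.testBit_shiftRight,
            Bool.and_eq_true, Bool.and_eq_true, decide_eq_true_eq, decide_eq_true_eq] at h5'
          obtain ⟨k1, k2, k3⟩ := h5'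
          have e1 : a * B.lB + (b * B.lB + j - q - a * B.lB) = b * B.lB + j - q := by omega
          rw [e1, T.rep] at k3
          -- position b * lB + j - q is a multiple of lB
          have hlB : 0 < B.lB := by omega
          have e2 := Nat.div_add_mod (b * B.lB + j - q) B.lB
          set c := (b * B.lB + j - q) / B.lB with hc
          set r := (b * B.lB + j - q) % B.lB with hr
          have hrlt : r < B.lB := Nat.mod_lt _ hlB
          have e3 : b * B.lB + j - q = c * B.lB + r := by rw [← e2]; ring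
          rw [e3, testBit_rep hlB _ _ _ hrlt, Bool.and_eq_true, decide_eq_true_eq,
            decide_eq_true_eq] at k3
          have e4 : b * B.lB + j = c * B.lB + q := by omega
          have hjq : j = q := (block_inj hj hq e4).2
          rw [hjq]
          have hab : a ≤ b := by
            by_contra hcon
            have : (b + 1) * B.lB ≤ a * B.lB := Nat.mul_le_mul_right _ (by omega)
            have e5 : (b + 1) * B.lB = b * B.lB + B.lB := by ring
            omega
          exact fun hs => hex ⟨b, hab, hb, hs⟩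
    | false =>
      rw [hal, cond_false, cond_true_iff, cond_true_iff] at h'
      obtain ⟨g1, g2, g3⟩ := h'
      have g1 := ble_true g1
      have hne : a ≠ l := by
        rintro rfl
        rw [Nat.beq_refl] at hal
        exact Bool.false_ne_true hal.symm
      by_cases hs : cl B q ⊆ sec B.n0 e a
      · obtain ⟨F', E', D', S', h6⟩ := killCl_spec T S hq hs g2
        exact ih0 _ F' E' D' h6 hl e X S'
      · refine ih1 l F E _ g3 hl e X ⟨S.hF, S.hE, ?_⟩
        intro b hb j hj h5
        have h5' : (D ||| 2 ^ (a * B.lB + q)).testBit (b * B.lB + j) = true := h5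
        rw [Nat.testBit_lor, Nat.testBit_two_pow, Bool.or_eq_true] at h5'
        rcases h5' with h5' | h5'
        · exact S.hD b hb j hj h5'
        · obtain ⟨rfl, rfl⟩ := block_inj hq hj (of_decide_eq_true h5')
          exact hs

end Pool.Agent.RP5
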