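import Pool.Agent.Lib_MP_a77ffe_gt.Sound3

/-!
Generation and verification of the tables.
-/

namespace Pool.Agent.RP5

open Finset

/-- the mask of the neighbours `y < m` of the lift `x` -/
def nbm (n adj x : ℕ) : ℕ → ℕ
  | 0 => 0
  | m + 1 => Nat.lor (nbm n adj x m)
      (cond (Nat.beq (Nat.div x 2) (Nat.div m 2)) 0
        (cond (Bool.xor (tb adj (Nat.add (Nat.mul (Nat.div x 2) n) (Nat.div m 2)))
          (Nat.beq (Nat.mod (Nat.add x m) 2) 1)) 0 (Nat.pow 2 m)))

/-- extensions of the clique `T` by larger lifts -/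
def extsL (n adj T : ℕ) : ℕ → List ℕ → List ℕ
  | 0, acc => acc
  | x + 1, acc => extsL n adj T x
      (cond (Nat.ble (Nat.pow 2 (Nat.sub x (Nat.mod x 2))) T) acc
        (cond (Nat.beq (Nat.land T (nbm n adj x (2 * n))) T) (Nat.lor T (Nat.pow 2 x) :: acc) acc))

def stepL (n adj : ℕ) : List ℕ → List ℕ
  | [] => []
  | T :: Ts => extsL n adj T (2 * n) (stepL n adj Ts)

def initL : ℕ → List ℕ → List ℕ
  | 0, acc => acc
  | v + 1, acc => initL v (Nat.pow 2 (2 * v) :: acc)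

/-- codes of the cliques with `r + 1` elements whose smallest element is even -/
def gens (n adj : ℕ) : ℕ → List ℕ
  | 0 => initL n []
  | r + 1 => stepL n adj (gens n adj r)

/-- the opposite clique -/
def nuc (c : ℕ) : ℕ → ℕ
  | 0 => 0
  | m + 1 => Nat.lor (nuc c m) (cond (tb c m) (Nat.pow 2 (Nat.xor m 1)) 0)

def pairsL (n : ℕ) : List ℕ → List ℕ
  | [] => []
  | c :: cs => c :: nuc c (2 * n) :: pairsL n cs

/-- codes of all cliques with `r` elements -/
def levL (n adj : ℕ) : ℕ → List ℕ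
  | 0 => [0]
  | r + 1 => pairsL n (gens n adj r)

def allB (P : ℕ → Bool) : ℕ → Bool
  | 0 => true
  | m + 1 => cond (P m) (allB P m) false

def allI (P : ℕ → ℕ → Bool) : ℕ → List ℕ → Bool
  | _, [] => true
  | q, c :: cs => cond (P q c) (allI P (Nat.succ q) cs) false

def fieldM (LB k q : ℕ) : ℕ → ℕ
  | 0 => 0
  | i + 1 => Nat.lor (fieldM LB k q i)
      (Nat.pow 2 (Nat.land (Nat.shiftRight LB (Nat.add (Nat.mul q (Nat.mul 6 k)) (Nat.mul 6 i))) 63))

def notMemB (c : ℕ) : List ℕ → Bool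
  | [] => true
  | d :: ds => cond (Nat.beq c d) false (notMemB c ds)

def nodupB : List ℕ → Bool
  | [] => true
  | c :: cs => cond (notMemB c cs) (nodupB cs) false

/-- conjunction of the columns of `H` at the elements of `c` -/
def andH (H w c : ℕ) : ℕ → ℕ → ℕ
  | 0, acc => acc
  | x + 1, acc => andH H w c x (cond (tb c x) (Nat.land acc (Nat.shiftRight H (Nat.mul x w))) acc)

def altU (c : ℕ) : ℕ → ℕ → ℕ → Bool
  | 0, _, s => cond (Nat.beq s 0) false true
  | f + 1, x, s => cond (tb c x)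
      (cond (Nat.beq s (Nat.succ (Nat.mod x 2))) false (altU c f (Nat.succ x) (Nat.succ (Nat.mod x 2))))
      (altU c f (Nat.succ x) s)

def repN (w : ℕ) : ℕ → ℕ
  | 0 => 0
  | s + 1 => Nat.add (Nat.mul (Nat.pow 2 w) (repN w s)) 1

/-- verification of the tables -/
def okTab (B : Base) (LA LB LC : List ℕ) : List Bool :=
  [Nat.ble 1 B.k, Nat.ble 1 B.lA, Nat.beq B.mA (Nat.sub (Nat.pow 2 B.lA) 1),
   Nat.beq B.mB (Nat.sub (Nat.pow 2 B.lB) 1), Nat.beq B.mC (Nat.sub (Nat.pow 2 B.lC) 1),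
   allB (fun i => allB (fun j => cond (Bool.xor (tb B.adj (Nat.add (Nat.mul i B.n0) j))
      (tb B.adj (Nat.add (Nat.mul j B.n0) i))) false true) B.n0) B.n0,
   Nat.beq B.lA LA.length, Nat.beq B.lB LB.length, Nat.beq B.lC LC.length,
   allI (fun q c => Nat.beq (fieldM B.LB B.k q B.k) c) 0 LB,
   nodupB LB,
   allI (fun j c => Nat.beq (Nat.land (Nat.shiftRight B.BA (Nat.mul j B.lB)) B.mB)
      (andH B.HB B.lB c (2 * B.n0) B.mB)) 0 LA,
   allI (fun r c => allI (fun i d => cond (Bool.xor (tb B.BB (Nat.add (Nat.mul i B.lC) r))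
      (Nat.beq (Nat.land d c) d)) false true) 0 LB) 0 LC,
   allI (fun j c => allB (fun x => cond (Bool.xor (tb B.HA (Nat.add (Nat.mul x B.lA) j)) (tb c x))
      false true) (2 * B.n0)) 0 LA,
   allI (fun q c => allB (fun x => cond (Bool.xor (tb B.HB (Nat.add (Nat.mul x B.lB) q)) (tb c x))
      false true) (2 * B.n0)) 0 LB,
   allI (fun q c => cond (Nat.beq (Nat.mod q 2) 1) true (cond (tb B.EVB q)
      (cond (Bool.xor (tb B.AL q) (altU c (2 * B.n0) 0 0)) false true) false)) 0 LB,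
   Nat.beq B.REP (repN B.lB (Nat.succ B.k)),
   allB (fun i => tb B.EVF (2 * i)) (Nat.mul (Nat.succ B.k) B.n0)]

end Pool.Agent.RP5
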