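import Pool.Agent.Lib_MP_a77ffe_gt.Table

/-!
Correctness of the verification of the tables.
-/

namespace Pool.Agent.RP5

open Finset

/-- `c` is the code of `S` -/
def Code (c : ℕ) (S : Finset ℕ) : Prop := ∀ x, c.testBit x = decide (x ∈ S)

lemma Code.mem {c : ℕ} {S : Finset ℕ} (h : Code c S) {x : ℕ} : x ∈ S ↔ c.testBit x = true := by
  rw [h x]; simp

lemma Code.inj {c : ℕ} {S S' : Finset ℕ} (h : Code c S) (h' : Code c S') : S = S' := by
  ext x; rw [h.mem, h'.mem]

lemma Code.eq {c c' : ℕ} {S : Finset ℕ} (h : Code c S) (h' : Code c' S) : c = c' :=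
  Nat.eq_of_testBit_eq (fun x => by rw [h x, h' x])

lemma code_zero : Code 0 ∅ := fun x => by simp

lemma code_pow (x : ℕ) : Code (2 ^ x) {x} := fun y => by
  rw [Nat.testBit_two_pow]
  simp only [Finset.mem_singleton, eq_comm]

lemma Code.or {c c' : ℕ} {S S' : Finset ℕ} (h : Code c S) (h' : Code c' S') :
    Code (c ||| c') (S ∪ S') := fun x => by
  rw [Nat.testBit_lor, h x, h' x]
  simp

lemma Code.land_eq {c d : ℕ} {S T : Finset ℕ} (h : Code c S) (h' : Code d T) :
    c &&& d = c ↔ S ⊆ T := by
  constructor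
  · intro he x hx
    rw [h.mem] at hx
    rw [← he, Nat.testBit_land, Bool.and_eq_true] at hx
    exact h'.mem.mpr hx.2
  · intro hs
    apply Nat.eq_of_testBit_eq
    intro x
    rw [Nat.testBit_land, h x, h' x]
    by_cases hx : x ∈ S
    · simp [hx, hs hx]
    · simp [hx]

lemma tbi {m i : ℕ} : tb m i = m.testBit i := tb_eq m i

lemma beq_eq_decide (a b : ℕ) : Nat.beq a b = decide (a = b) := by
  by_cases h : a = b
  · subst h; simp
  · rw [decide_eq_false h]
    cases h2 : Nat.beq a b with
    | false => rfl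
    | true => exact absurd (beq_true h2) h

section gen
variable {n adj : ℕ}

lemma testBit_nbm (x y m : ℕ) : (nbm n adj x m).testBit y = true ↔
    y < m ∧ x / 2 ≠ y / 2 ∧ adj.testBit (x / 2 * n + y / 2) = decide ((x + y) % 2 = 1) := by
  induction m with
  | zero => simp [nbm]
  | succ m ih =>
    have h : (nbm n adj x (m + 1)) = (nbm n adj x m) |||
      (cond (Nat.beq (x / 2) (m / 2)) 0
        (cond (Bool.xor (tb adj (x / 2 * n + m / 2))
          (Nat.beq ((x + m) % 2) 1)) 0 (2 ^ m))) := rfl
    rw [h, Nat.testBit_lor, Bool.or_eq_true, ih]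
    have h2 : (cond (Nat.beq (x / 2) (m / 2)) 0
        (cond (Bool.xor (tb adj (x / 2 * n + m / 2))
          (Nat.beq ((x + m) % 2) 1)) 0 (2 ^ m))).testBit y = true ↔
        y = m ∧ x / 2 ≠ m / 2 ∧ adj.testBit (x / 2 * n + m / 2) = decide ((x + m) % 2 = 1) := by
      rw [tb_eq, beq_eq_decide, beq_eq_decide]
      by_cases h3 : x / 2 = m / 2
      · rw [decide_eq_true h3, cond_true, Nat.zero_testBit]
        simp [h3]
      · rw [decide_eq_false h3, cond_false]
        cases h4 : adj.testBit (x / 2 * n + m / 2) <;>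
          cases h5 : decide ((x + m) % 2 = 1) <;>
          simp [h3, Nat.testBit_two_pow, eq_comm]
    rw [h2]
    constructor
    · rintro (⟨h3, h4⟩ | ⟨rfl, h4⟩)
      · exact ⟨by omega, h4⟩
      · exact ⟨by omega, h4⟩
    · rintro ⟨h3, h4⟩
      rcases Nat.lt_or_ge y m with h5 | h5
      · exact Or.inl ⟨h5, h4⟩
      · have : y = m := by omega
        subst this
        exact Or.inr ⟨rfl, h4⟩

/-- admissible extension -/
def ExtOK (n adj T x : ℕ) : Prop := T < 2 ^ (x - x % 2) ∧ T &&& nbm n adj x (2 * n) = T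

lemma mem_extsL {T c : ℕ} (m : ℕ) : ∀ acc, c ∈ extsL n adj T m acc ↔
    c ∈ acc ∨ ∃ x < m, ExtOK n adj T x ∧ c = T ||| 2 ^ x := by
  induction m with
  | zero => intro acc; simp [extsL]
  | succ m ih =>
    intro acc
    have h : extsL n adj T (m + 1) acc = extsL n adj T m
      (cond (Nat.ble (2 ^ (m - m % 2)) T) acc
        (cond (Nat.beq (T &&& nbm n adj m (2 * n)) T) ((T ||| 2 ^ m) :: acc) acc)) := rfl
    rw [h, ih]
    have h2 : c ∈ (cond (Nat.ble (2 ^ (m - m % 2)) T) acc
        (cond (Nat.beq (T &&& nbm n adj m (2 * n)) T) ((T ||| 2 ^ m) :: acc) acc)) ↔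
        c ∈ acc ∨ (ExtOK n adj T m ∧ c = T ||| 2 ^ m) := by
      unfold ExtOK
      cases h3 : Nat.ble (2 ^ (m - m % 2)) T with
      | true =>
        have := ble_true h3
        rw [cond_true]
        constructor
        · intro h; exact Or.inl h
        · rintro (h | ⟨⟨h4, _⟩, _⟩)
          · exact h
          · omega
      | false =>
        have := ble_false h3
        rw [cond_false, beq_eq_decide]
        by_cases h4 : T &&& nbm n adj m (2 * n) = T
        · rw [decide_eq_true h4, cond_true, List.mem_cons]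
          constructor
          · rintro (h | h)
            · exact Or.inr ⟨⟨this, h4⟩, h⟩
            · exact Or.inl h
          · rintro (h | ⟨_, h⟩)
            · exact Or.inr h
            · exact Or.inl h
        · rw [decide_eq_false h4, cond_false]
          constructor
          · intro h; exact Or.inl h
          · rintro (h | ⟨⟨_, h5⟩, _⟩)
            · exact h
            · exact absurd h5 h4
    rw [h2]
    constructor
    · rintro ((h6 | h6) | ⟨x, hx, h6⟩)
      · exact Or.inl h6
      · exact Or.inr ⟨m, by omega, h6⟩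
      · exact Or.inr ⟨x, by omega, h6⟩
    · rintro (h6 | ⟨x, hx, h6⟩)
      · exact Or.inl (Or.inl h6)
      · rcases Nat.lt_or_ge x m with h5 | h5
        · exact Or.inr ⟨x, h5, h6⟩
        · have : x = m := by omega
          rw [this] at h6
          exact Or.inl (Or.inr h6)

lemma mem_stepL {c : ℕ} (L : List ℕ) : c ∈ stepL n adj L ↔
    ∃ T ∈ L, ∃ x < 2 * n, ExtOK n adj T x ∧ c = T ||| 2 ^ x := by
  induction L with
  | nil => simp [stepL]
  | cons T Ts ih =>
    rw [stepL, mem_extsL, ih]
    constructor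
    · rintro (⟨T', hT', h⟩ | h)
      · exact ⟨T', List.mem_cons_of_mem _ hT', h⟩
      · exact ⟨T, List.mem_cons_self, h⟩
    · rintro ⟨T', hT', h⟩
      rcases List.mem_cons.mp hT' with rfl | hT'
      · exact Or.inr h
      · exact Or.inl ⟨T', hT', h⟩

lemma mem_initL {c : ℕ} (m : ℕ) : ∀ acc, c ∈ initL m acc ↔ c ∈ acc ∨ ∃ v < m, c = 2 ^ (2 * v) := by
  induction m with
  | zero => intro acc; simp [initL]
  | succ m ih =>
    intro acc
    have h : initL (m + 1) acc = initL m (2 ^ (2 * m) :: acc) := rfl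
    rw [h, ih, List.mem_cons]
    constructor
    · rintro ((h6 | h6) | ⟨v, hv, h6⟩)
      · exact Or.inr ⟨m, by omega, h6⟩
      · exact Or.inl h6
      · exact Or.inr ⟨v, by omega, h6⟩
    · rintro (h6 | ⟨v, hv, h6⟩)
      · exact Or.inl (Or.inr h6)
      · rcases Nat.lt_or_ge v m with h5 | h5
        · exact Or.inr ⟨v, h5, h6⟩
        · have : v = m := by omega
          rw [this] at h6
          exact Or.inl (Or.inl h6)

lemma gens_sound {r c : ℕ} (h : c ∈ gens n adj r) :
    ∃ S ⊆ range (2 * n), S.card = r + 1 ∧ Code c S := by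
  induction r generalizing c with
  | zero =>
    rw [gens, mem_initL] at h
    rcases h with h | ⟨v, hv, rfl⟩
    · exact absurd h (by simp)
    · exact ⟨{2 * v}, by simp; omega, by simp, code_pow _⟩
  | succ r ih =>
    rw [gens, mem_stepL] at h
    obtain ⟨T, hT, x, hx, ⟨h1, _⟩, rfl⟩ := h
    obtain ⟨S, hS, hcard, hc⟩ := ih hT
    have hxS : x ∉ S := by
      rw [hc.mem, Bool.not_eq_true]
      apply Nat.testBit_lt_two_pow
      exact lt_of_lt_of_le h1 (Nat.pow_le_pow_right (by norm_num) (by omega))
    refine ⟨S ∪ {x}, ?_, ?_, hc.or (code_pow x)⟩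
    · intro y hy
      rcases Finset.mem_union.mp hy with h | h
      · exact hS h
      · rw [Finset.mem_singleton] at h; rw [h]; exact Finset.mem_range.mpr hx
    · rw [Finset.card_union_of_disjoint (by simpa using hxS), hcard, Finset.card_singleton]

/-- the smallest element is even -/
def Rep (S : Finset ℕ) : Prop := ∀ x ∈ S, (∀ y ∈ S, x ≤ y) → x % 2 = 0

lemma gens_complete (hadj : ∀ i < n, ∀ j < n, i ≠ j → adj.testBit (i * n + j) = symE n adj i j)
    (r : ℕ) : ∀ S ⊆ range (2 * n), Clq (symE n adj) S → S.card = r + 1 → Rep S →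
      ∃ c ∈ gens n adj r, Code c S := by
  induction r with
  | zero =>
    intro S hS _ hcard hrep
    obtain ⟨x, rfl⟩ := Finset.card_eq_one.mp hcard
    have hx : x % 2 = 0 := hrep x (by simp) (by simp)
    have hx2 : x < 2 * n := by simpa using hS
    refine ⟨2 ^ x, ?_, code_pow x⟩
    rw [gens, mem_initL]
    exact Or.inr ⟨x / 2, by omega, by congr 1; omega⟩
  | succ r ih =>
    intro S hS hc hcard hrep
    have hne : S.Nonempty := by rw [← Finset.card_pos]; omega
    set x := S.max' hne with hx
    have hxS : x ∈ S := S.max'_mem hne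
    have hx2 := Finset.mem_range.mp (hS hxS)
    obtain ⟨c, hcg, hcode⟩ := ih (S.erase x) ((Finset.erase_subset _ _).trans hS)
      (hc.subset (Finset.erase_subset _ _)) (by rw [Finset.card_erase_of_mem hxS]; omega) (by
        intro y hy hmin
        have hyS := Finset.mem_of_mem_erase hy
        apply hrep y hyS
        intro z hz
        by_cases hzx : z = x
        · rw [hzx]; exact S.le_max' y hyS
        · exact hmin z (Finset.mem_erase.mpr ⟨hzx, hz⟩))
    have hlow : ∀ y ∈ S.erase x, y < x - x % 2 := by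
      intro y hy
      have hyx := Finset.ne_of_mem_erase hy
      have hyS := Finset.mem_of_mem_erase hy
      have h1 := S.le_max' y hyS
      rw [← hx] at h1
      have h2 := (hc y hyS x hxS hyx).1
      omega
    refine ⟨c ||| 2 ^ x, ?_, ?_⟩
    · rw [gens, mem_stepL]
      refine ⟨c, hcg, x, hx2, ⟨?_, ?_⟩, rfl⟩
      · apply Nat.lt_pow_two_of_testBit
        intro i hi
        rw [hcode i, decide_eq_false]
        intro h
        have := hlow i h
        omega
      · apply Nat.eq_of_testBit_eq
        intro y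
        rw [Nat.testBit_land]
        by_cases hy : y ∈ S.erase x
        · rw [hcode y, decide_eq_true hy, Bool.true_and, testBit_nbm]
          have hyx := Finset.ne_of_mem_erase hy
          have hyS := Finset.mem_of_mem_erase hy
          have hy2 := Finset.mem_range.mp (hS hyS)
          have h3 := hc x hxS y hyS (Ne.symm hyx)
          refine ⟨hy2, h3.1, ?_⟩
          rw [hadj (x / 2) (by omega) (y / 2) (by omega) h3.1, h3.2]
        · rw [hcode y, decide_eq_false hy, Bool.false_and]
    · have := hcode.or (code_pow x)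
      have h2 : S.erase x ∪ {x} = S := by
        rw [Finset.union_comm, ← Finset.insert_eq, Finset.insert_erase hxS]
      rwa [h2] at this

lemma testBit_nuc (c x m : ℕ) : (nuc c m).testBit x = (decide (nu x < m) && c.testBit (nu x)) := by
  induction m with
  | zero => simp [nuc]
  | succ m ih =>
    have h : nuc c (m + 1) = nuc c m ||| (cond (tb c m) (2 ^ (Nat.xor m 1)) 0) := rfl
    rw [h, xor_one_eq_nu, Nat.testBit_lor, ih, tb_eq]
    by_cases h1 : nu x = m
    · have h2 : nu m = x := by rw [← h1, nu_nu]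
      rw [h1, h2]
      cases h3 : c.testBit m
      · simp
      · simp
    · have h2 : nu m ≠ x := fun h => h1 (by rw [← h, nu_nu])
      have h3 : (cond (c.testBit m) (2 ^ (nu m)) 0).testBit x = false := by
        cases c.testBit m
        · simp
        · simp [h2]
      rw [h3, Bool.or_false]
      congr 1
      rw [Bool.eq_iff_iff]
      simp
      omega

lemma Code.nuc {c : ℕ} {S : Finset ℕ} (h : Code c S) (hS : S ⊆ range (2 * n)) :
    Code (nuc c (2 * n)) (nus S) := by
  intro x
  rw [testBit_nuc, h (nu x)]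
  by_cases h1 : nu x ∈ S
  · have h2 := Finset.mem_range.mp (hS h1)
    have h3 : x ∈ nus S := mem_nus.mpr h1
    simp [h1, h2, h3]
  · have h3 : x ∉ nus S := fun h => h1 (mem_nus.mp h)
    simp [h1, h3]

lemma mem_pairsL {c : ℕ} (L : List ℕ) : c ∈ pairsL n L ↔ c ∈ L ∨ ∃ d ∈ L, c = nuc d (2 * n) := by
  induction L with
  | nil => simp [pairsL]
  | cons d L ih =>
    rw [pairsL, List.mem_cons, List.mem_cons, ih, List.mem_cons]
    constructor
    · rintro (h | h | h | ⟨e, he, h⟩)
      · exact Or.inl (Or.inl h)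
      · exact Or.inr ⟨d, List.mem_cons_self, h⟩
      · exact Or.inl (Or.inr h)
      · exact Or.inr ⟨e, List.mem_cons_of_mem _ he, h⟩
    · rintro ((h | h) | ⟨e, he, h⟩)
      · exact Or.inl h
      · exact Or.inr (Or.inr (Or.inl h))
      · rcases List.mem_cons.mp he with rfl | he
        · exact Or.inr (Or.inl h)
        · exact Or.inr (Or.inr (Or.inr ⟨e, he, h⟩))

lemma pairsL_pair (L : List ℕ) : ∀ q, q < (pairsL n L).length → q % 2 = 0 →
    q + 1 < (pairsL n L).length ∧
      (pairsL n L).getD (q + 1) 0 = nuc ((pairsL n L).getD q 0) (2 * n) := by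
  induction L with
  | nil => intro q hq _; simp [pairsL] at hq
  | cons d L ih =>
    intro q hq hq2
    match q, hq, hq2 with
    | 0, _, _ => simp [pairsL]
    | 1, _, h => simp at h
    | q + 2, hq, hq2 =>
      rw [pairsL, List.length_cons, List.length_cons] at hq ⊢
      obtain ⟨h1, h2⟩ := ih q (by omega) (by omega)
      refine ⟨by omega, ?_⟩
      simpa using h2

lemma nus_subset_range {S : Finset ℕ} (hS : S ⊆ range (2 * n)) : nus S ⊆ range (2 * n) := by
  have := (nus_mem_powerset (nus_range n) (S := S)).mpr (Finset.mem_powerset.mpr hS)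
  exact Finset.mem_powerset.mp this

lemma levL_sound {r c : ℕ} (h : c ∈ levL n adj r) :
    ∃ S ⊆ range (2 * n), S.card = r ∧ Code c S := by
  cases r with
  | zero =>
    rw [levL, List.mem_singleton] at h
    rw [h]
    exact ⟨∅, by simp, rfl, code_zero⟩
  | succ r =>
    rw [levL, mem_pairsL] at h
    rcases h with h | ⟨d, hd, rfl⟩
    · exact gens_sound h
    · obtain ⟨S, h1, h2, h3⟩ := gens_sound hd
      exact ⟨nus S, nus_subset_range h1, by rw [nus_card, h2], h3.nuc h1⟩

lemma levL_complete (hadj : ∀ i < n, ∀ j < n, i ≠ j → adj.testBit (i * n + j) = symE n adj i j)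
    {r : ℕ} {S : Finset ℕ} (hS : S ⊆ range (2 * n)) (hc : Clq (symE n adj) S)
    (hcard : S.card = r) : ∃ c ∈ levL n adj r, Code c S := by
  cases r with
  | zero =>
    rw [Finset.card_eq_zero] at hcard
    exact ⟨0, by simp [levL], hcard ▸ code_zero⟩
  | succ r =>
    by_cases hrep : Rep S
    · obtain ⟨c, h1, h2⟩ := gens_complete hadj r S hS hc hcard hrep
      exact ⟨c, (mem_pairsL _).mpr (Or.inl h1), h2⟩
    · unfold Rep at hrep
      push Not at hrep
      obtain ⟨m, hm, hmin, hodd⟩ := hrep
      have hrep' : Rep (nus S) := by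
        intro x hx hxmin
        have h1 : nu m ∈ nus S := by rw [mem_nus, nu_nu]; exact hm
        have h2 := hxmin _ h1
        have h3 := hmin _ (mem_nus.mp hx)
        have h4 := nu_div x
        have h5 := nu_div m
        have h6 := nu_mod m
        by_contra hcon
        have h7 := nu_mod x
        omega
      obtain ⟨c, h1, h2⟩ := gens_complete hadj r (nus S) (nus_subset_range hS) hc.nus
        (by rw [nus_card, hcard]) hrep'
      refine ⟨nuc c (2 * n), (mem_pairsL _).mpr (Or.inr ⟨c, h1, rfl⟩), ?_⟩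
      have := h2.nuc (nus_subset_range hS)
      rwa [nus_nus] at this

end gen

lemma allB_spec {P : ℕ → Bool} : ∀ m, allB P m = true → ∀ i < m, P i = true := by
  intro m
  induction m with
  | zero => intro _ i hi; omega
  | succ m ih =>
    intro h i hi
    rw [allB, cond_true_iff] at h
    rcases Nat.lt_or_ge i m with h5 | h5
    · exact ih h.2 i h5
    · have : i = m := by omega
      rw [this]; exact h.1

lemma allI_spec {P : ℕ → ℕ → Bool} (L : List ℕ) : ∀ q, allI P q L = true →
    ∀ i < L.length, P (q + i) (L.getD i 0) = true := by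
  induction L with
  | nil => intro q _ i hi; simp at hi
  | cons c cs ih =>
    intro q h i hi
    rw [allI, cond_true_iff] at h
    match i, hi with
    | 0, _ => simpa using h.1
    | i + 1, hi =>
      have := ih (Nat.succ q) h.2 i (by simpa using hi)
      have e : Nat.succ q + i = q + (i + 1) := by omega
      rw [e] at this
      simpa using this

lemma getD_mem {L : List ℕ} {i : ℕ} (hi : i < L.length) : L.getD i 0 ∈ L := by
  rw [List.getD_eq_getElem _ _ hi]
  exact List.getElem_mem hi

lemma mem_getD {L : List ℕ} {c : ℕ} (h : c ∈ L) : ∃ i < L.length, L.getD i 0 = c := by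
  obtain ⟨i, hi, h2⟩ := List.mem_iff_getElem.mp h
  exact ⟨i, hi, by rw [List.getD_eq_getElem _ _ hi, h2]⟩

lemma notMemB_spec {c : ℕ} (L : List ℕ) (h : notMemB c L = true) : c ∉ L := by
  induction L with
  | nil => simp
  | cons d ds ih =>
    rw [notMemB, cond_false_iff, beq_eq_decide, decide_eq_false_iff_not] at h
    rw [List.mem_cons, not_or]
    exact ⟨h.1, ih h.2⟩

lemma nodupB_spec (L : List ℕ) (h : nodupB L = true) :
    ∀ i < L.length, ∀ j < L.length, L.getD i 0 = L.getD j 0 → i = j := by
  induction L with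
  | nil => intro i hi; simp at hi
  | cons c cs ih =>
    rw [nodupB, cond_true_iff] at h
    have hc := notMemB_spec cs h.1
    intro i hi j hj hij
    match i, j, hi, hj with
    | 0, 0, _, _ => rfl
    | 0, j + 1, _, hj =>
      exfalso; apply hc
      have : (c :: cs).getD 0 0 = c := by simp
      rw [this] at hij
      rw [hij]
      have h2 : j < cs.length := by simpa using hj
      simpa using getD_mem h2
    | i + 1, 0, hi, _ =>
      exfalso; apply hc
      have : (c :: cs).getD 0 0 = c := by simp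
      rw [this] at hij
      rw [← hij]
      have h2 : i < cs.length := by simpa using hi
      simpa using getD_mem h2
    | i + 1, j + 1, hi, hj =>
      have := ih h.2 i (by simpa using hi) j (by simpa using hj) (by simpa using hij)
      rw [this]

lemma testBit_fieldM (B : Base) (q x m : ℕ) : (fieldM B.LB B.k q m).testBit x = true ↔
    ∃ i < m, lbE B q i = x := by
  induction m with
  | zero => simp [fieldM]
  | succ m ih =>
    have h : fieldM B.LB B.k q (m + 1) = fieldM B.LB B.k q m ||| 2 ^ (lbE B q m) := rfl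
    rw [h, Nat.testBit_lor, Bool.or_eq_true, ih, Nat.testBit_two_pow, decide_eq_true_eq]
    constructor
    · rintro (⟨i, hi, h⟩ | h)
      · exact ⟨i, by omega, h⟩
      · exact ⟨m, by omega, h⟩
    · rintro ⟨i, hi, h⟩
      rcases Nat.lt_or_ge i m with h5 | h5
      · exact Or.inl ⟨i, h5, h⟩
      · have : i = m := by omega
        rw [this] at h; exact Or.inr h

lemma testBit_andH (H w c q m : ℕ) : ∀ acc, (andH H w c m acc).testBit q = true ↔
    acc.testBit q = true ∧ ∀ x < m, c.testBit x = true → H.testBit (x * w + q) = true := by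
  induction m with
  | zero => intro acc; simp [andH]
  | succ m ih =>
    intro acc
    have h : andH H w c (m + 1) acc = andH H w c m (cond (tb c m) (acc &&& (H >>> (m * w))) acc) :=
      rfl
    rw [h, ih, tb_eq]
    have h2 : (cond (c.testBit m) (acc &&& (H >>> (m * w))) acc).testBit q = true ↔
        acc.testBit q = true ∧ (c.testBit m = true → H.testBit (m * w + q) = true) := by
      cases h3 : c.testBit m
      · simp
      · simp [Nat.testBit_shiftRight]
    rw [h2]
    constructor
    · rintro ⟨⟨h3, h4⟩, h5⟩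
      refine ⟨h3, fun x hx hcx => ?_⟩
      rcases Nat.lt_or_ge x m with h6 | h6
      · exact h5 x h6 hcx
      · have : x = m := by omega
        rw [this] at hcx ⊢; exact h4 hcx
    · rintro ⟨h3, h4⟩
      exact ⟨⟨h3, h4 m (by omega)⟩, fun x hx => h4 x (by omega)⟩

lemma altU_spec (c : ℕ) (f : ℕ) : ∀ x,
    bz (altU c f x 0) = altL ((List.range' x f).filter (fun y => c.testBit y)) ∧
    ∀ y, bz (altU c f x (y % 2 + 1)) = altL (y :: (List.range' x f).filter (fun y => c.testBit y)) := by
  induction f with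
  | zero => intro x; exact ⟨rfl, fun y => rfl⟩
  | succ f ih =>
    intro x
    have hr : (List.range' x (f + 1)) = x :: List.range' (x + 1) f := rfl
    have h0 : ∀ s, altU c (f + 1) x s = cond (tb c x)
      (cond (Nat.beq s (x % 2 + 1)) false (altU c f (x + 1) (x % 2 + 1)))
      (altU c f (x + 1) s) := fun s => rfl
    rw [hr, List.filter_cons]
    constructor
    · rw [h0, tb_eq]
      cases hc : c.testBit x
      · simp only [cond_false, Bool.false_eq_true, if_false]
        exact (ih (x + 1)).1
      · simp only [cond_true, if_true]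
        have : Nat.beq 0 (x % 2 + 1) = false := rfl
        rw [this, cond_false]
        exact (ih (x + 1)).2 x
    · intro y
      rw [h0, tb_eq]
      cases hc : c.testBit x
      · simp only [cond_false, Bool.false_eq_true, if_false]
        exact (ih (x + 1)).2 y
      · simp only [cond_true, if_true, altL]
        rw [beq_eq_decide]
        have hpar : ((y : ZMod 2) + x) = if y % 2 = x % 2 then 0 else 1 := by
          have h1 : (y : ZMod 2) = ((y % 2 : ℕ) : ZMod 2) := by simp
          have h2 : (x : ZMod 2) = ((x % 2 : ℕ) : ZMod 2) := by simp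
          rw [h1, h2]
          rcases Nat.mod_two_eq_zero_or_one y with h3 | h3 <;>
            rcases Nat.mod_two_eq_zero_or_one x with h4 | h4 <;> rw [h3, h4] <;> decide
        rw [hpar]
        by_cases hxy : y % 2 = x % 2
        · rw [if_pos hxy, zero_mul, decide_eq_true (by omega), cond_true, bz_false]
        · rw [if_neg hxy, one_mul, decide_eq_false (by omega), cond_false]
          exact (ih (x + 1)).2 x

lemma sort_eq_filter {n : ℕ} {S : Finset ℕ} (hS : S ⊆ range n) :
    S.sort = (List.range' 0 n).filter (fun y => decide (y ∈ S)) := by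
  have hl : ((List.range' 0 n).filter (fun y => decide (y ∈ S))).Nodup :=
    (List.nodup_range').filter _
  have h2 : ((List.range' 0 n).filter (fun y => decide (y ∈ S))).toFinset = S := by
    ext x
    rw [List.mem_toFinset, List.mem_filter, List.mem_range', decide_eq_true_eq]
    constructor
    · exact fun h => h.2
    · intro h
      have := Finset.mem_range.mp (hS h)
      exact ⟨⟨x, this, by omega⟩, h⟩
  have h3 := (List.toFinset_sort (r := (· ≤ ·)) hl).mpr
    (List.Pairwise.filter _ (List.pairwise_le_range'))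
  rw [h2] at h3
  exact h3

lemma altU_alt {n c : ℕ} {S : Finset ℕ} (hS : S ⊆ range n) (hc : Code c S) :
    bz (altU c n 0 0) = alt S := by
  rw [(altU_spec c n 0).1]
  unfold alt
  rw [sort_eq_filter hS]
  congr 2
  funext y
  exact hc y

lemma repN_eq (w s : ℕ) : repN w s = rep w s := by
  induction s with
  | zero => rfl
  | succ s ih =>
    have h : repN w (s + 1) = 2 ^ w * repN w s + 1 := rfl
    rw [h, ih]; rfl

/-- the clique coded by the entry `q` of the list `L` -/
def decL (n : ℕ) (L : List ℕ) (q : ℕ) : Finset ℕ :=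
  (range (2 * n)).filter (fun x => (L.getD q 0).testBit x = true)

lemma decL_eq {n q : ℕ} {L : List ℕ} {S : Finset ℕ} (hS : S ⊆ range (2 * n))
    (h : Code (L.getD q 0) S) : decL n L q = S := by
  ext x
  unfold decL
  rw [Finset.mem_filter, ← h.mem]
  exact ⟨fun h => h.2, fun h => ⟨hS h, h⟩⟩

theorem okTab_sound (B : Base) (h : (okTab B (levL B.n0 B.adj (B.k - 1)) (levL B.n0 B.adj B.k)
    (levL B.n0 B.adj (B.k + 1))).all id = true) :
    Tab B (decL B.n0 (levL B.n0 B.adj (B.k - 1))) (decL B.n0 (levL B.n0 B.adj (B.k + 1))) := by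
  set LA := levL B.n0 B.adj (B.k - 1) with hLA
  set LB := levL B.n0 B.adj B.k with hLB
  set LC := levL B.n0 B.adj (B.k + 1) with hLC
  unfold okTab at h
  simp only [List.all_cons, List.all_nil, Bool.and_eq_true, id, and_true] at h
  obtain ⟨c1, c2, c3, c4, c5, c6, c7, c8, c9, c10, c11, c12, c13, c14, c15, c16, c17, c18⟩ := h
  have c1 := ble_true c1
  have c2 := ble_true c2
  have c3 : B.mA = 2 ^ B.lA - 1 := beq_true c3
  have c4 : B.mB = 2 ^ B.lB - 1 := beq_true c4
  have c5 : B.mC = 2 ^ B.lC - 1 := beq_true c5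
  have c7 := beq_true c7
  have c8 := beq_true c8
  have c9 := beq_true c9
  have hadj : ∀ i < B.n0, ∀ j < B.n0, i ≠ j →
      B.adj.testBit (i * B.n0 + j) = symE B.n0 B.adj i j := by
    intro i hi j hj hij
    have h1 := allB_spec _ (allB_spec _ c6 i hi) j hj
    have h2 : (tb B.adj (i * B.n0 + j) ^^ tb B.adj (j * B.n0 + i)) = false := by
      have := h1
      rw [cond_false_iff] at this
      exact this.1
    rw [tb_eq, tb_eq] at h2
    have h3 : B.adj.testBit (i * B.n0 + j) = B.adj.testBit (j * B.n0 + i) := by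
      revert h2
      cases B.adj.testBit (i * B.n0 + j) <;> cases B.adj.testBit (j * B.n0 + i) <;> simp
    unfold symE
    rcases lt_or_gt_of_ne hij with h4 | h4
    · rw [min_eq_left h4.le, max_eq_right h4.le]
    · rw [min_eq_right h4.le, max_eq_left h4.le, h3]
  have hcodeA : ∀ j < B.lA, ∃ S ⊆ range (2 * B.n0), S.card = B.k - 1 ∧ Code (LA.getD j 0) S ∧
      decL B.n0 LA j = S := by
    intro j hj
    obtain ⟨S, h1, h2, h3⟩ := levL_sound (getD_mem (L := LA) (i := j) (by rw [← c7]; exact hj))
    exact ⟨S, h1, h2, h3, decL_eq h1 h3⟩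
  have hcodeC : ∀ j < B.lC, ∃ S ⊆ range (2 * B.n0), S.card = B.k + 1 ∧ Code (LC.getD j 0) S ∧
      decL B.n0 LC j = S := by
    intro j hj
    obtain ⟨S, h1, h2, h3⟩ := levL_sound (getD_mem (L := LC) (i := j) (by rw [← c9]; exact hj))
    exact ⟨S, h1, h2, h3, decL_eq h1 h3⟩
  have hcodeB : ∀ q < B.lB, ∃ S ⊆ range (2 * B.n0), S.card = B.k ∧ Code (LB.getD q 0) S ∧
      cl B q = S := by
    intro q hq
    obtain ⟨S, h1, h2, h3⟩ := levL_sound (getD_mem (L := LB) (i := q) (by rw [← c8]; exact hq))
    refine ⟨S, h1, h2, h3, ?_⟩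
    have h4 := allI_spec _ _ c10 q (by rw [← c8]; exact hq)
    rw [zero_add] at h4
    have h5 := beq_true h4
    ext x
    rw [h3.mem, ← h5, testBit_fieldM]
    unfold cl
    rw [Finset.mem_image]
    constructor
    · rintro ⟨i, hi, h⟩; exact ⟨i, Finset.mem_range.mp hi, h⟩
    · rintro ⟨i, hi, h⟩; exact ⟨i, Finset.mem_range.mpr hi, h⟩
  have hhasB : ∀ x < 2 * B.n0, ∀ q < B.lB, B.HB.testBit (x * B.lB + q) = decide (x ∈ cl B q) := by
    intro x hx q hq
    have h4 := allI_spec _ _ c15 q (by rw [← c8]; exact hq)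
    rw [zero_add] at h4
    have h5 := allB_spec _ h4 x hx
    rw [cond_false_iff] at h5
    have h6 : (tb B.HB (x * B.lB + q) ^^ tb (LB.getD q 0) x) = false := h5.1
    rw [tb_eq, tb_eq] at h6
    obtain ⟨S, -, -, h7, h8⟩ := hcodeB q hq
    rw [h8, ← h7 x]
    revert h6
    cases B.HB.testBit (x * B.lB + q) <;> cases (LB.getD q 0).testBit x <;> simp
  refine ⟨c1, c2, c3, c4, c5, hadj, ?_, ?_, ?_, ?_, ?_, ?_, ?_, ?_, ?_, ?_, hhasB, ?_, ?_, ?_, ?_,
    ?_⟩
  · intro j hj
    obtain ⟨S, h1, h2, h3, h4⟩ := hcodeA j hj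
    rw [h4]; exact h1
  · intro j hj
    obtain ⟨S, h1, h2, h3, h4⟩ := hcodeA j hj
    rw [h4, h2]; omega
  · intro j hj
    obtain ⟨S, h1, h2, h3, h4⟩ := hcodeB j hj
    rw [h4]; exact h1
  · intro j hj
    obtain ⟨S, h1, h2, h3, h4⟩ := hcodeB j hj
    rw [h4, h2]
  · intro T hT hc hcard
    obtain ⟨c, h1, h2⟩ := levL_complete hadj hT hc hcard
    obtain ⟨q, hq, h3⟩ := mem_getD h1
    have hq' : q < B.lB := by rw [c8]; exact hq
    obtain ⟨S, h4, h5, h6, h7⟩ := hcodeB q hq'
    refine ⟨q, hq', ?_⟩
    rw [h7]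
    rw [← hLB] at h3
    rw [h3] at h6
    exact h6.inj h2
  · intro q hq q' hq' hqq
    obtain ⟨S, h4, h5, h6, h7⟩ := hcodeB q hq
    obtain ⟨S', h4', h5', h6', h7'⟩ := hcodeB q' hq'
    rw [h7, h7'] at hqq
    rw [hqq] at h6
    exact nodupB_spec _ c11 q (by rw [← c8]; exact hq) q' (by rw [← c8]; exact hq') (h6.eq h6')
  · intro T hT hc hcard
    obtain ⟨c, h1, h2⟩ := levL_complete hadj hT hc hcard
    obtain ⟨q, hq, h3⟩ := mem_getD h1
    have hq' : q < B.lC := by rw [c9]; exact hq
    obtain ⟨S, h4, h5, h6, h7⟩ := hcodeC q hq'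
    refine ⟨q, hq', ?_⟩
    rw [h7]
    rw [← hLC] at h3
    rw [h3] at h6
    exact h6.inj h2
  · intro j hj q hq
    obtain ⟨S, h1, h2, h3, h4⟩ := hcodeA j hj
    have h5 := allI_spec _ _ c12 j (by rw [← c7]; exact hj)
    rw [zero_add] at h5
    have h6 : (B.BA >>> (j * B.lB)) &&& B.mB = andH B.HB B.lB (LA.getD j 0) (2 * B.n0) B.mB :=
      beq_true h5
    have h7 := congrArg (fun m => m.testBit q) h6
    rw [c4, testBit_block j q hq] at h7
    rw [h7, Bool.eq_iff_iff, testBit_andH, decide_eq_true_eq, h4]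
    constructor
    · rintro ⟨-, h8⟩ x hx
      have hx2 := Finset.mem_range.mp (h1 hx)
      have := h8 x hx2 (h3.mem.mp hx)
      rw [hhasB x hx2 q hq] at this
      exact of_decide_eq_true this
    · intro h8
      refine ⟨by rw [Nat.testBit_two_pow_sub_one]; exact decide_eq_true hq, fun x hx hcx => ?_⟩
      rw [hhasB x hx q hq]
      exact decide_eq_true (h8 (h3.mem.mpr hcx))
  · intro i hi r hr
    obtain ⟨S, h1, h2, h3, h4⟩ := hcodeB i hi
    obtain ⟨S', h1', h2', h3', h4'⟩ := hcodeC r hr
    have h5 := allI_spec _ _ c13 r (by rw [← c9]; exact hr)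
    rw [zero_add] at h5
    have h6 := allI_spec _ _ h5 i (by rw [← c8]; exact hi)
    rw [zero_add, cond_false_iff] at h6
    have h7 : (tb B.BB (i * B.lC + r) ^^
      Nat.beq (LB.getD i 0 &&& LC.getD r 0) (LB.getD i 0)) = false := h6.1
    rw [tb_eq, beq_eq_decide, decide_eq_decide.mpr (h3.land_eq h3')] at h7
    rw [h4, h4']
    revert h7
    cases B.BB.testBit (i * B.lC + r) <;> cases decide (S ⊆ S') <;> simp
  · intro x hx q hq
    have h4 := allI_spec _ _ c14 q (by rw [← c7]; exact hq)
    rw [zero_add] at h4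
    have h5 := allB_spec _ h4 x hx
    rw [cond_false_iff] at h5
    have h6 : (tb B.HA (x * B.lA + q) ^^ tb (LA.getD q 0) x) = false := h5.1
    rw [tb_eq, tb_eq] at h6
    obtain ⟨S, -, -, h7, h8⟩ := hcodeA q hq
    rw [h8, ← h7 x]
    revert h6
    cases B.HA.testBit (x * B.lA + q) <;> cases (LA.getD q 0).testBit x <;> simp
  · intro q hq hq2
    obtain ⟨m, hm⟩ : ∃ m, B.k = m + 1 := ⟨B.k - 1, by omega⟩
    have hLB' : LB = pairsL B.n0 (gens B.n0 B.adj m) := by rw [hLB, hm]; rfl
    have h1 := pairsL_pair (n := B.n0) (gens B.n0 B.adj m) q (by rw [← hLB', ← c8]; exact hq) hq2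
    rw [← hLB', ← c8] at h1
    refine ⟨h1.1, ?_⟩
    obtain ⟨S, g1, g2, g3, g4⟩ := hcodeB q hq
    obtain ⟨S', g1', g2', g3', g4'⟩ := hcodeB (q + 1) h1.1
    rw [g4, g4']
    rw [h1.2] at g3'
    exact g3'.inj (g3.nuc g1)
  · intro q hq hq2
    have h4 := allI_spec _ _ c16 q (by rw [← c8]; exact hq)
    rw [zero_add] at h4
    have h5 : Nat.beq (Nat.mod q 2) 1 = false := by
      have : Nat.mod q 2 = 0 := hq2
      rw [this]; rfl
    rw [h5, cond_false, cond_true_iff, tb_eq] at h4
    exact h4.1
  · intro q hq hq2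
    have h4 := allI_spec _ _ c16 q (by rw [← c8]; exact hq)
    rw [zero_add] at h4
    have h5 : Nat.beq (Nat.mod q 2) 1 = false := by
      have : Nat.mod q 2 = 0 := hq2
      rw [this]; rfl
    rw [h5, cond_false, cond_true_iff, cond_false_iff, tb_eq, tb_eq] at h4
    obtain ⟨S, g1, g2, g3, g4⟩ := hcodeB q hq
    rw [g4, ← altU_alt g1 g3]
    congr 1
    have h6 := h4.2.1
    revert h6
    cases B.AL.testBit q <;> cases altU (LB.getD q 0) (2 * B.n0) 0 0 <;> simp
  · rw [← repN_eq]; exact beq_true c17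
  · intro a ha v hv
    have h1 : a * B.n0 + v < (B.k + 1) * B.n0 := by
      have : (a + 1) * B.n0 ≤ (B.k + 1) * B.n0 := Nat.mul_le_mul_right _ (by omega)
      have h3 : (a + 1) * B.n0 = a * B.n0 + B.n0 := by ring
      omega
    have h2 := allB_spec _ c18 _ h1
    rw [tb_eq] at h2
    have e : 2 * (a * B.n0 + v) = a * (2 * B.n0) + 2 * v := by ring
    rw [e] at h2
    exact h2

end Pool.Agent.RP5
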