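import Pool.Agent.Lib_MP_a77ffe_gt.Chain
import Pool.Agent.Lib_MP_22bcea_gt.BU

/-!
From a labelling of the sphere to an index sequence on the signed complete graph.
-/

set_option autoImplicit false

namespace Pool.Agent.RP5

open Finsupp Pool.Agent.Lib_MP_22bcea_gt.BU

/-- chains on finite sets of naturals -/
abbrev TN := Finset ℕ →₀ ZMod 2

theorem TN_ext {M : Type*} [AddCommGroup M] [Module (ZMod 2) M] {f g : TN →ₗ[ZMod 2] M}
    (h : ∀ s, f (single s 1) = g (single s 1)) (c : TN) : f c = g c := by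
  have : f = g := Finsupp.lhom_ext' (fun l => LinearMap.ext_ring (h l))
  rw [this]

/-- the cone operator on finite sets -/
noncomputable def starN (a : ℕ) : TN →ₗ[ZMod 2] TN :=
  Finsupp.linearCombination (ZMod 2) (fun s => if a ∈ s then 0 else single (insert a s) 1)

theorem starN_single (a : ℕ) (s : Finset ℕ) :
    starN a (single s 1) = if a ∈ s then 0 else single (insert a s) 1 := by
  simp [starN]

/-- the boundary -/
noncomputable def bdN : TN →ₗ[ZMod 2] TN :=
  Finsupp.linearCombination (ZMod 2) (fun s => ∑ a ∈ s, single (s.erase a) 1)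

theorem bdN_single (s : Finset ℕ) :
    bdN (single s 1) = ∑ a ∈ s, single (s.erase a) 1 := by
  simp [bdN]

theorem bdN_star (a : ℕ) (z : TN) : bdN (starN a z) = z + starN a (bdN z) := by
  refine TN_ext (f := bdN.comp (starN a)) (g := LinearMap.id + (starN a).comp bdN) ?_ z
  intro s
  simp only [LinearMap.comp_apply, LinearMap.add_apply, LinearMap.id_apply, starN_single,
    bdN_single, map_sum]
  by_cases h : a ∈ s
  · rw [if_pos h, map_zero, Finset.sum_eq_single a]
    · rw [if_neg (Finset.notMem_erase a s), Finset.insert_erase h]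
      exact (two_eq_zero _ _).symm
    · intro b _ hba
      rw [if_pos (Finset.mem_erase.2 ⟨hba.symm, h⟩)]
    · intro h'; exact absurd h h'
  · rw [if_neg h, bdN_single, Finset.sum_insert h, Finset.erase_insert h]
    congr 1
    refine Finset.sum_congr rfl ?_
    intro b hb
    have hba : b ≠ a := fun e => h (e ▸ hb)
    rw [if_neg (fun h' => h (Finset.mem_of_mem_erase h')), Finset.erase_insert_of_ne hba.symm]

/-- the involution on chains -/
noncomputable def nuN : TN →ₗ[ZMod 2] TN := Finsupp.lmapDomain _ _ nus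

theorem nuN_single (s : Finset ℕ) (r : ZMod 2) : nuN (single s r) = single (nus s) r := by
  simp [nuN, Finsupp.lmapDomain_apply, Finsupp.mapDomain_single]

theorem nus_inj : Function.Injective nus := Function.Involutive.injective nus_nus

theorem nuN_apply (z : TN) (s : Finset ℕ) : nuN z s = z (nus s) := by
  have h : nuN z (nus (nus s)) = z (nus s) := Finsupp.mapDomain_apply nus_inj z (nus s)
  rwa [nus_nus] at h

theorem nuN_star (a : ℕ) (z : TN) : nuN (starN a z) = starN (nu a) (nuN z) := by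
  refine TN_ext (f := nuN.comp (starN a)) (g := (starN (nu a)).comp nuN) ?_ z
  intro s
  simp only [LinearMap.comp_apply, starN_single, nuN_single]
  by_cases h : a ∈ s
  · rw [if_pos h, if_pos (mem_nus.2 (by rwa [nu_nu])), map_zero]
  · rw [if_neg h, if_neg (fun h' => h (by rw [mem_nus, nu_nu] at h'; exact h')), nuN_single,
      nus_insert]

/-- from lists to finite sets -/
noncomputable def epsN : Ch ℕ →ₗ[ZMod 2] TN :=
  Finsupp.linearCombination (ZMod 2) (fun l => l.foldr (fun a z => starN a z) (single ∅ 1))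

theorem epsN_nil : epsN (single ([] : List ℕ) 1) = single ∅ 1 := by
  simp [epsN]

theorem epsN_cons (a : ℕ) (l : List ℕ) :
    epsN (single (a :: l) 1) = starN a (epsN (single l 1)) := by
  simp [epsN]

theorem epsN_cone (a : ℕ) (c : Ch ℕ) : epsN (cone a c) = starN a (epsN c) := by
  refine lin_ext (f := epsN.comp (cone a)) (g := (starN a).comp epsN) ?_ c
  intro l
  simp only [LinearMap.comp_apply, cone_single, epsN_cons]

theorem epsN_bd (c : Ch ℕ) : epsN (bd c) = bdN (epsN c) := by
  refine lin_ext (f := epsN.comp bd) (g := bdN.comp epsN) ?_ c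
  intro l
  simp only [LinearMap.comp_apply, bd_single]
  induction l with
  | nil => rw [bdl, map_zero, epsN_nil, bdN_single]; simp
  | cons a l ih => rw [bdl, map_add, epsN_cone, ih, epsN_cons, bdN_star]

theorem epsN_nu (c : Ch ℕ) : epsN (mp nu c) = nuN (epsN c) := by
  refine lin_ext (f := epsN.comp (mp nu)) (g := nuN.comp epsN) ?_ c
  intro l
  simp only [LinearMap.comp_apply, mp_single]
  induction l with
  | nil => rw [List.map_nil, epsN_nil, nuN_single, nus_empty]
  | cons a l ih => rw [List.map_cons, epsN_cons, epsN_cons, ih, nuN_star]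

theorem TN_map_mem {M : Type*} [AddCommGroup M] [Module (ZMod 2) M] {P : Set (Finset ℕ)}
    {W : Submodule (ZMod 2) M} (f : TN →ₗ[ZMod 2] M) (h : ∀ l ∈ P, f (single l 1) ∈ W)
    {c : TN} (hc : c ∈ Finsupp.supported (ZMod 2) (ZMod 2) P) : f c ∈ W := by
  rw [Finsupp.supported_eq_span_single] at hc
  induction hc using Submodule.span_induction with
  | mem x hx =>
    obtain ⟨l, hl, rfl⟩ := hx
    exact h l hl
  | zero => rw [map_zero]; exact W.zero_mem
  | add x y _ _ hx hy => rw [map_add]; exact W.add_mem hx hy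
  | smul r x _ hx => rw [map_smul]; exact W.smul_mem r hx

theorem epsN_supp (l : List ℕ) : epsN (single l 1) ∈ Finsupp.supported (ZMod 2) (ZMod 2)
    {S : Finset ℕ | S.card = l.length ∧ ∀ x ∈ S, x ∈ l} := by
  induction l with
  | nil =>
    rw [epsN_nil]
    exact Finsupp.single_mem_supported _ _ ⟨rfl, fun x hx => absurd hx (Finset.notMem_empty x)⟩
  | cons a l ih =>
    rw [epsN_cons]
    refine TN_map_mem (starN a) (fun S hS => ?_) ih
    rw [starN_single]
    by_cases h : a ∈ S
    · rw [if_pos h]; exact Submodule.zero_mem _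
    · rw [if_neg h]
      refine Finsupp.single_mem_supported _ _ ⟨?_, ?_⟩
      · rw [Finset.card_insert_of_notMem h, hS.1, List.length_cons]
      · intro x hx
        rcases Finset.mem_insert.1 hx with rfl | hx
        · exact List.mem_cons_self
        · exact List.mem_cons_of_mem _ (hS.2 x hx)

/-- coefficients of the boundary -/
theorem bdN_apply (V : Finset ℕ) {z : TN}
    (hz : z ∈ Finsupp.supported (ZMod 2) (ZMod 2) {S : Finset ℕ | S ⊆ V}) (R : Finset ℕ) :
    bdN z R = ∑ x ∈ V \ R, z (insert x R) := by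
  classical
  let ev1 : TN →ₗ[ZMod 2] ZMod 2 := (Finsupp.lapply R).comp bdN
  let ev2 : TN →ₗ[ZMod 2] ZMod 2 := ∑ x ∈ V \ R, Finsupp.lapply (insert x R)
  have key : (ev1 - ev2) z ∈ (⊥ : Submodule (ZMod 2) (ZMod 2)) := by
    refine TN_map_mem (ev1 - ev2) (fun S hS => ?_) hz
    have hS' : S ⊆ V := hS
    rw [Submodule.mem_bot, LinearMap.sub_apply, sub_eq_zero]
    show bdN (single S 1) R = (∑ x ∈ V \ R, (Finsupp.lapply (insert x R) : TN →ₗ[ZMod 2] ZMod 2))
      (single S 1)
    rw [bdN_single, Finsupp.finsetSum_apply, LinearMap.sum_apply]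
    simp only [Finsupp.lapply_apply, Finsupp.single_apply]
    have h1 : ∑ a ∈ S, (if S.erase a = R then (1 : ZMod 2) else 0)
        = ∑ a ∈ V, (if a ∈ S ∧ S.erase a = R then (1 : ZMod 2) else 0) := by
      rw [← Finset.sum_subset hS' (f := fun a => if a ∈ S ∧ S.erase a = R then (1 : ZMod 2) else 0)]
      · refine Finset.sum_congr rfl (fun a ha => ?_)
        simp [ha]
      · intro a _ ha
        simp [ha]
    have h2 : ∑ a ∈ V \ R, (if S = insert a R then (1 : ZMod 2) else 0)
        = ∑ a ∈ V, (if a ∉ R ∧ S = insert a R then (1 : ZMod 2) else 0) := by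
      rw [← Finset.sum_subset (Finset.sdiff_subset (s := V) (t := R))
        (f := fun a => if a ∉ R ∧ S = insert a R then (1 : ZMod 2) else 0)]
      · refine Finset.sum_congr rfl (fun a ha => ?_)
        have : a ∉ R := (Finset.mem_sdiff.1 ha).2
        simp [this]
      · intro a ha ha'
        have : a ∈ R := by
          by_contra h
          exact ha' (Finset.mem_sdiff.2 ⟨ha, h⟩)
        simp [this]
    rw [h1, h2]
    refine Finset.sum_congr rfl (fun a _ => ?_)
    have h3 : (a ∈ S ∧ S.erase a = R) ↔ (a ∉ R ∧ S = insert a R) := by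
      constructor
      · rintro ⟨h, rfl⟩
        exact ⟨Finset.notMem_erase a S, (Finset.insert_erase h).symm⟩
      · rintro ⟨h, rfl⟩
        exact ⟨Finset.mem_insert_self a R, Finset.erase_insert h⟩
    by_cases h4 : a ∈ S ∧ S.erase a = R
    · rw [if_pos h4, if_pos (h3.1 h4)]
    · rw [if_neg h4, if_neg (fun h5 => h4 (h3.2 h5))]
  rw [Submodule.mem_bot, LinearMap.sub_apply, sub_eq_zero] at key
  have e1 : ev1 z = bdN z R := rfl
  have e2 : ev2 z = ∑ x ∈ V \ R, z (insert x R) := by
    show (∑ x ∈ V \ R, (Finsupp.lapply (insert x R) : TN →ₗ[ZMod 2] ZMod 2)) z = _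
    rw [LinearMap.sum_apply]
    rfl
  rw [← e1, key, e2]

/-- PART T1. -/
theorem ind_of_labelling (N k : ℕ) (e : ℕ → ℕ → Bool) (φ : (Fin (k + 1) → ℝ) → ℕ)
    (δ : ℝ) (hδ : 0 < δ)
    (hlt : ∀ x ∈ KK (k + 1), φ x < 2 * N)
    (hodd : ∀ x ∈ KK (k + 1), φ (-x) = nu (φ x))
    (hadj : ∀ x ∈ KK (k + 1), ∀ y ∈ KK (k + 1), dist x y < δ → φ x ≠ φ y →
      φ x / 2 ≠ φ y / 2 ∧ e (φ x / 2) (φ y / 2) = decide ((φ x + φ y) % 2 = 1)) :
    Ind N e k := by
  classical
  set K := KK (k + 1) with hK
  -- number of subdivisions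
  obtain ⟨r, hr⟩ : ∃ r : ℕ, ((k : ℝ) / (k + 1)) ^ r * 2 < δ := by
    have h1 : (k : ℝ) / (k + 1) < 1 := by
      rw [div_lt_one (by positivity)]; linarith
    obtain ⟨r, hr⟩ := exists_pow_lt_of_lt_one (show (0 : ℝ) < δ / 2 by positivity) h1
    exact ⟨r, by linarith⟩
  -- the sign vectors
  let ι := {s : Fin (k + 1) → ℝ // ∀ i, s i = 1 ∨ s i = -1}
  let A : ι → Set (Fin (k + 1) → ℝ) := fun s => face s.1
  have hmesh : ∀ j ≤ k, sdI (j + 1) r (hem (ev (k + 1)) j) ∈
      Sup (fun l : List (Fin (k + 1) → ℝ) => ∃ i, Msh (A i) (((k : ℝ) / (k + 1)) ^ r * 2) l) := by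
    intro j hj
    refine sdI_mesh (by norm_num) (j + 1) (by omega) r A (fun i => convex_face i.1)
      (hem_len _ j) ?_
    refine Sup_mono ?_ (hem_PF (N := k + 1) j (by omega))
    rintro l ⟨s, hs, hl⟩
    refine ⟨⟨s, hs⟩, fun p hp => (hl p hp).1, fun p hp q hq => ?_⟩
    exact KK_dist (face_sub hs (hl p hp).1) (face_sub hs (hl q hq).1)
  have hall : ∀ j ≤ k, sdI (j + 1) r (hem (ev (k + 1)) j) ∈
      Sup (fun l : List (Fin (k + 1) → ℝ) => l.length = j + 1 ∧ (∀ p ∈ l, p ∈ K) ∧
        ∀ p ∈ l, ∀ q ∈ l, dist p q < δ) := by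
    intro j hj
    have h1 := hmesh j hj
    have h2 := sdI_len (j + 1) r (hem_len (ev (k + 1)) j)
    rw [mem_Sup] at h1 h2 ⊢
    intro l hl
    obtain ⟨i, hi1, hi2⟩ := h1 l hl
    exact ⟨h2 l hl, fun p hp => face_sub i.2 (hi1 p hp),
      fun p hp q hq => lt_of_le_of_lt (hi2 p hp q hq) hr⟩
  -- the sequence of chains
  let c : ℕ → TN := fun j => epsN (mp φ (sdI (j + 1) r (hem (ev (k + 1)) j)))
  have hsupp : ∀ j ≤ k, c j ∈ Finsupp.supported (ZMod 2) (ZMod 2)
      {S : Finset ℕ | S ⊆ Finset.range (2 * N) ∧ Clq e S ∧ S.card = j + 1} := by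
    intro j hj
    refine map_mem_of (epsN.comp (mp φ)) (fun l hl => ?_) (hall j hj)
    obtain ⟨h1, h2, h3⟩ := hl
    rw [LinearMap.comp_apply, mp_single]
    refine Finsupp.supported_mono ?_ (epsN_supp (l.map φ))
    rintro S ⟨hc, hm⟩
    refine ⟨?_, ?_, ?_⟩
    · intro x hx
      obtain ⟨p, hp, rfl⟩ := List.mem_map.1 (hm x hx)
      exact Finset.mem_range.2 (hlt p (h2 p hp))
    · intro x hx y hy hxy
      obtain ⟨p, hp, rfl⟩ := List.mem_map.1 (hm x hx)
      obtain ⟨q, hq, rfl⟩ := List.mem_map.1 (hm y hy)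
      exact hadj p (h2 p hp) q (h2 q hq) (h3 p hp q hq) hxy
    · rw [hc, List.length_map, h1]
  have hsuppV : ∀ j ≤ k, c j ∈ Finsupp.supported (ZMod 2) (ZMod 2)
      {S : Finset ℕ | S ⊆ Finset.range (2 * N)} :=
    fun j hj => Finsupp.supported_mono (fun S hS => hS.1) (hsupp j hj)
  have hzero : bdN (c 0) = single ∅ 1 := by
    show bdN (epsN (mp φ (sdI 1 r (hem (ev (k + 1)) 0)))) = single ∅ 1
    rw [← epsN_bd, ← mp_bd, bd_sdI 0 r (hem_len _ 0), bd_hem]
    have h1 : ∀ r : ℕ, sdI 0 r (sph (ev (k + 1)) 0) = single [] 1 := by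
      intro r
      induction r with
      | zero => rfl
      | succ r ih =>
        show sdN 0 (sdI 0 r (sph (ev (k + 1)) 0)) = single [] 1
        rw [ih]; rfl
    rw [h1, mp_single, List.map_nil, epsN_nil]
  have hstep : ∀ j < k, bdN (c (j + 1)) = c j + nuN (c j) := by
    intro j hj
    show bdN (epsN (mp φ (sdI (j + 2) r (hem (ev (k + 1)) (j + 1)))))
      = epsN (mp φ (sdI (j + 1) r (hem (ev (k + 1)) j)))
        + nuN (epsN (mp φ (sdI (j + 1) r (hem (ev (k + 1)) j))))
    rw [← epsN_bd, ← mp_bd, bd_sdI (j + 1) r (hem_len _ (j + 1)), bd_hem, sph_succ, map_add,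
      map_add, map_add, ← mp_neg_sdI, ← epsN_nu]
    congr 2
    refine lin_ext_on (f := (mp φ).comp (mp Neg.neg)) (g := (mp nu).comp (mp φ))
      (fun l hl => ?_) (hall j (by omega))
    simp only [LinearMap.comp_apply, mp_single, List.map_map]
    congr 1
    apply List.map_congr_left
    intro p hp
    exact hodd p (hl.2.1 p hp)
  refine ⟨fun j S => c j S, ?_, ?_, ?_⟩
  · intro j hj S hS
    have h := (Finsupp.mem_supported _ _).1 (hsupp j hj) (Finsupp.mem_support_iff.2 hS)
    exact h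
  · have h1 := bdN_apply (Finset.range (2 * N)) (hsuppV 0 (Nat.zero_le _)) ∅
    rw [hzero, Finsupp.single_eq_same, Finset.sdiff_empty] at h1
    rw [h1]
    rfl
  · intro j hj R _ _
    have h1 := bdN_apply (Finset.range (2 * N)) (hsuppV (j + 1) hj) R
    show ∑ x ∈ Finset.range (2 * N) \ R, c (j + 1) (insert x R) = c j R + c j (nus R)
    rw [← h1, hstep j hj, Finsupp.add_apply, nuN_apply]

end Pool.Agent.RP5
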