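import Pool.Agent.Lib_MP_a77ffe_gt.TopDefs

/-!
PART T2a of MP_a77ffe_gt: the open stars of a triangulation of RP^5 lift to the double cover S^5.
(helper86)
-/

set_option autoImplicit false

namespace Pool.Agent.RP5

open Finset

section Geo

variable {n : ℕ}

lemma coeff_unique {s : Finset (EuclideanSpace ℝ (Fin n))}
    (hs : AffineIndependent ℝ ((↑) : s → EuclideanSpace ℝ (Fin n)))
    {a b : EuclideanSpace ℝ (Fin n) → ℝ}
    (ha : ∑ y ∈ s, a y = 1) (hb : ∑ y ∈ s, b y = 1)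
    (hab : ∑ y ∈ s, a y • y = ∑ y ∈ s, b y • y) : ∀ y ∈ s, a y = b y := by
  intro y hy
  have := hs.eq_zero_of_sum_eq_zero_subtype (w := fun y => a y - b y)
    (by simp [Finset.sum_sub_distrib, ha, hb])
    (by simp [sub_smul, Finset.sum_sub_distrib, hab]) y hy
  linarith

lemma notMem_erase_iff {s : Finset (EuclideanSpace ℝ (Fin n))}
    (hs : AffineIndependent ℝ ((↑) : s → EuclideanSpace ℝ (Fin n)))
    {v x : EuclideanSpace ℝ (Fin n)} (hv : v ∈ s) {a : EuclideanSpace ℝ (Fin n) → ℝ}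
    (ha0 : ∀ y ∈ s, 0 ≤ a y) (ha1 : ∑ y ∈ s, a y = 1) (hax : ∑ y ∈ s, a y • y = x) :
    x ∉ convexHull ℝ ((s.erase v : Finset (EuclideanSpace ℝ (Fin n))) :
      Set (EuclideanSpace ℝ (Fin n))) ↔ 0 < a v := by
  constructor
  · intro h
    by_contra hn
    have h0 : a v = 0 := le_antisymm (not_lt.1 hn) (ha0 v hv)
    apply h
    rw [Finset.mem_convexHull']
    refine ⟨a, fun y hy => ha0 y (Finset.mem_of_mem_erase hy), ?_, ?_⟩
    · rw [Finset.sum_erase _ h0, ha1]
    · rw [Finset.sum_erase _ (by rw [h0, zero_smul]), hax]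
  · intro h hx
    rw [Finset.mem_convexHull'] at hx
    obtain ⟨w, hw0, hw1, hwx⟩ := hx
    have h1 : ∑ y ∈ s, (if y = v then 0 else w y) = 1 := by
      rw [← Finset.sum_erase s (a := v) (by simp), ← hw1]
      refine Finset.sum_congr rfl fun y hy => ?_
      rw [if_neg (Finset.ne_of_mem_erase hy)]
    have h2 : ∑ y ∈ s, (if y = v then 0 else w y) • y = x := by
      rw [← Finset.sum_erase s (a := v) (by simp), ← hwx]
      refine Finset.sum_congr rfl fun y hy => ?_
      rw [if_neg (Finset.ne_of_mem_erase hy)]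
    have := coeff_unique hs ha1 h1 (by rw [hax, h2]) v hv
    simp at this
    linarith

lemma convex_openFace {s : Finset (EuclideanSpace ℝ (Fin n))}
    (hs : AffineIndependent ℝ ((↑) : s → EuclideanSpace ℝ (Fin n)))
    {v : EuclideanSpace ℝ (Fin n)} (hv : v ∈ s) :
    Convex ℝ (convexHull ℝ (s : Set (EuclideanSpace ℝ (Fin n))) \
      convexHull ℝ ((s.erase v : Finset (EuclideanSpace ℝ (Fin n))) :
      Set (EuclideanSpace ℝ (Fin n)))) := by
  rintro x ⟨hx, hx'⟩ y ⟨hy, hy'⟩ l m hl hm hlm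
  have hxy := convex_convexHull ℝ (s : Set (EuclideanSpace ℝ (Fin n))) hx hy hl hm hlm
  refine ⟨hxy, ?_⟩
  rw [Finset.mem_convexHull'] at hx hy
  obtain ⟨a, ha0, ha1, hax⟩ := hx
  obtain ⟨b, hb0, hb1, hby⟩ := hy
  rw [notMem_erase_iff hs hv ha0 ha1 hax] at hx'
  rw [notMem_erase_iff hs hv hb0 hb1 hby] at hy'
  rw [notMem_erase_iff hs hv (a := fun z => l * a z + m * b z)]
  · rcases eq_or_lt_of_le hl with h | h
    · have : m = 1 := by linarith
      rw [← h, this]; simpa using hy'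
    · have := mul_pos h hx'
      have := mul_nonneg hm hy'.le
      positivity
  · intro z hz
    have := ha0 z hz
    have := hb0 z hz
    positivity
  · rw [Finset.sum_add_distrib, ← Finset.mul_sum, ← Finset.mul_sum, ha1, hb1]
    linarith
  · simp only [add_smul, mul_smul]
    rw [Finset.sum_add_distrib, ← Finset.smul_sum, ← Finset.smul_sum, hax, hby]

variable (K : Geometry.SimplicialComplex ℝ (EuclideanSpace ℝ (Fin n)))

/-- the open star of a vertex -/
def oStar (v : EuclideanSpace ℝ (Fin n)) : Set K.space :=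
  {y | ∀ t ∈ K.faces, (y : EuclideanSpace ℝ (Fin n)) ∈
    convexHull ℝ (t : Set (EuclideanSpace ℝ (Fin n))) → v ∈ t}

variable {K}

lemma mem_oStar_iff {s : Finset (EuclideanSpace ℝ (Fin n))} (hs : s ∈ K.faces) {y : K.space}
    (hy : (y : EuclideanSpace ℝ (Fin n)) ∈ convexHull ℝ (s : Set (EuclideanSpace ℝ (Fin n))))
    (v : EuclideanSpace ℝ (Fin n)) :
    y ∈ oStar K v ↔ v ∈ s ∧ (y : EuclideanSpace ℝ (Fin n)) ∉
      convexHull ℝ ((s.erase v : Finset (EuclideanSpace ℝ (Fin n))) :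
      Set (EuclideanSpace ℝ (Fin n))) := by
  constructor
  · intro h
    refine ⟨h s hs hy, fun hy' => ?_⟩
    have hne : (s.erase v).Nonempty := by
      have := convexHull_nonempty_iff.1 ⟨_, hy'⟩
      exact_mod_cast this
    have hf : s.erase v ∈ K.faces := K.down_closed hs (Finset.erase_subset _ _) hne
    exact Finset.notMem_erase v s (h _ hf hy')
  · rintro ⟨hv, hy'⟩ t ht hyt
    by_contra hvt
    apply hy'
    have h1 := K.inter_subset_convexHull hs ht ⟨hy, hyt⟩
    refine convexHull_mono ?_ h1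
    rintro z ⟨hz1, hz2⟩
    rw [Finset.coe_erase]
    refine ⟨hz1, fun h => hvt ?_⟩
    rw [Set.mem_singleton_iff] at h
    rw [← h]
    exact_mod_cast hz2

lemma faces_finite (hK : K.vertices.Finite) : K.faces.Finite := by
  refine (hK.toFinset.powerset.finite_toSet).subset ?_
  intro s hs
  rw [Finset.mem_coe, Finset.mem_powerset]
  intro x hx
  rw [Set.Finite.mem_toFinset, Geometry.SimplicialComplex.vertices_eq]
  exact Set.mem_biUnion hs (by exact_mod_cast hx)

lemma isOpen_oStar (hK : K.vertices.Finite) (v : EuclideanSpace ℝ (Fin n)) :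
    IsOpen (oStar K v) := by
  have h1 : (oStar K v)ᶜ = ⋃ t ∈ {t | t ∈ K.faces ∧ v ∉ t}, {y : K.space |
      (y : EuclideanSpace ℝ (Fin n)) ∈ convexHull ℝ (t : Set (EuclideanSpace ℝ (Fin n)))} := by
    ext y
    simp only [oStar, Set.mem_compl_iff, Set.mem_ofPred_eq, not_forall, Set.mem_iUnion]
    constructor
    · rintro ⟨t, ht, hy, hv⟩
      exact ⟨t, ⟨ht, hv⟩, hy⟩
    · rintro ⟨t, ⟨ht, hv⟩, hy⟩
      exact ⟨t, ht, hy, hv⟩
  rw [← isClosed_compl_iff, h1]
  refine Set.Finite.isClosed_biUnion ((faces_finite hK).subset fun t ht => ht.1) fun t _ => ?_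
  exact ((t.finite_toSet).isClosed_convexHull ℝ).preimage continuous_subtype_val

lemma exists_mem_oStar (y : K.space) : ∃ v ∈ K.vertices, y ∈ oStar K v := by
  obtain ⟨t, ht, hyt⟩ := Geometry.SimplicialComplex.mem_space_iff.1 y.2
  have hex : ∃ m : ℕ, ∃ s ∈ K.faces, (y : EuclideanSpace ℝ (Fin n)) ∈
      convexHull ℝ (s : Set (EuclideanSpace ℝ (Fin n))) ∧ s.card = m := ⟨_, t, ht, hyt, rfl⟩
  classical
  obtain ⟨s, hs, hys, hcard⟩ := Nat.find_spec hex
  obtain ⟨v, hv⟩ := K.nonempty_of_mem_faces hs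
  refine ⟨v, ?_, ?_⟩
  · rw [Geometry.SimplicialComplex.vertices_eq]
    exact Set.mem_biUnion hs (by exact_mod_cast hv)
  · rw [mem_oStar_iff hs hys]
    refine ⟨hv, fun h => ?_⟩
    have hne : (s.erase v).Nonempty := by
      have := convexHull_nonempty_iff.1 ⟨_, h⟩
      exact_mod_cast this
    have hf : s.erase v ∈ K.faces := K.down_closed hs (Finset.erase_subset _ _) hne
    have := Nat.find_min' hex ⟨s.erase v, hf, h, rfl⟩
    have h2 := Finset.card_erase_lt_of_mem hv
    omega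

/-- segments from a point of the star to the vertex stay in the star -/
lemma seg_oStar {v : EuclideanSpace ℝ (Fin n)} {y : K.space} (hy : y ∈ oStar K v)
    {t : ℝ} (h0 : 0 ≤ t) (h1 : t ≤ 1) :
    ∃ h : (1 - t) • v + t • (y : EuclideanSpace ℝ (Fin n)) ∈ K.space,
      (⟨_, h⟩ : K.space) ∈ oStar K v := by
  obtain ⟨s, hs, hys⟩ := Geometry.SimplicialComplex.mem_space_iff.1 y.2
  have hy' := (mem_oStar_iff hs hys v).1 hy
  have hvs : v ∈ convexHull ℝ (s : Set (EuclideanSpace ℝ (Fin n))) :=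
    subset_convexHull ℝ _ (by exact_mod_cast hy'.1)
  have hv' : v ∉ convexHull ℝ ((s.erase v : Finset (EuclideanSpace ℝ (Fin n))) :
      Set (EuclideanSpace ℝ (Fin n))) := by
    rw [notMem_erase_iff (K.indep hs) hy'.1 (a := fun z => if z = v then 1 else 0)]
    · simp
    · intro z _; positivity
    · simp [hy'.1]
    · simp [hy'.1]
  have := convex_openFace (K.indep hs) hy'.1 ⟨hvs, hv'⟩ ⟨hys, hy'.2⟩
    (sub_nonneg.2 h1) h0 (by ring)
  refine ⟨Geometry.SimplicialComplex.mem_space_iff.2 ⟨s, hs, this.1⟩, ?_⟩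
  exact (mem_oStar_iff hs this.1 v).2 ⟨hy'.1, this.2⟩

/-- segments from the midpoint of an edge stay in the intersection of two stars -/
lemma seg_oStar2 {v w : EuclideanSpace ℝ (Fin n)} (hvw : v ≠ w) {y : K.space}
    (hy : y ∈ oStar K v) (hy2 : y ∈ oStar K w)
    {t : ℝ} (h0 : 0 ≤ t) (h1 : t ≤ 1) :
    ∃ h : (1 - t) • ((1 / 2 : ℝ) • v + (1 / 2 : ℝ) • w) + t • (y : EuclideanSpace ℝ (Fin n)) ∈
      K.space, (⟨_, h⟩ : K.space) ∈ oStar K v ∩ oStar K w := by
  obtain ⟨s, hs, hys⟩ := Geometry.SimplicialComplex.mem_space_iff.1 y.2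
  have hy' := (mem_oStar_iff hs hys v).1 hy
  have hy2' := (mem_oStar_iff hs hys w).1 hy2
  have hvs : v ∈ convexHull ℝ (s : Set (EuclideanSpace ℝ (Fin n))) :=
    subset_convexHull ℝ _ (by exact_mod_cast hy'.1)
  have hws : w ∈ convexHull ℝ (s : Set (EuclideanSpace ℝ (Fin n))) :=
    subset_convexHull ℝ _ (by exact_mod_cast hy2'.1)
  have hm : (1 / 2 : ℝ) • v + (1 / 2 : ℝ) • w ∈
      convexHull ℝ (s : Set (EuclideanSpace ℝ (Fin n))) :=
    convex_convexHull ℝ _ hvs hws (by norm_num) (by norm_num) (by norm_num)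
  have key : ∀ u, u ∈ s → (u = v ∨ u = w) → (1 / 2 : ℝ) • v + (1 / 2 : ℝ) • w ∉
      convexHull ℝ ((s.erase u : Finset (EuclideanSpace ℝ (Fin n))) :
      Set (EuclideanSpace ℝ (Fin n))) := by
    intro u hu huvw
    rw [notMem_erase_iff (K.indep hs) hu
      (a := fun z => (1 / 2 : ℝ) * (if z = v then 1 else 0) + (1 / 2 : ℝ) * (if z = w then 1 else 0))]
    · rcases huvw with h | h
      · subst h; simp only [if_true]; positivity
      · subst h; simp only [if_true]; positivity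
    · intro z _; positivity
    · rw [Finset.sum_add_distrib, ← Finset.mul_sum, ← Finset.mul_sum]
      simp only [Finset.sum_ite_eq', hy'.1, hy2'.1, if_true]; norm_num
    · simp only [add_smul, mul_smul]
      rw [Finset.sum_add_distrib, ← Finset.smul_sum, ← Finset.smul_sum]
      simp [hy'.1, hy2'.1]
  have e1 := convex_openFace (K.indep hs) hy'.1 ⟨hm, key v hy'.1 (Or.inl rfl)⟩ ⟨hys, hy'.2⟩
    (sub_nonneg.2 h1) h0 (by ring)
  have e2 := convex_openFace (K.indep hs) hy2'.1 ⟨hm, key w hy2'.1 (Or.inr rfl)⟩ ⟨hys, hy2'.2⟩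
    (sub_nonneg.2 h1) h0 (by ring)
  refine ⟨Geometry.SimplicialComplex.mem_space_iff.2 ⟨s, hs, e1.1⟩, ?_, ?_⟩
  · exact (mem_oStar_iff hs e1.1 v).2 ⟨hy'.1, e1.2⟩
  · exact (mem_oStar_iff hs e1.1 w).2 ⟨hy2'.1, e2.2⟩

lemma isPreconnected_inter {v w : EuclideanSpace ℝ (Fin n)} (hvw : v ≠ w) :
    IsPreconnected (oStar K v ∩ oStar K w) := by
  rcases (oStar K v ∩ oStar K w).eq_empty_or_nonempty with h | ⟨y0, hy0⟩
  · rw [h]; exact isPreconnected_empty
  obtain ⟨hm, hm'⟩ := seg_oStar2 hvw hy0.1 hy0.2 (t := 0) le_rfl zero_le_one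
  refine isPreconnected_of_forall ⟨_, hm⟩ fun y hy => ?_
  -- the image of the segment
  let γ : Set.Icc (0:ℝ) 1 → K.space := fun t =>
    ⟨_, (seg_oStar2 hvw hy.1 hy.2 t.2.1 t.2.2).1⟩
  have hγ : Continuous γ := by
    apply Continuous.subtype_mk
    fun_prop
  refine ⟨Set.range γ, ?_, ⟨⟨0, by simp⟩, ?_⟩, ⟨⟨1, by simp⟩, ?_⟩, isPreconnected_range hγ⟩
  · rintro _ ⟨t, rfl⟩
    exact (seg_oStar2 hvw hy.1 hy.2 t.2.1 t.2.2).2
  · apply Subtype.ext
    simp [γ]
  · apply Subtype.ext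
    simp [γ]

end Geo


/-- the antipodal relation -/
abbrev rel5 (x y : Metric.sphere (0 : EuclideanSpace ℝ (Fin 6)) 1) : Prop :=
  (x : EuclideanSpace ℝ (Fin 6)) = (y : EuclideanSpace ℝ (Fin 6)) ∨
          (x : EuclideanSpace ℝ (Fin 6)) = -(y : EuclideanSpace ℝ (Fin 6))

lemma rel5_iff (x y : S5) : rel5 x y ↔ x = y ∨ x = -y := by
  constructor
  · rintro (h | h)
    · left; exact Subtype.ext h
    · right; apply Subtype.ext; rw [h]; rfl
  · rintro (h | h)
    · left; rw [h]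
    · right; rw [h]; rfl

lemma ne_neg_self5 (x : S5) : x ≠ -x := by
  intro h
  have h1 : (x : EuclideanSpace ℝ (Fin 6)) = -(x : EuclideanSpace ℝ (Fin 6)) := by
    conv_lhs => rw [h]
    rfl
  have h2 : (x : EuclideanSpace ℝ (Fin 6)) = 0 := by
    have h4 : (2 : ℝ) • (x : EuclideanSpace ℝ (Fin 6)) = 0 := by
      rw [two_smul]
      nth_rewrite 1 [h1]
      exact neg_add_cancel _
    exact (smul_eq_zero.1 h4).resolve_left two_ne_zero
  have h3 := x.2
  rw [mem_sphere_zero_iff_norm, h2, norm_zero] at h3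
  exact zero_ne_one h3

lemma rel5_equiv : Equivalence rel5 := by
  refine ⟨fun x => Or.inl rfl, ?_, ?_⟩
  · intro x y h
    rw [rel5_iff] at h ⊢
    rcases h with h | h
    · left; exact h.symm
    · right; rw [h, neg_neg]
  · intro x y z h1 h2
    rw [rel5_iff] at h1 h2 ⊢
    rcases h1 with h1 | h1 <;> rcases h2 with h2 | h2
    · left; rw [h1, h2]
    · right; rw [h1, h2]
    · right; rw [h1, h2]
    · left; rw [h1, h2, neg_neg]

lemma mk_eq_iff (x y : S5) : Quot.mk rel5 x = Quot.mk rel5 y ↔ x = y ∨ x = -y := by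
  rw [Quot.eq, rel5_equiv.eqvGen_iff, rel5_iff]

lemma isOpenMap_mk : IsOpenMap (Quot.mk rel5) := by
  intro V hV
  rw [← isQuotientMap_quot_mk.isOpen_preimage]
  have : Quot.mk rel5 ⁻¹' (Quot.mk rel5 '' V) = V ∪ (fun x : S5 => -x) ⁻¹' V := by
    ext x
    constructor
    · rintro ⟨y, hy, hxy⟩
      rcases (mk_eq_iff y x).1 hxy with h | h
      · left; rwa [← h]
      · right; show -x ∈ V; rwa [← h]
    · rintro (h | h)
      · exact ⟨x, h, rfl⟩
      · exact ⟨-x, h, (mk_eq_iff _ _).2 (Or.inr rfl)⟩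
  rw [this]
  exact hV.union (hV.preimage continuous_neg)

lemma isCoveringMap_f {n : ℕ} {X : Set (EuclideanSpace ℝ (Fin n))} (h : X ≃ₜ Quot rel5) :
    IsCoveringMap (fun x : S5 => h.symm (Quot.mk rel5 x)) := by
  rw [← isLocalHomeomorph_iff_isCoveringMap, isLocalHomeomorph_iff_isOpenEmbedding_restrict]
  intro x
  have hc : Continuous (fun x : S5 => h.symm (Quot.mk rel5 x)) :=
    h.symm.continuous.comp continuous_quot_mk
  have ho : IsOpenMap (fun x : S5 => h.symm (Quot.mk rel5 x)) :=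
    h.symm.isOpenMap.comp isOpenMap_mk
  obtain ⟨U, V, hU, hV, hxU, hxV, hUV⟩ := t2_separation (ne_neg_self5 x)
  let W : Set S5 := U ∩ (fun x : S5 => -x) ⁻¹' V
  have hW : IsOpen W := hU.inter (hV.preimage continuous_neg)
  refine ⟨W, hW.mem_nhds ⟨hxU, hxV⟩, ?_⟩
  rw [Topology.isOpenEmbedding_iff_continuous_injective_isOpenMap]
  refine ⟨hc.comp continuous_subtype_val, ?_, ho.comp hW.isOpenMap_subtype_val⟩
  intro a b hab
  have h1 : Quot.mk rel5 a.1 = Quot.mk rel5 b.1 := h.symm.injective hab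
  rcases (mk_eq_iff _ _).1 h1 with h2 | h2
  · exact Subtype.ext h2
  · exfalso
    have h3 : a.1 ∈ U := a.2.1
    have h4 : -b.1 ∈ V := b.2.2
    rw [h2] at h3
    exact Set.disjoint_left.1 hUV h3 h4


/-- a continuous section over a set which contracts to a point inside the space -/
lemma exists_section {X : Type*} [TopologicalSpace X] {f : S5 → X} (hf : IsCoveringMap f)
    (hsurj : Function.Surjective f) (U : Set X) (v : X)
    (H : C(unitInterval × U, X)) (H0 : ∀ a, H (0, a) = v) (H1 : ∀ a : U, H (1, a) = a.1) :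
    ∃ s : X → S5, ContinuousOn s U ∧ ∀ y ∈ U, f (s y) = y := by
  classical
  obtain ⟨x0, hx0⟩ := hsurj v
  let L := hf.liftHomotopy H (ContinuousMap.const U x0) (fun a => by rw [H0, ← hx0]; rfl)
  have hL : f ∘ L = H := hf.liftHomotopy_lifts H _ _
  refine ⟨fun y => if hy : y ∈ U then L (1, ⟨y, hy⟩) else x0, ?_, ?_⟩
  · rw [continuousOn_iff_continuous_domRestrict]
    have : U.domRestrict (fun y => if hy : y ∈ U then L (1, ⟨y, hy⟩) else x0) =
        fun y : U => L (1, y) := by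
      funext y
      simp [Set.domRestrict]
    rw [this]
    exact L.continuous.comp (by fun_prop)
  · intro y hy
    simp only [dif_pos hy]
    have := congr_fun hL (1, ⟨y, hy⟩)
    rw [H1] at this
    exact this

/-- the sheet over the star -/
def sheet {X : Type*} (f : S5 → X) (U : Set X) (s : X → S5) : Set S5 :=
  {x | f x ∈ U ∧ s (f x) = x}


lemma isOpen_sheet {X : Type*} [TopologicalSpace X] {f : S5 → X} (hf : Continuous f)
    (hfib : ∀ x y, f x = f y ↔ x = y ∨ x = -y) {U : Set X} (hU : IsOpen U) {s : X → S5}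
    (hs : ContinuousOn s U) (hsf : ∀ y ∈ U, f (s y) = y) : IsOpen (sheet f U s) := by
  have hA : IsOpen (f ⁻¹' U) := hU.preimage hf
  have hc : ContinuousOn (fun x : S5 => (s (f x), -x)) (f ⁻¹' U) :=
    (hs.comp hf.continuousOn (fun x hx => hx)).prodMk continuous_neg.continuousOn
  have h1 := hc.isOpen_inter_preimage hA (isClosed_diagonal.isOpen_compl)
  convert h1 using 1
  ext x
  constructor
  · rintro ⟨h2, h3⟩
    refine ⟨h2, fun h4 => ?_⟩
    have h5 : s (f x) = -x := h4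
    rw [h3] at h5
    exact ne_neg_self5 x h5
  · rintro ⟨h2, h3⟩
    refine ⟨h2, ?_⟩
    have h4 : f (s (f x)) = f x := hsf _ h2
    rcases (hfib _ _).1 h4 with h | h
    · exact h
    · exact absurd h h3

/-- PART T2a. -/
theorem exists_starCover (n : ℕ) (K : Geometry.SimplicialComplex ℝ (EuclideanSpace ℝ (Fin n)))
    (N : ℕ) (hN : K.vertices.ncard = N) (hpos : 0 < N)
    (h : Nonempty (Homeomorph (↥K.space)
        (Quot (fun x y : Metric.sphere (0 : EuclideanSpace ℝ (Fin 6)) 1 =>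
          (x : EuclideanSpace ℝ (Fin 6)) = (y : EuclideanSpace ℝ (Fin 6)) ∨
          (x : EuclideanSpace ℝ (Fin 6)) = -(y : EuclideanSpace ℝ (Fin 6)))))) :
    ∃ W : Fin N → Set S5, StarCover N W := by
  obtain ⟨h⟩ := h
  have hfin : K.vertices.Finite := Set.finite_of_ncard_pos (by omega)
  let f : S5 → K.space := fun x => h.symm (Quot.mk rel5 x)
  have hcov : IsCoveringMap f := isCoveringMap_f h
  have hfib : ∀ x y, f x = f y ↔ x = y ∨ x = -y := by
    intro x y
    rw [← mk_eq_iff]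
    exact h.symm.injective.eq_iff
  have hsurj : Function.Surjective f := by
    intro y
    obtain ⟨x, hx⟩ := Quot.exists_rep (h y)
    refine ⟨x, ?_⟩
    show h.symm (Quot.mk rel5 x) = y
    rw [show Quot.mk rel5 x = h y from hx, h.symm_apply_apply]
  have hneg : ∀ x, f (-x) = f x := fun x => (hfib _ _).2 (Or.inr rfl)
  have hsec : ∀ v ∈ K.vertices, ∃ s : K.space → S5, ContinuousOn s (oStar K v) ∧
      ∀ y ∈ oStar K v, f (s y) = y := by
    intro v hv
    have hvK : v ∈ K.space := K.vertices_subset_space hv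
    refine exists_section hcov hsurj (oStar K v) ⟨v, hvK⟩
      ⟨fun p => ⟨(1 - (p.1 : ℝ)) • v + (p.1 : ℝ) • (p.2.1 : EuclideanSpace ℝ (Fin n)),
        (seg_oStar p.2.2 p.1.2.1 p.1.2.2).1⟩, ?_⟩ ?_ ?_
    · apply Continuous.subtype_mk
      fun_prop
    · intro a
      apply Subtype.ext
      simp
    · intro a
      apply Subtype.ext
      simp
  choose s hs hsf using hsec
  have hcard : Nat.card K.vertices = N := by rw [← hN]; exact Nat.card_coe_set_eq _
  have : Finite K.vertices := hfin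
  let e : K.vertices ≃ Fin N := Finite.equivFinOfCardEq hcard
  refine ⟨fun i => sheet f (oStar K (e.symm i).1) (s (e.symm i).1 (e.symm i).2), ?_, ?_, ?_, ?_⟩
  · intro i
    exact isOpen_sheet hcov.continuous hfib (isOpen_oStar hfin _) (hs _ (e.symm i).2)
      (hsf _ (e.symm i).2)
  · intro x
    obtain ⟨v, hv, hxv⟩ := exists_mem_oStar (f x)
    refine ⟨e ⟨v, hv⟩, ?_⟩
    rw [Equiv.symm_apply_apply]
    rcases (hfib _ _).1 (hsf v hv (f x) hxv) with h1 | h1
    · left; exact ⟨hxv, h1⟩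
    · right
      refine ⟨?_, ?_⟩
      · rw [hneg]; exact hxv
      · rw [hneg]; exact h1
  · rintro i x ⟨h1, h2⟩ ⟨h3, h4⟩
    rw [hneg] at h4
    rw [h2] at h4
    exact ne_neg_self5 x h4
  · rintro i j hij x y ⟨x1, x2⟩ ⟨x3, x4⟩ ⟨y1, y2⟩ ⟨y3, y4⟩
    have hne : (e.symm i).1 ≠ (e.symm j).1 := by
      intro hh
      exact hij (e.symm.injective (Subtype.ext hh))
    rw [hneg] at y3 y4
    have := hcov.eqOn_of_comp_eqOn (isPreconnected_inter hne)
      ((hs _ (e.symm i).2).mono Set.inter_subset_left)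
      ((hs _ (e.symm j).2).mono Set.inter_subset_right)
      (fun z hz => by
        show f (s _ _ z) = f (s _ _ z)
        rw [hsf _ (e.symm i).2 z hz.1, hsf _ (e.symm j).2 z hz.2])
      ⟨x1, x3⟩ (x2.trans x4.symm) ⟨y1, y3⟩
    rw [y2, y4] at this
    exact ne_neg_self5 y this

end Pool.Agent.RP5
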