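import Mathlib

/-!
MP_a77ffe_gt: shared definitions of the topological part.
-/

set_option autoImplicit false

namespace Pool.Agent.RP5

/-- the unit sphere of dimension 5 -/
abbrev S5 : Type := Metric.sphere (0 : EuclideanSpace ℝ (Fin 6)) 1

/-- A family of open sets as given by the open stars of the double cover. -/
structure StarCover (N : ℕ) (W : Fin N → Set S5) : Prop where
  isOpen : ∀ i, IsOpen (W i)
  cover : ∀ x : S5, ∃ i, x ∈ W i ∨ -x ∈ W i
  disj : ∀ i x, x ∈ W i → -x ∉ W i
  sign : ∀ i j, i ≠ j → ∀ x y : S5, x ∈ W i → x ∈ W j → y ∈ W i → -y ∈ W j → False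

end Pool.Agent.RP5
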