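import Pool.Agent.Lib_MP_a77ffe_gt.Chain
import Pool.Agent.Lib_MP_a77ffe_gt.TopDefs
import Pool.Agent.Lib_MP_22bcea_gt.BU

/-!
Topological part of MP_a77ffe_gt: from a star cover of the sphere to a labelling of the
cross-polytope (Lebesgue number).
-/

set_option autoImplicit false

namespace Pool.Agent.RP5

open Finset Pool.Agent.Lib_MP_22bcea_gt.BU

/-- radial projection from the cross-polytope to the sphere -/
noncomputable def radial (x : KK 6) : S5 :=
  ⟨‖(WithLp.toLp 2 x.1 : EuclideanSpace ℝ (Fin 6))‖⁻¹ •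
    (WithLp.toLp 2 x.1 : EuclideanSpace ℝ (Fin 6)), by
    have hne : (WithLp.toLp 2 x.1 : EuclideanSpace ℝ (Fin 6)) ≠ 0 := by
      intro h
      apply KK_ne x.2
      have := congrArg (WithLp.ofLp) h
      simpa using this
    rw [mem_sphere_zero_iff_norm, norm_smul, norm_inv, norm_norm]
    exact inv_mul_cancel₀ (norm_ne_zero_iff.2 hne)⟩

theorem continuous_radial : Continuous radial := by
  unfold radial
  refine Continuous.subtype_mk ?_ _
  have h1 : Continuous (fun x : KK 6 => (WithLp.toLp 2 x.1 : EuclideanSpace ℝ (Fin 6))) :=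
    (PiLp.continuous_toLp 2 _).comp continuous_subtype_val
  refine Continuous.smul (Continuous.inv₀ h1.norm ?_) h1
  intro x h
  rw [norm_eq_zero] at h
  apply KK_ne x.2
  have := congrArg (WithLp.ofLp) h
  simpa using this

theorem radial_neg (x : KK 6) : radial ⟨-x.1, KK_neg x.2⟩ = - radial x := by
  apply Subtype.ext
  simp only [radial, WithLp.toLp_neg, norm_neg, smul_neg]
  rfl

/-- PART T2b. -/
theorem exists_labelling (N : ℕ) (W : Fin N → Set S5) (hW : StarCover N W) :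
    ∃ (e : ℕ → ℕ → Bool) (φ : (Fin 6 → ℝ) → ℕ) (δ : ℝ), 0 < δ ∧ (∀ i j, e i j = e j i) ∧
      (∀ x ∈ KK 6, φ x < 2 * N) ∧
      (∀ x ∈ KK 6, φ (-x) = nu (φ x)) ∧
      (∀ x ∈ KK 6, ∀ y ∈ KK 6, dist x y < δ → φ x ≠ φ y →
        φ x / 2 ≠ φ y / 2 ∧ e (φ x / 2) (φ y / 2) = decide ((φ x + φ y) % 2 = 1)) := by
  classical
  have : CompactSpace (KK 6) := isCompact_iff_compactSpace.1 KK_compact
  -- the cover
  let c : Fin N × Bool → Set (KK 6) := fun p =>
    if p.2 then {x | - radial x ∈ W p.1} else {x | radial x ∈ W p.1}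
  have hc : ∀ p, IsOpen (c p) := by
    rintro ⟨i, b⟩
    cases b
    · exact (hW.isOpen i).preimage continuous_radial
    · exact (hW.isOpen i).preimage (continuous_neg.comp continuous_radial)
  have hcov : (Set.univ : Set (KK 6)) ⊆ ⋃ p, c p := by
    intro x _
    obtain ⟨i, hi | hi⟩ := hW.cover (radial x)
    · exact Set.mem_iUnion.2 ⟨(i, false), hi⟩
    · exact Set.mem_iUnion.2 ⟨(i, true), hi⟩
  obtain ⟨δ, hδ, hleb⟩ := lebesgue_number_lemma_of_metric isCompact_univ hc hcov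
  let P0 : (Fin 6 → ℝ) → Fin N → Prop := fun x i => ∀ y : KK 6, dist y.1 x < δ → radial y ∈ W i
  let P1 : (Fin 6 → ℝ) → Fin N → Prop := fun x i => ∀ y : KK 6, dist y.1 x < δ → -radial y ∈ W i
  have hP01 : ∀ x i, P0 (-x) i ↔ P1 x i := by
    intro x i
    constructor
    · intro h y hy
      have := h ⟨-y.1, KK_neg y.2⟩ (by rw [dist_neg_neg]; exact hy)
      rwa [radial_neg] at this
    · intro h y hy
      have := h ⟨-y.1, KK_neg y.2⟩ (by
        rw [← dist_neg_neg, neg_neg]; exact hy)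
      rwa [radial_neg, neg_neg] at this
  have hP10 : ∀ x i, P1 (-x) i ↔ P0 x i := by
    intro x i
    rw [← hP01, neg_neg]
  have hex : ∀ x ∈ KK 6, ∃ i, P0 x i ∨ P1 x i := by
    intro x hx
    obtain ⟨⟨i, b⟩, hi⟩ := hleb ⟨x, hx⟩ (Set.mem_univ _)
    refine ⟨i, ?_⟩
    cases b
    · left
      intro y hy
      exact hi (show dist y ⟨x, hx⟩ < δ from hy)
    · right
      intro y hy
      exact hi (show dist y ⟨x, hx⟩ < δ from hy)
  have hnot : ∀ x ∈ KK 6, ∀ i, ¬ (P0 x i ∧ P1 x i) := by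
    rintro x hx i ⟨h0, h1⟩
    exact hW.disj i _ (h0 ⟨x, hx⟩ (by simpa using hδ)) (h1 ⟨x, hx⟩ (by simpa using hδ))
  -- the index
  have hN : Nonempty (Fin N) := by
    obtain ⟨x0⟩ : Nonempty S5 := by
      refine ⟨⟨EuclideanSpace.single 0 1, ?_⟩⟩
      simp
    obtain ⟨i, -⟩ := hW.cover x0
    exact ⟨i⟩
  let idx : (Fin 6 → ℝ) → Fin N := fun x => Classical.epsilon (fun i => P0 x i ∨ P1 x i)
  have hidx : ∀ x ∈ KK 6, P0 x (idx x) ∨ P1 x (idx x) := fun x hx =>
    Classical.epsilon_spec (hex x hx)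
  have hidxneg : ∀ x, idx (-x) = idx x := by
    intro x
    have : (fun i => P0 (-x) i ∨ P1 (-x) i) = (fun i => P0 x i ∨ P1 x i) := by
      funext i
      rw [hP01, hP10]
      exact propext or_comm
    simp only [idx, this]
  let φ : (Fin 6 → ℝ) → ℕ := fun x => 2 * (idx x : ℕ) + (if P0 x (idx x) then 0 else 1)
  have hφ0 : ∀ x, P0 x (idx x) → φ x = 2 * (idx x : ℕ) := by
    intro x h
    simp only [φ, if_pos h, add_zero]
  have hφ1 : ∀ x, ¬ P0 x (idx x) → φ x = 2 * (idx x : ℕ) + 1 := by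
    intro x h
    simp only [φ, if_neg h]
  let e : ℕ → ℕ → Bool := fun i j => decide (i ≠ j ∧ ∃ (hi : i < N) (hj : j < N) (x : S5),
    x ∈ W ⟨i, hi⟩ ∧ -x ∈ W ⟨j, hj⟩)
  refine ⟨e, φ, δ, hδ, ?_, ?_, ?_, ?_⟩
  · intro i j
    simp only [e]
    rw [decide_eq_decide]
    constructor
    · rintro ⟨hij, hi, hj, x, h1, h2⟩
      exact ⟨hij.symm, hj, hi, -x, h2, by rwa [neg_neg]⟩
    · rintro ⟨hij, hi, hj, x, h1, h2⟩
      exact ⟨hij.symm, hj, hi, -x, h2, by rwa [neg_neg]⟩
  · intro x _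
    have := (idx x).2
    by_cases h : P0 x (idx x)
    · rw [hφ0 x h]; omega
    · rw [hφ1 x h]; omega
  · intro x hx
    by_cases h : P0 x (idx x)
    · have h' : ¬ P0 (-x) (idx (-x)) := by
        rw [hidxneg, hP01]
        exact fun h1 => hnot x hx _ ⟨h, h1⟩
      rw [hφ0 x h, hφ1 _ h', hidxneg]
      unfold nu
      split_ifs <;> omega
    · have h' : P0 (-x) (idx (-x)) := by
        rw [hidxneg, hP01]
        exact (hidx x hx).resolve_left h
      rw [hφ1 x h, hφ0 _ h', hidxneg]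
      unfold nu
      split_ifs <;> omega
  · intro x hx y hy hxy hne
    -- the point F y
    have hmem : ∀ z ∈ KK 6, dist z y < δ ∨ z = y → True := fun _ _ _ => trivial
    have key : ∀ z ∈ KK 6, dist y z < δ →
        (φ z % 2 = 0 → radial ⟨y, hy⟩ ∈ W (idx z)) ∧ (φ z % 2 = 1 → -radial ⟨y, hy⟩ ∈ W (idx z)) := by
      intro z hz hzy
      by_cases h : P0 z (idx z)
      · rw [hφ0 z h]
        exact ⟨fun _ => h ⟨y, hy⟩ hzy, fun h2 => by omega⟩
      · rw [hφ1 z h]
        exact ⟨fun h2 => by omega, fun _ => (hidx z hz).resolve_left h ⟨y, hy⟩ hzy⟩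
    have hdiv : ∀ z, φ z / 2 = (idx z : ℕ) := by
      intro z
      by_cases h : P0 z (idx z)
      · rw [hφ0 z h]; omega
      · rw [hφ1 z h]; omega
    obtain ⟨kx0, kx1⟩ := key x hx (by rw [dist_comm]; exact hxy)
    obtain ⟨ky0, ky1⟩ := key y hy (by simpa using hδ)
    have hij : idx x ≠ idx y := by
      intro hij
      have h1 : φ x / 2 = φ y / 2 := by rw [hdiv, hdiv, hij]
      rcases Nat.mod_two_eq_zero_or_one (φ x) with h2 | h2 <;>
        rcases Nat.mod_two_eq_zero_or_one (φ y) with h3 | h3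
      · omega
      · exact hW.disj _ _ (kx0 h2) (hij ▸ ky1 h3)
      · exact hW.disj _ _ (ky0 h3) (hij ▸ kx1 h2)
      · omega
    refine ⟨?_, ?_⟩
    · rw [hdiv, hdiv]
      exact fun h => hij (Fin.ext h)
    · rw [hdiv, hdiv]
      have hij' : (idx x : ℕ) ≠ (idx y : ℕ) := fun h => hij (Fin.ext h)
      simp only [e]
      rw [decide_eq_decide]
      rcases Nat.mod_two_eq_zero_or_one (φ x) with h2 | h2 <;>
        rcases Nat.mod_two_eq_zero_or_one (φ y) with h3 | h3
      · constructor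
        · rintro ⟨-, hi, hj, z, hz1, hz2⟩
          exact (hW.sign _ _ hij _ z (kx0 h2) (ky0 h3) hz1 hz2).elim
        · intro h; omega
      · constructor
        · intro _; omega
        · intro _
          exact ⟨hij', (idx x).2, (idx y).2, radial ⟨y, hy⟩, kx0 h2, ky1 h3⟩
      · constructor
        · intro _; omega
        · intro _
          exact ⟨hij', (idx x).2, (idx y).2, -radial ⟨y, hy⟩, kx1 h2, by
            rw [neg_neg]; exact ky0 h3⟩
      · constructor
        · rintro ⟨-, hi, hj, z, hz1, hz2⟩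
          exact (hW.sign _ _ hij _ z (kx1 h2) (ky1 h3) hz1 hz2).elim
        · intro h; omega

end Pool.Agent.RP5
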